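import Pool.Agent.Lib.MP_534936_co.Net.Defs
import Pool.Agent.Lib.MP_534936_co.Induct

/-!
# Basic facts on networks
-/

set_option autoImplicit false

namespace Pool.Agent.Lib.MP_534936_co.Net

open Pool.Agent.Lib.MP_534936_co

section basic

variable {V N E : Type}

/-- restriction of a network -/
def Netw.comap {W : Type} (M : Netw V N E) (φ : W → V) : Netw W N E where
  tl := M.tl
  hd := M.hd
  len := M.len
  rd w := M.rd (φ w)
  s w := M.s (φ w)
  t w := M.t (φ w)
  len_pos := M.len_pos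
  st w := M.st (φ w)
  tlen w := M.tlen (φ w)

theorem isNet_comap {W : Type} {M : Netw V N E} {G : SimpleGraph V} (hG : IsNet G M) (φ : W → V)
    (hφ : Function.Injective φ) : IsNet (G.comap φ) (M.comap φ) := by
  intro u v
  rw [SimpleGraph.comap_adj, hG (φ u) (φ v)]
  constructor
  · rintro ⟨h1, h2⟩
    exact ⟨fun h => h1 (congrArg φ h), h2⟩
  · rintro ⟨h1, h2⟩
    exact ⟨fun h => h1 (hφ h), h2⟩

/-- all roads reversed -/
def Netw.mir (M : Netw V N E) : Netw V N E where
  tl := M.hd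
  hd := M.tl
  len := M.len
  rd := M.rd
  s v := M.len (M.rd v) - M.t v
  t v := M.len (M.rd v) - M.s v
  len_pos := M.len_pos
  st v := Nat.sub_le_sub_left (M.st v) _
  tlen v := Nat.sub_le _ _

theorem mir_at (M : Netw V N E) (v : V) (x : N) : M.mir.At v x ↔ M.At v x := by
  have h1 := M.st v
  have h2 := M.tlen v
  unfold Netw.At
  constructor
  · rintro (⟨h3, h4⟩ | ⟨h3, h4⟩)
    · right
      have h5 : M.len (M.rd v) - M.t v = 0 := h3
      exact ⟨by omega, h4⟩
    · left
      have h5 : M.len (M.rd v) - M.s v = M.len (M.rd v) := h3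
      have h6 := M.len_pos (M.rd v)
      exact ⟨by omega, h4⟩
  · rintro (⟨h3, h4⟩ | ⟨h3, h4⟩)
    · right
      refine ⟨?_, h4⟩
      show M.len (M.rd v) - M.s v = M.len (M.rd v)
      omega
    · left
      refine ⟨?_, h4⟩
      show M.len (M.rd v) - M.t v = 0
      omega

theorem isNet_mir {M : Netw V N E} {G : SimpleGraph V} (hG : IsNet G M) : IsNet G M.mir := by
  intro u v
  rw [hG u v]
  have h1 := M.st v
  have h2 := M.tlen v
  have h1' := M.st u
  have h2' := M.tlen u
  have key : M.mir.Meet u v ↔ M.Meet u v := by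
    unfold Netw.Meet
    have h3 : (∃ x, M.mir.At u x ∧ M.mir.At v x) ↔ ∃ x, M.At u x ∧ M.At v x := by
      constructor
      · rintro ⟨x, hx1, hx2⟩
        exact ⟨x, (mir_at M u x).1 hx1, (mir_at M v x).1 hx2⟩
      · rintro ⟨x, hx1, hx2⟩
        exact ⟨x, (mir_at M u x).2 hx1, (mir_at M v x).2 hx2⟩
    rw [h3]
    refine or_congr ?_ Iff.rfl
    constructor
    · rintro ⟨h4, h5, h6⟩
      have h4' : M.rd u = M.rd v := h4
      have h5' : M.len (M.rd u) - M.t u ≤ M.len (M.rd v) - M.s v := h5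
      have h6' : M.len (M.rd v) - M.t v ≤ M.len (M.rd u) - M.s u := h6
      rw [h4'] at h5' h6' h2'
      exact ⟨h4', by omega, by omega⟩
    · rintro ⟨h4, h5, h6⟩
      refine ⟨h4, ?_, ?_⟩
      · show M.len (M.rd u) - M.t u ≤ M.len (M.rd v) - M.s v
        rw [h4] at h2' ⊢
        omega
      · show M.len (M.rd v) - M.t v ≤ M.len (M.rd u) - M.s u
        rw [h4] at h2' ⊢
        omega
  rw [key]

theorem Crit.mir [Fintype V] {M : Netw V N E} {G : SimpleGraph V} {n : ℕ} (hC : Crit M G n) : Crit M.mir G n :=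
  ⟨isNet_mir hC.net, hC.nocol, hC.nominor, hC.ih⟩

/-- vertices containing the same node are adjacent -/
theorem adj_of_at {M : Netw V N E} {G : SimpleGraph V} (hG : IsNet G M) {u v : V} {x : N} (hu : M.At u x)
    (hv : M.At v x) (hne : u ≠ v) : G.Adj u v :=
  (hG u v).2 ⟨hne, Or.inr ⟨x, hu, hv⟩⟩

theorem mem_K [Fintype V] (M : Netw V N E) (x : N) (v : V) : v ∈ M.K x ↔ M.At v x := by
  classical
  unfold Netw.K
  rw [Finset.mem_filter]
  exact ⟨fun h => h.2, fun h => ⟨Finset.mem_univ v, h⟩⟩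

/-- every clique has at most `n` vertices -/
theorem Crit.clique_le [Fintype V] {M : Netw V N E} {G : SimpleGraph V} {n : ℕ} (hC : Crit M G n) (Q : Finset V)
    (hQ : ∀ u ∈ Q, ∀ v ∈ Q, u ≠ v → G.Adj u v) : Q.card ≤ n := by
  by_contra h
  exact hC.nominor (hasMinor_of_clique G (n + 1) Q (by omega) hQ)

end basic

end Pool.Agent.Lib.MP_534936_co.Net
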