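import Pool.Agent.Lib.MP_534936_co.Net.Defs
import Pool.Agent.Lib.MP_534936_co.Gn.Hadwiger
import Pool.Agent.Lib.MP_534936_co.Gn.GenBridge

/-!
# The theorem for circular-arc graphs in the form used for networks
-/

set_option autoImplicit false

namespace Pool.Agent.Lib.MP_534936_co.Net

open Pool.Agent.Lib.MP_534936_co

theorem circ : Circ := by
  intro V _ N hN a l ha hl G hG n hno
  exact Gn.minor_of_not_colourable_all Gn.gen _ V rfl N hN a l ha hl G hG n hno

end Pool.Agent.Lib.MP_534936_co.Net
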