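import Pool.Agent.Lib.MP_534936_co.Net.Basic

/-!
# Minors (30 minutes)

`hasMinor_of_minorOf`: `f i ⊆ W` the branch sets in `H`, take `⋃ w ∈ f i, φ w`. It is connected: choose a point in every `φ w`; two points of one `φ w` are joined
in `φ w`; along an edge `w w'` of `H` inside `f i` pass from `φ w` to `φ w'`.
`Crit.sub`: the restriction of the network to `S` has fewer vertices, its graph is `G.comap Subtype.val`, a minor of `G`.
-/

set_option autoImplicit false

namespace Pool.Agent.Lib.MP_534936_co.Net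

open Pool.Agent.Lib.MP_534936_co

theorem hasMinor_of_minorOf {W V : Type} (H : SimpleGraph W) (G : SimpleGraph V) (h : MinorOf H G) (k : ℕ)
    (hk : HasMinor H k) : HasMinor G k := by
  obtain ⟨φ, hc, hd, ha⟩ := h
  obtain ⟨f, hf1, hf2⟩ := hk
  refine ⟨fun i => {v | ∃ w ∈ f i, v ∈ φ w}, ?_, ?_⟩
  · intro i
    have hincl : ∀ w, w ∈ f i → φ w ⊆ {v | ∃ w ∈ f i, v ∈ φ w} := fun w hw v hv => ⟨w, hw, hv⟩
    have hin : ∀ (w : W) (hw : w ∈ f i) (x y : V) (hx : x ∈ φ w) (hy : y ∈ φ w),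
        (G.induce {v | ∃ w ∈ f i, v ∈ φ w}).Reachable ⟨x, hincl w hw hx⟩ ⟨y, hincl w hw hy⟩ := by
      intro w hw x y hx hy
      have h1 : (G.induce (φ w)).Reachable ⟨x, hx⟩ ⟨y, hy⟩ := (hc w).preconnected _ _
      exact h1.map (SimpleGraph.induceHomOfLE G (hincl w hw)).toHom
    have hmain : ∀ (a b : f i), (H.induce (f i)).Reachable a b → ∀ (x y : V) (hx : x ∈ φ a.1) (hy : y ∈ φ b.1),
        (G.induce {v | ∃ w ∈ f i, v ∈ φ w}).Reachable ⟨x, hincl a.1 a.2 hx⟩ ⟨y, hincl b.1 b.2 hy⟩ := by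
      rintro a b ⟨p⟩
      induction p with
      | @nil u => intro x y hx hy; exact hin u.1 u.2 x y hx hy
      | @cons u v w huv p ih =>
        intro x y hx hy
        obtain ⟨x', hx', y', hy', hxy⟩ := ha u.1 v.1 huv
        refine (hin u.1 u.2 x x' hx hx').trans (SimpleGraph.Reachable.trans ?_ (ih y' y hy' hy))
        exact SimpleGraph.Adj.reachable (show (G.induce {v | ∃ w ∈ f i, v ∈ φ w}).Adj
          ⟨x', hincl u.1 u.2 hx'⟩ ⟨y', hincl v.1 v.2 hy'⟩ from hxy)
    have hne : Nonempty (f i) := (hf1 i).nonempty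
    obtain ⟨w0⟩ := hne
    obtain ⟨x0⟩ := (hc w0.1).nonempty
    have : Nonempty ({v | ∃ w ∈ f i, v ∈ φ w} : Set V) := ⟨⟨x0.1, hincl w0.1 w0.2 x0.2⟩⟩
    refine SimpleGraph.Connected.mk ?_
    rintro ⟨x, wx, hwx, hx⟩ ⟨y, wy, hwy, hy⟩
    exact hmain ⟨wx, hwx⟩ ⟨wy, hwy⟩ ((hf1 i).preconnected _ _) x y hx hy
  · intro i j hij
    obtain ⟨h3, x, hx, y, hy, hxy⟩ := hf2 i j hij
    refine ⟨?_, ?_⟩
    · rw [Set.disjoint_left]
      rintro v ⟨w, hw, hv⟩ ⟨w', hw', hv'⟩
      have hne : w ≠ w' := fun h => (Set.disjoint_left.1 h3) hw (h ▸ hw')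
      exact (Set.disjoint_left.1 (hd w w' hne)) hv hv'
    · obtain ⟨x', hx', y', hy', hxy'⟩ := ha x y hxy
      exact ⟨x', ⟨x, hx, hx'⟩, y', ⟨y, hy, hy'⟩, hxy'⟩

theorem hasMinor_mono {V : Type} (G : SimpleGraph V) {k m : ℕ} (hkm : k ≤ m) (h : HasMinor G m) : HasMinor G k := by
  obtain ⟨f, hf1, hf2⟩ := h
  refine ⟨fun i => f (Fin.castLE hkm i), fun i => hf1 _, fun i j hij => hf2 _ _ ?_⟩
  intro h
  exact hij ((Fin.castLE_injective hkm) h)

theorem minorOf_comap {W V : Type} (G : SimpleGraph V) (φ : W → V) (hφ : Function.Injective φ) :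
    MinorOf (G.comap φ) G := by
  refine ⟨fun w => {φ w}, fun w => conn_single G (φ w), ?_, ?_⟩
  · intro w w' hne
    rw [Set.disjoint_singleton]
    exact fun h => hne (hφ h)
  · intro w w' h
    exact ⟨φ w, rfl, φ w', rfl, h⟩

/-- the vertices of a walk form a connected set -/
theorem conn_list {V : Type} (G : SimpleGraph V) (l : List V) (hne : l ≠ []) (hl : l.IsChain G.Adj) :
    (G.induce {v | v ∈ l}).Connected := by
  induction l with
  | nil => exact absurd rfl hne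
  | cons a l ih =>
    rcases l with _ | ⟨b, l⟩
    · have h1 : {v | v ∈ [a]} = ({a} : Set V) := by
        ext v
        simp
      rw [h1]
      exact conn_single G a
    · rw [List.isChain_cons_cons] at hl
      have h2 := ih (by simp) hl.2
      have h3 : {v | v ∈ a :: b :: l} = ({a} : Set V) ∪ {v | v ∈ b :: l} := by
        ext v
        simp
      rw [h3]
      exact conn_union G (conn_single G a) h2 rfl (by simp) (Or.inr hl.1)

theorem Crit.minor {V N E : Type} [Fintype V] {M : Netw V N E} {G : SimpleGraph V} {n : ℕ} (hC : Crit M G n)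
    {V' N' E' : Type} [Fintype V'] (M' : Netw V' N' E') (G' : SimpleGraph V') (hG' : IsNet G' M')
    (hcard : Fintype.card V' < Fintype.card V) (hm : MinorOf G' G) : Col G' n :=
  hC.ih V' N' E' M' G' hG' hcard (fun h => hC.nominor (hasMinor_of_minorOf G' G hm (n + 1) h))

theorem Crit.sub {V N E : Type} [Fintype V] {M : Netw V N E} {G : SimpleGraph V} {n : ℕ} (hC : Crit M G n)
    (S : Set V) (hS : ∃ v, v ∉ S) : ∃ c : V → ℕ, ColOn G n S c := by
  classical
  obtain ⟨v0, hv0⟩ := hS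
  have hcard : Fintype.card {v // v ∈ S} < Fintype.card V :=
    Fintype.card_lt_of_injective_of_notMem (fun v : {v // v ∈ S} => v.1) Subtype.val_injective
      (b := v0) (by rintro ⟨v, hv⟩; exact hv0 (hv ▸ v.2))
  obtain ⟨c, hc1, hc2⟩ := hC.minor (M.comap (fun v : {v // v ∈ S} => v.1)) (G.comap (fun v : {v // v ∈ S} => v.1))
    (isNet_comap hC.net _ Subtype.val_injective) hcard (minorOf_comap G _ Subtype.val_injective)
  refine ⟨fun v => if h : v ∈ S then c ⟨v, h⟩ else 0, ?_, ?_⟩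
  · intro v hv
    simp only [dif_pos hv]
    exact hc1 _
  · intro u hu v hv huv
    simp only [dif_pos hu, dif_pos hv]
    exact hc2 ⟨u, hu⟩ ⟨v, hv⟩ huv

end Pool.Agent.Lib.MP_534936_co.Net
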