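import Pool.Agent.Lib.MP_534936_co.Net.Closure
import Pool.Agent.Lib.MP_534936_co.Net.Minor

/-!
# The closure of a strip is a minor (30 minutes)

`inl v` ↦ `{v}`, `inr i` ↦ `ψ i`. A vertex on `f` with `s = 0` contains `tl f`, with `t = len f` it contains `hd f`; two `ψ i` are adjacent through `tl f`.
-/

set_option autoImplicit false

namespace Pool.Agent.Lib.MP_534936_co.Net

open Pool.Agent.Lib.MP_534936_co

theorem clos_minor {V N E : Type} {M : Netw V N E} {G : SimpleGraph V} (hG : IsNet G M) (f : E) (w : ℕ)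
    (ψ : Fin w → Set V) (hc : ∀ i, (G.induce (ψ i)).Connected) (hd : ∀ i j, i ≠ j → Disjoint (ψ i) (ψ j))
    (hoff : ∀ i, ∀ v ∈ ψ i, M.rd v ≠ f) (htl : ∀ i, ∃ v ∈ ψ i, M.At v (M.tl f))
    (hhd : ∀ i, ∃ v ∈ ψ i, M.At v (M.hd f)) :
    MinorOf (closG (fun v : {v // M.rd v = f} => M.s v.1) (fun v : {v // M.rd v = f} => M.t v.1) (M.len f) w) G := by
  have hne : ∀ (u : {v // M.rd v = f}) (i : Fin w), ∀ v ∈ ψ i, u.1 ≠ v := by
    intro u i v hv h
    exact hoff i v hv (h ▸ u.2)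
  have key : ∀ (u : {v // M.rd v = f}) (i : Fin w), (M.s u.1 = 0 ∨ M.t u.1 = M.len f) →
      ∃ y ∈ ψ i, G.Adj u.1 y := by
    intro u i h
    rcases h with h | h
    · obtain ⟨v, hv, hv2⟩ := htl i
      exact ⟨v, hv, (hG u.1 v).2 ⟨hne u i v hv, Or.inr ⟨M.tl f, Or.inl ⟨h, by rw [u.2]⟩, hv2⟩⟩⟩
    · obtain ⟨v, hv, hv2⟩ := hhd i
      exact ⟨v, hv, (hG u.1 v).2 ⟨hne u i v hv, Or.inr ⟨M.hd f, Or.inr ⟨by rw [u.2]; exact h,
        by rw [u.2]⟩, hv2⟩⟩⟩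
  refine ⟨Sum.elim (fun u => {u.1}) ψ, ?_, ?_, ?_⟩
  · rintro (u | i)
    · show (G.induce ({u.1} : Set V)).Connected
      have : Nonempty ({u.1} : Set V) := ⟨⟨u.1, rfl⟩⟩
      refine SimpleGraph.Connected.mk fun a b => ?_
      have hab : a = b := Subtype.ext ((Set.mem_singleton_iff.1 a.2).trans
        (Set.mem_singleton_iff.1 b.2).symm)
      rw [hab]
    · exact hc i
  · rintro (u | i) (v | j) h
    · refine Set.disjoint_singleton.2 fun h' => h ?_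
      rw [Subtype.ext h']
    · exact Set.disjoint_singleton_left.2 fun h' => hne u j _ h' rfl
    · exact Set.disjoint_singleton_right.2 fun h' => hne v i _ h' rfl
    · exact hd i j fun h' => h (by rw [h'])
  · rintro (u | i) (v | j) h
    · obtain ⟨h1, h2, h3⟩ := h
      exact ⟨u.1, rfl, v.1, rfl, (hG _ _).2 ⟨fun h' => h1 (Subtype.ext h'),
        Or.inl ⟨u.2.trans v.2.symm, h2, h3⟩⟩⟩
    · obtain ⟨y, hy, hadj⟩ := key u j h
      exact ⟨u.1, rfl, y, hy, hadj⟩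
    · obtain ⟨y, hy, hadj⟩ := key v i h
      exact ⟨y, hy, v.1, rfl, hadj.symm⟩
    · obtain ⟨x, hx, hx2⟩ := htl i
      obtain ⟨y, hy, hy2⟩ := htl j
      refine ⟨x, hx, y, hy, (hG _ _).2 ⟨fun h' => ?_, Or.inr ⟨M.tl f, hx2, hy2⟩⟩⟩
      exact Set.disjoint_left.1 (hd i j h) hx (h' ▸ hy)

end Pool.Agent.Lib.MP_534936_co.Net
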