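import Pool.Agent.Lib.MP_534936_co.Net.Basic

/-!
# Closing a strip to a circle (60 minutes)

`stripG s t`: interval graph. `closG s t len w`: `w` new vertices, adjacent to each other and to all vertices containing the position `0` or `len`.
Circular-arc model of `closG`: `N = len + 3`; `inl v` starts at `s v` and has length `t v - s v`; `inr i` starts at `len` and has length `3` (it contains `len, len + 1, len + 2, 0`; `3 < N`).
`clos_nocol`: a colouring `c` of `closG` gives on the strip a colouring with `|c(A)| = |A|`, `|c(B)| = |B|` (cliques), and `w` colours not in `c(A) ∪ c(B)`: `|c(A) ∪ c(B)| ≤ n - w`, so the overlap is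
at least `|A| + |B| - (n - w) = j + 1`.
-/

set_option autoImplicit false

namespace Pool.Agent.Lib.MP_534936_co.Net

open Pool.Agent.Lib.MP_534936_co

def stripG {W : Type} (s t : W → ℕ) : SimpleGraph W where
  Adj u v := u ≠ v ∧ s u ≤ t v ∧ s v ≤ t u
  symm := ⟨fun _ _ h => ⟨h.1.symm, h.2.2, h.2.1⟩⟩
  loopless := ⟨fun _ h => h.1 rfl⟩

def closG {W : Type} (s t : W → ℕ) (len w : ℕ) : SimpleGraph (W ⊕ Fin w) where
  Adj u v :=
    match u, v with
    | Sum.inl u, Sum.inl v => u ≠ v ∧ s u ≤ t v ∧ s v ≤ t u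
    | Sum.inl u, Sum.inr _ => s u = 0 ∨ t u = len
    | Sum.inr _, Sum.inl v => s v = 0 ∨ t v = len
    | Sum.inr i, Sum.inr j => i ≠ j
  symm := ⟨by
    rintro (u | i) (v | j) h
    · exact ⟨h.1.symm, h.2.2, h.2.1⟩
    · exact h
    · exact h
    · exact Ne.symm h⟩
  loopless := ⟨by
    rintro (u | i) h
    · exact h.1 rfl
    · exact h rfl⟩

theorem Closure_mem {N a l p : ℤ} (hN : 0 < N) (hl : l < N) :
    (p - a) % N ≤ l ↔ ∃ x, 0 ≤ x ∧ x ≤ l ∧ ∃ k, p = a + x + N * k := by
  constructor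
  · intro h
    refine ⟨(p - a) % N, Int.emod_nonneg _ hN.ne', h, (p - a) / N, ?_⟩
    have := Int.emod_add_mul_ediv (p - a) N
    omega
  · rintro ⟨x, hx0, hx1, k, hk⟩
    have h1 : p - a = x + N * k := by omega
    rw [h1, Int.add_mul_emod_self_left, Int.emod_eq_of_lt hx0 (by omega)]
    exact hx1

theorem Closure_eq {N x y k m : ℤ} (hx0 : 0 ≤ x) (hx : x < N) (hy0 : 0 ≤ y) (hy : y < N)
    (h : x + N * k = y + N * m) : x = y := by
  have h1 : (x + N * k) % N = (y + N * m) % N := by rw [h]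
  rw [Int.add_mul_emod_self_left, Int.add_mul_emod_self_left, Int.emod_eq_of_lt hx0 hx,
    Int.emod_eq_of_lt hy0 hy] at h1
  exact h1

/-- the start of the arcs -/
def Closure_a {W : Type} (s : W → ℕ) (len w : ℕ) : W ⊕ Fin w → ℤ
  | Sum.inl v => (s v : ℤ)
  | Sum.inr _ => (len : ℤ)

/-- the lengths of the arcs -/
def Closure_l {W : Type} (s t : W → ℕ) (w : ℕ) : W ⊕ Fin w → ℤ
  | Sum.inl v => (t v : ℤ) - (s v : ℤ)
  | Sum.inr _ => 3

theorem clos_circ {W : Type} [Fintype W] (hT : Circ) (s t : W → ℕ) (len w : ℕ) (hlen : 0 < len)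
    (hst : ∀ v, s v ≤ t v) (ht : ∀ v, t v ≤ len) (n : ℕ) (hno : ¬ Col (closG s t len w) n) :
    HasMinor (closG s t len w) (n + 1) := by
  have hN : (0 : ℤ) < (len : ℤ) + 3 := by omega
  have hL : ∀ v : W ⊕ Fin w, 0 ≤ Closure_l s t w v ∧ Closure_l s t w v < (len : ℤ) + 3 := by
    rintro (v | i)
    · have h1 := hst v
      have h2 := ht v
      show 0 ≤ (t v : ℤ) - (s v : ℤ) ∧ (t v : ℤ) - (s v : ℤ) < (len : ℤ) + 3
      omega
    · show (0 : ℤ) ≤ 3 ∧ (3 : ℤ) < (len : ℤ) + 3
      omega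
  have hA : ∀ v : W ⊕ Fin w, 0 ≤ Closure_a s len w v ∧ Closure_a s len w v < (len : ℤ) + 3 := by
    rintro (v | i)
    · have h1 := hst v
      have h2 := ht v
      show 0 ≤ (s v : ℤ) ∧ (s v : ℤ) < (len : ℤ) + 3
      omega
    · show 0 ≤ (len : ℤ) ∧ (len : ℤ) < (len : ℤ) + 3
      omega
  have hmem : ∀ (v : W ⊕ Fin w) (p : ℤ), Mem ((len : ℤ) + 3) (Closure_a s len w) (Closure_l s t w) v p ↔
      ∃ x, 0 ≤ x ∧ x ≤ Closure_l s t w v ∧ ∃ k, p = Closure_a s len w v + x + ((len : ℤ) + 3) * k :=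
    fun v p => Closure_mem hN (hL v).2
  have hmix : ∀ (u : W) (i : Fin w), (s u = 0 ∨ t u = len) ↔
      ∃ p, Mem ((len : ℤ) + 3) (Closure_a s len w) (Closure_l s t w) (Sum.inl u) p ∧
        Mem ((len : ℤ) + 3) (Closure_a s len w) (Closure_l s t w) (Sum.inr i) p := by
    intro u i
    have h1 := hst u
    have h2 := ht u
    constructor
    · rintro (h | h)
      · refine ⟨0, (hmem _ _).2 ⟨0, le_refl _, ?_, 0, ?_⟩, (hmem _ _).2 ⟨3, by omega, ?_, -1, ?_⟩⟩
        · show (0 : ℤ) ≤ (t u : ℤ) - (s u : ℤ)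
          omega
        · show (0 : ℤ) = (s u : ℤ) + 0 + ((len : ℤ) + 3) * 0
          omega
        · show (3 : ℤ) ≤ 3
          omega
        · show (0 : ℤ) = (len : ℤ) + 3 + ((len : ℤ) + 3) * (-1)
          ring
      · refine ⟨(len : ℤ), (hmem _ _).2 ⟨(t u : ℤ) - (s u : ℤ), by omega, ?_, 0, ?_⟩,
          (hmem _ _).2 ⟨0, by omega, ?_, 0, ?_⟩⟩
        · show (t u : ℤ) - (s u : ℤ) ≤ (t u : ℤ) - (s u : ℤ)
          omega
        · show (len : ℤ) = (s u : ℤ) + ((t u : ℤ) - (s u : ℤ)) + ((len : ℤ) + 3) * 0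
          omega
        · show (0 : ℤ) ≤ 3
          omega
        · show (len : ℤ) = (len : ℤ) + 0 + ((len : ℤ) + 3) * 0
          omega
    · rintro ⟨p, hp1, hp2⟩
      obtain ⟨x, hx0, hx1, k, hk⟩ := (hmem _ _).1 hp1
      obtain ⟨y, hy0, hy1, m, hm⟩ := (hmem _ _).1 hp2
      have hx1' : x ≤ (t u : ℤ) - (s u : ℤ) := hx1
      have hk' : p = (s u : ℤ) + x + ((len : ℤ) + 3) * k := hk
      have hy1' : y ≤ 3 := hy1
      have hm' : p = (len : ℤ) + y + ((len : ℤ) + 3) * m := hm
      by_cases h3 : y = 3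
      · left
        have h4 : (s u : ℤ) + x + ((len : ℤ) + 3) * k = 0 + ((len : ℤ) + 3) * (m + 1) := by
          rw [← hk', hm', h3]
          ring
        have h5 := Closure_eq (by omega) (by omega) (le_refl _) hN h4
        omega
      · right
        have h4 : (s u : ℤ) + x + ((len : ℤ) + 3) * k = ((len : ℤ) + y) + ((len : ℤ) + 3) * m := by
          rw [← hk', hm']
        have h5 := Closure_eq (by omega) (by omega) (by omega) (by omega) h4
        omega
  apply hT (W ⊕ Fin w) ((len : ℤ) + 3) hN (Closure_a s len w) (Closure_l s t w) hA hL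
    (closG s t len w) ?_ n hno
  rintro (u | i) (v | j)
  · show (u ≠ v ∧ s u ≤ t v ∧ s v ≤ t u) ↔ _
    have h1 := hst u
    have h2 := ht u
    have h3 := hst v
    have h4 := ht v
    constructor
    · rintro ⟨h5, h6, h7⟩
      refine ⟨fun h => h5 (Sum.inl_injective h), ?_⟩
      refine ⟨max (s u : ℤ) (s v : ℤ), (hmem _ _).2 ⟨max (s u : ℤ) (s v : ℤ) - (s u : ℤ), by omega, ?_, 0, ?_⟩,
        (hmem _ _).2 ⟨max (s u : ℤ) (s v : ℤ) - (s v : ℤ), by omega, ?_, 0, ?_⟩⟩
      · show max (s u : ℤ) (s v : ℤ) - (s u : ℤ) ≤ (t u : ℤ) - (s u : ℤ)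
        omega
      · show max (s u : ℤ) (s v : ℤ) = (s u : ℤ) + (max (s u : ℤ) (s v : ℤ) - (s u : ℤ)) + ((len : ℤ) + 3) * 0
        omega
      · show max (s u : ℤ) (s v : ℤ) - (s v : ℤ) ≤ (t v : ℤ) - (s v : ℤ)
        omega
      · show max (s u : ℤ) (s v : ℤ) = (s v : ℤ) + (max (s u : ℤ) (s v : ℤ) - (s v : ℤ)) + ((len : ℤ) + 3) * 0
        omega
    · rintro ⟨h5, p, hp1, hp2⟩
      obtain ⟨x, hx0, hx1, k, hk⟩ := (hmem _ _).1 hp1
      obtain ⟨y, hy0, hy1, m, hm⟩ := (hmem _ _).1 hp2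
      have hx1' : x ≤ (t u : ℤ) - (s u : ℤ) := hx1
      have hk' : p = (s u : ℤ) + x + ((len : ℤ) + 3) * k := hk
      have hy1' : y ≤ (t v : ℤ) - (s v : ℤ) := hy1
      have hm' : p = (s v : ℤ) + y + ((len : ℤ) + 3) * m := hm
      have h6 : (s u : ℤ) + x + ((len : ℤ) + 3) * k = ((s v : ℤ) + y) + ((len : ℤ) + 3) * m := by
        rw [← hk', hm']
      have h7 := Closure_eq (by omega) (by omega) (by omega) (by omega) h6
      refine ⟨fun h => h5 (congrArg Sum.inl h), ?_, ?_⟩ <;> omega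
  · show (s u = 0 ∨ t u = len) ↔ _
    rw [hmix u j]
    constructor
    · intro h
      exact ⟨Sum.inl_ne_inr, h⟩
    · intro h
      exact h.2
  · show (s v = 0 ∨ t v = len) ↔ _
    rw [hmix v i]
    constructor
    · rintro ⟨p, h1, h2⟩
      exact ⟨Sum.inr_ne_inl, p, h2, h1⟩
    · rintro ⟨_, p, h1, h2⟩
      exact ⟨p, h2, h1⟩
  · show (i ≠ j) ↔ _
    constructor
    · intro h
      refine ⟨fun h1 => h (Sum.inr_injective h1), (len : ℤ), (hmem _ _).2 ⟨0, le_refl _, ?_, 0, ?_⟩,
        (hmem _ _).2 ⟨0, le_refl _, ?_, 0, ?_⟩⟩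
      · show (0 : ℤ) ≤ 3
        omega
      · show (len : ℤ) = (len : ℤ) + 0 + ((len : ℤ) + 3) * 0
        omega
      · show (0 : ℤ) ≤ 3
        omega
      · show (len : ℤ) = (len : ℤ) + 0 + ((len : ℤ) + 3) * 0
        omega
    · rintro ⟨h, _⟩ h1
      exact h (congrArg Sum.inr h1)

open Classical in
theorem clos_nocol {W : Type} [Fintype W] (s t : W → ℕ) (len w n j : ℕ) (hst : ∀ v, s v ≤ t v) (ht : ∀ v, t v ≤ len)
    (hw : n + j + 1 = w + (Finset.univ.filter (fun v : W => s v = 0)).card +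
      (Finset.univ.filter (fun v : W => t v = len)).card)
    (hj : ∀ c : W → ℕ, ColOn (stripG s t) n Set.univ c →
      ((Finset.univ.filter (fun v : W => s v = 0)).image c ∩
        (Finset.univ.filter (fun v : W => t v = len)).image c).card ≤ j) :
    ¬ Col (closG s t len w) n := by
  rintro ⟨c, hc1, hc2⟩
  have hcol : ColOn (stripG s t) n Set.univ (fun v => c (Sum.inl v)) :=
    ⟨fun v _ => hc1 _, fun u _ v _ huv => hc2 (Sum.inl u) (Sum.inl v) huv⟩
  have h1 := hj _ hcol
  have hA : ((Finset.univ.filter (fun v : W => s v = 0)).image (fun v => c (Sum.inl v))).card =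
      (Finset.univ.filter (fun v : W => s v = 0)).card := by
    apply Finset.card_image_of_injOn
    intro u hu v hv huv
    by_contra hne
    have hu' : s u = 0 := (Finset.mem_filter.1 (Finset.mem_coe.1 hu)).2
    have hv' : s v = 0 := (Finset.mem_filter.1 (Finset.mem_coe.1 hv)).2
    exact hc2 (Sum.inl u) (Sum.inl v) ⟨hne, by omega, by omega⟩ huv
  have hB : ((Finset.univ.filter (fun v : W => t v = len)).image (fun v => c (Sum.inl v))).card =
      (Finset.univ.filter (fun v : W => t v = len)).card := by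
    apply Finset.card_image_of_injOn
    intro u hu v hv huv
    by_contra hne
    have hu' : t u = len := (Finset.mem_filter.1 (Finset.mem_coe.1 hu)).2
    have hv' : t v = len := (Finset.mem_filter.1 (Finset.mem_coe.1 hv)).2
    have h5 := hst u
    have h6 := hst v
    exact hc2 (Sum.inl u) (Sum.inl v) ⟨hne, by omega, by omega⟩ huv
  have hR : ((Finset.univ : Finset (Fin w)).image (fun i => c (Sum.inr i))).card = w := by
    rw [Finset.card_image_of_injective, Finset.card_univ, Fintype.card_fin]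
    intro i k hik
    by_contra hne
    exact hc2 (Sum.inr i) (Sum.inr k) hne hik
  have hdis : Disjoint ((Finset.univ : Finset (Fin w)).image (fun i => c (Sum.inr i)))
      ((Finset.univ.filter (fun v : W => s v = 0)).image (fun v => c (Sum.inl v)) ∪
        (Finset.univ.filter (fun v : W => t v = len)).image (fun v => c (Sum.inl v))) := by
    rw [Finset.disjoint_left]
    intro x hx hx2
    obtain ⟨i, _, hi⟩ := Finset.mem_image.1 hx
    rcases Finset.mem_union.1 hx2 with h | h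
    · obtain ⟨v, hv, hv2⟩ := Finset.mem_image.1 h
      exact hc2 (Sum.inl v) (Sum.inr i) (Or.inl (Finset.mem_filter.1 hv).2) (by rw [hi]; exact hv2)
    · obtain ⟨v, hv, hv2⟩ := Finset.mem_image.1 h
      exact hc2 (Sum.inl v) (Sum.inr i) (Or.inr (Finset.mem_filter.1 hv).2) (by rw [hi]; exact hv2)
  have hsub : ((Finset.univ : Finset (Fin w)).image (fun i => c (Sum.inr i))) ∪
      ((Finset.univ.filter (fun v : W => s v = 0)).image (fun v => c (Sum.inl v)) ∪
        (Finset.univ.filter (fun v : W => t v = len)).image (fun v => c (Sum.inl v))) ⊆ Finset.range n := by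
    intro x hx
    rw [Finset.mem_range]
    rcases Finset.mem_union.1 hx with h | h
    · obtain ⟨i, _, hi⟩ := Finset.mem_image.1 h
      rw [← hi]
      exact hc1 _
    · rcases Finset.mem_union.1 h with h | h
      · obtain ⟨v, _, hv⟩ := Finset.mem_image.1 h
        rw [← hv]
        exact hc1 _
      · obtain ⟨v, _, hv⟩ := Finset.mem_image.1 h
        rw [← hv]
        exact hc1 _
  have hcard := Finset.card_le_card hsub
  rw [Finset.card_union_of_disjoint hdis, hR, Finset.card_range] at hcard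
  have hU := Finset.card_union_add_card_inter
    ((Finset.univ.filter (fun v : W => s v = 0)).image (fun v => c (Sum.inl v)))
    ((Finset.univ.filter (fun v : W => t v = len)).image (fun v => c (Sum.inl v)))
  rw [hA, hB] at hU
  omega

end Pool.Agent.Lib.MP_534936_co.Net
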