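import Pool.Agent.Lib.MP_534936_co.Net.Basic

/-!
# Contraction of a connected region to the node `y` (90 minutes)

`Rn x := ∃ v ∈ Y, M.At v x` (nodes of the region), `R f p := (∃ v ∈ Y, rd v = f ∧ s v ≤ p ∧ p ≤ t v) ∨ (p = 0 ∧ Rn (tl f)) ∨ (p = len f ∧ Rn (hd f))` (positions of the region),
`In f p := ∀ q ≤ p, R f q`, `Te f p := ∀ q, p ≤ q → q ≤ len f → R f q`.
(1) `R f p` and `p ≤ len f` imply `In f p ∨ Te f p`: `v ∈ Y` on `f` at `p`; `Y` is connected and contains a vertex at `y`; along a walk in `Y` from `v` to it the first vertex which is not on `f` or is at an end node of `f`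
 is reached through an end node of `f`, and the intervals before it cover all positions between `p` and this end.
(2) `u ∉ Y ∪ Z` meets no position `R` of its road (else it is adjacent to a vertex of `Y`), so it contains no node of the region.
(3) every `z ∈ Z` meets a position `R` of its road.
New network on `{v // v ∉ Y}`: same roads and lengths, `tl' f = if Rn (tl f) then y else tl f`, the same for `hd'`; `s' v = if In (rd v) (s v) then 0 else if Te (rd v) (s v) then len else s v`,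
`t' v = if Te (rd v) (t v) then len else if In (rd v) (t v) then 0 else t v`.
(4) every `z ∈ Z` contains `y` in the new network; for `u ∉ Y ∪ Z` nothing changes and `u` does not contain `y`; `z ∈ Z` and `u ∉ Y ∪ Z` meet in the new network iff they meet in the old one (they can only meet at a position
outside `R` or at a node outside the region).
-/

set_option autoImplicit false

namespace Pool.Agent.Lib.MP_534936_co.Net

open Pool.Agent.Lib.MP_534936_co

namespace Ctr

variable {V N E : Type}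

/-- nodes of the region -/
def Rn (M : Netw V N E) (Y : Set V) (x : N) : Prop := ∃ v ∈ Y, M.At v x

/-- positions of the region -/
def Rp (M : Netw V N E) (Y : Set V) (f : E) (p : ℕ) : Prop :=
  (∃ v ∈ Y, M.rd v = f ∧ M.s v ≤ p ∧ p ≤ M.t v) ∨ (p = 0 ∧ Rn M Y (M.tl f)) ∨
    (p = M.len f ∧ Rn M Y (M.hd f))

/-- all positions up to `p` are in the region -/
def Ini (M : Netw V N E) (Y : Set V) (f : E) (p : ℕ) : Prop := ∀ q, q ≤ p → Rp M Y f q

/-- all positions from `p` on are in the region -/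
def Ter (M : Netw V N E) (Y : Set V) (f : E) (p : ℕ) : Prop :=
  ∀ q, p ≤ q → q ≤ M.len f → Rp M Y f q

theorem rn_of_zero {M : Netw V N E} {Y : Set V} {f : E} (h : Rp M Y f 0) : Rn M Y (M.tl f) := by
  rcases h with ⟨v, hv, h1, h2, _⟩ | ⟨_, h⟩ | ⟨h, _⟩
  · refine ⟨v, hv, Or.inl ⟨by omega, ?_⟩⟩
    rw [h1]
  · exact h
  · have := M.len_pos f
    omega

theorem rn_of_len {M : Netw V N E} {Y : Set V} {f : E} (h : Rp M Y f (M.len f)) :
    Rn M Y (M.hd f) := by
  rcases h with ⟨v, hv, h1, _, h2⟩ | ⟨h, _⟩ | ⟨_, h⟩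
  · refine ⟨v, hv, Or.inr ⟨?_, ?_⟩⟩
    · have := M.tlen v
      rw [h1] at this ⊢
      omega
    · rw [h1]
  · have := M.len_pos f
    omega
  · exact h

theorem rp_zero {M : Netw V N E} {Y : Set V} {f : E} (h : Rn M Y (M.tl f)) : Rp M Y f 0 :=
  Or.inr (Or.inl ⟨rfl, h⟩)

theorem rp_len {M : Netw V N E} {Y : Set V} {f : E} (h : Rn M Y (M.hd f)) : Rp M Y f (M.len f) :=
  Or.inr (Or.inr ⟨rfl, h⟩)

theorem ini_mono {M : Netw V N E} {Y : Set V} {f : E} {p q : ℕ} (h : Ini M Y f p) (hq : q ≤ p) :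
    Ini M Y f q := fun x hx => h x (le_trans hx hq)

theorem ter_mono {M : Netw V N E} {Y : Set V} {f : E} {p q : ℕ} (h : Ter M Y f p) (hq : p ≤ q) :
    Ter M Y f q := fun x hx => h x (le_trans hq hx)

/-- a position of the region is reached from an end of the road -/
theorem ini_or_ter {M : Netw V N E} {G : SimpleGraph V} (hG : IsNet G M) {Y : Set V} {y : N}
    (hYc : (G.induce Y).Connected) (hy : ∃ v ∈ Y, M.At v y) {f : E} {p : ℕ} (hp : p ≤ M.len f)
    (h : Rp M Y f p) : Ini M Y f p ∨ Ter M Y f p := by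
  rcases h with ⟨v, hv, h1, h2, h3⟩ | ⟨h0, h⟩ | ⟨h0, h⟩
  · by_contra hcon
    rw [not_or] at hcon
    obtain ⟨hI, hT⟩ := hcon
    unfold Ini at hI
    unfold Ter at hT
    push Not at hI hT
    obtain ⟨q1, hq1, hR1⟩ := hI
    obtain ⟨q2, hq2, hq2l, hR2⟩ := hT
    -- the positions of a vertex of `Y` on `f` avoid `q1` and `q2`
    have hav : ∀ w ∈ Y, M.rd w = f → ∀ q, ¬ Rp M Y f q → ¬ (M.s w ≤ q ∧ q ≤ M.t w) := by
      intro w hw hf q hq hc
      exact hq (Or.inl ⟨w, hw, hf, hc.1, hc.2⟩)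
    have hC0 : M.rd v = f ∧ q1 < M.s v ∧ M.t v < q2 := by
      refine ⟨h1, ?_, ?_⟩
      · have := hav v hv h1 q1 hR1
        omega
      · have := hav v hv h1 q2 hR2
        omega
    have hnode : ∀ w, (M.rd w = f ∧ q1 < M.s w ∧ M.t w < q2) → ∀ x, ¬ M.At w x := by
      rintro w ⟨hw1, hw2, hw3⟩ x (⟨hx, _⟩ | ⟨hx, _⟩)
      · omega
      · rw [hw1] at hx
        omega
    have hstep : ∀ w w' : V, w ∈ Y → w' ∈ Y → G.Adj w w' →
        (M.rd w = f ∧ q1 < M.s w ∧ M.t w < q2) → (M.rd w' = f ∧ q1 < M.s w' ∧ M.t w' < q2) := by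
      intro w w' hw hw' hadj hc
      obtain ⟨_, hm⟩ := (hG w w').1 hadj
      rcases hm with ⟨hm1, hm2, hm3⟩ | ⟨x, hx, _⟩
      · obtain ⟨hc1, hc2, hc3⟩ := hc
        have hf : M.rd w' = f := by rw [← hm1, hc1]
        have e1 := hav w' hw' hf q1 hR1
        have e2 := hav w' hw' hf q2 hR2
        have e3 := M.st w'
        have e4 := M.st w
        refine ⟨hf, ?_, ?_⟩
        · omega
        · omega
      · exact absurd hx (hnode w hc x)
    obtain ⟨y0, hy0, hy1⟩ := hy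
    have hreach : (G.induce Y).Reachable ⟨v, hv⟩ ⟨y0, hy0⟩ := hYc.preconnected _ _
    obtain ⟨wk⟩ := hreach
    have hall : ∀ (a b : Y) (_ : (G.induce Y).Walk a b),
        (M.rd a.1 = f ∧ q1 < M.s a.1 ∧ M.t a.1 < q2) →
        (M.rd b.1 = f ∧ q1 < M.s b.1 ∧ M.t b.1 < q2) := by
      intro a b wk
      induction wk with
      | nil => exact fun h => h
      | cons hadj _ ih =>
        intro h
        refine ih ?_
        refine hstep _ _ ?_ ?_ (by simpa using hadj) h
        · exact Subtype.property _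
        · exact Subtype.property _
    exact hnode y0 (hall _ _ wk hC0) y hy1
  · left
    intro q hq
    have : q = 0 := by omega
    rw [this]
    exact rp_zero h
  · right
    intro q hq hq2
    have : q = M.len f := by omega
    rw [this]
    exact rp_len h

open Classical in
/-- the contracted network -/
noncomputable def nw (M : Netw V N E) (Y : Set V) (y : N) : Netw {v // v ∉ Y} N E where
  tl f := if Rn M Y (M.tl f) then y else M.tl f
  hd f := if Rn M Y (M.hd f) then y else M.hd f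
  len := M.len
  rd v := M.rd v.1
  s v := if Ini M Y (M.rd v.1) (M.s v.1) then 0
    else if Ter M Y (M.rd v.1) (M.s v.1) then M.len (M.rd v.1) else M.s v.1
  t v := if Ter M Y (M.rd v.1) (M.t v.1) then M.len (M.rd v.1)
    else if Ini M Y (M.rd v.1) (M.t v.1) then 0 else M.t v.1
  len_pos := M.len_pos
  st v := by
    have h1 := M.st v.1
    have h2 := M.tlen v.1
    by_cases hI : Ini M Y (M.rd v.1) (M.s v.1)
    · rw [if_pos hI]
      exact Nat.zero_le _
    · rw [if_neg hI]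
      by_cases hT : Ter M Y (M.rd v.1) (M.s v.1)
      · rw [if_pos hT, if_pos (ter_mono hT h1)]
      · rw [if_neg hT]
        by_cases hT2 : Ter M Y (M.rd v.1) (M.t v.1)
        · rw [if_pos hT2]
          exact le_trans h1 h2
        · rw [if_neg hT2, if_neg (fun h => hI (ini_mono h h1))]
          exact h1
  tlen v := by
    have h2 := M.tlen v.1
    by_cases hT2 : Ter M Y (M.rd v.1) (M.t v.1)
    · rw [if_pos hT2]
    · rw [if_neg hT2]
      by_cases hI : Ini M Y (M.rd v.1) (M.t v.1)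
      · rw [if_pos hI]
        exact Nat.zero_le _
      · rw [if_neg hI]
        exact h2

theorem s_cases (M : Netw V N E) (Y : Set V) (y : N) (v : {v // v ∉ Y}) :
    (Ini M Y (M.rd v.1) (M.s v.1) ∧ (nw M Y y).s v = 0) ∨
    (¬ Ini M Y (M.rd v.1) (M.s v.1) ∧ Ter M Y (M.rd v.1) (M.s v.1) ∧
      (nw M Y y).s v = M.len (M.rd v.1)) ∨
    (¬ Ini M Y (M.rd v.1) (M.s v.1) ∧ ¬ Ter M Y (M.rd v.1) (M.s v.1) ∧
      (nw M Y y).s v = M.s v.1) := by
  classical
  by_cases hI : Ini M Y (M.rd v.1) (M.s v.1)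
  · exact Or.inl ⟨hI, by simp only [nw]; rw [if_pos hI]⟩
  · by_cases hT : Ter M Y (M.rd v.1) (M.s v.1)
    · exact Or.inr (Or.inl ⟨hI, hT, by simp only [nw]; rw [if_neg hI, if_pos hT]⟩)
    · exact Or.inr (Or.inr ⟨hI, hT, by simp only [nw]; rw [if_neg hI, if_neg hT]⟩)

theorem t_cases (M : Netw V N E) (Y : Set V) (y : N) (v : {v // v ∉ Y}) :
    (Ter M Y (M.rd v.1) (M.t v.1) ∧ (nw M Y y).t v = M.len (M.rd v.1)) ∨
    (¬ Ter M Y (M.rd v.1) (M.t v.1) ∧ Ini M Y (M.rd v.1) (M.t v.1) ∧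
      (nw M Y y).t v = 0) ∨
    (¬ Ter M Y (M.rd v.1) (M.t v.1) ∧ ¬ Ini M Y (M.rd v.1) (M.t v.1) ∧
      (nw M Y y).t v = M.t v.1) := by
  classical
  by_cases hT : Ter M Y (M.rd v.1) (M.t v.1)
  · exact Or.inl ⟨hT, by simp only [nw]; rw [if_pos hT]⟩
  · by_cases hI : Ini M Y (M.rd v.1) (M.t v.1)
    · exact Or.inr (Or.inl ⟨hT, hI, by simp only [nw]; rw [if_neg hT, if_pos hI]⟩)
    · exact Or.inr (Or.inr ⟨hT, hI, by simp only [nw]; rw [if_neg hT, if_neg hI]⟩)

theorem tl_pos {M : Netw V N E} {Y : Set V} (y : N) {f : E} (h : Rn M Y (M.tl f)) :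
    (nw M Y y).tl f = y := by
  classical
  simp only [nw]
  rw [if_pos h]

theorem tl_neg {M : Netw V N E} {Y : Set V} (y : N) {f : E} (h : ¬ Rn M Y (M.tl f)) :
    (nw M Y y).tl f = M.tl f := by
  classical
  simp only [nw]
  rw [if_neg h]

theorem hd_pos {M : Netw V N E} {Y : Set V} (y : N) {f : E} (h : Rn M Y (M.hd f)) :
    (nw M Y y).hd f = y := by
  classical
  simp only [nw]
  rw [if_pos h]

theorem hd_neg {M : Netw V N E} {Y : Set V} (y : N) {f : E} (h : ¬ Rn M Y (M.hd f)) :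
    (nw M Y y).hd f = M.hd f := by
  classical
  simp only [nw]
  rw [if_neg h]

/-- nodes outside the region are contained in the same vertices as before -/
theorem at_iff (M : Netw V N E) (Y : Set V) (y : N) (hy : Rn M Y y) (v : {v // v ∉ Y}) (x : N)
    (hx : ¬ Rn M Y x) : (nw M Y y).At v x ↔ M.At v.1 x := by
  have hxy : x ≠ y := fun h => hx (h ▸ hy)
  have h1 := M.st v.1
  have h2 := M.tlen v.1
  have h3 := M.len_pos (M.rd v.1)
  constructor
  · rintro (⟨hs, hn⟩ | ⟨ht, hn⟩)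
    · have hn' : (nw M Y y).tl (M.rd v.1) = x := hn
      have hR : ¬ Rn M Y (M.tl (M.rd v.1)) := by
        intro h
        rw [tl_pos y h] at hn'
        exact hxy hn'.symm
      rw [tl_neg y hR] at hn'
      refine Or.inl ⟨?_, hn'⟩
      rcases s_cases M Y y v with ⟨hI, _⟩ | ⟨_, _, h⟩ | ⟨_, _, h⟩
      · exact absurd (rn_of_zero (hI 0 (Nat.zero_le _))) hR
      · omega
      · omega
    · have hn' : (nw M Y y).hd (M.rd v.1) = x := hn
      have ht' : (nw M Y y).t v = M.len (M.rd v.1) := ht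
      have hR : ¬ Rn M Y (M.hd (M.rd v.1)) := by
        intro h
        rw [hd_pos y h] at hn'
        exact hxy hn'.symm
      rw [hd_neg y hR] at hn'
      refine Or.inr ⟨?_, hn'⟩
      rcases t_cases M Y y v with ⟨hT, _⟩ | ⟨_, _, h⟩ | ⟨_, _, h⟩
      · exact absurd (rn_of_len (hT _ h2 le_rfl)) hR
      · omega
      · omega
  · rintro (⟨hs, hn⟩ | ⟨ht, hn⟩)
    · have hR : ¬ Rn M Y (M.tl (M.rd v.1)) := by rw [hn]; exact hx
      refine Or.inl ⟨?_, ?_⟩
      · rcases s_cases M Y y v with ⟨_, h⟩ | ⟨_, hT, _⟩ | ⟨_, _, h⟩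
        · exact h
        · exact absurd (rn_of_zero (hT 0 (by omega) (Nat.zero_le _))) hR
        · omega
      · change (nw M Y y).tl (M.rd v.1) = x
        rw [tl_neg y hR, hn]
    · have hR : ¬ Rn M Y (M.hd (M.rd v.1)) := by rw [hn]; exact hx
      refine Or.inr ⟨?_, ?_⟩
      · change (nw M Y y).t v = M.len (M.rd v.1)
        rcases t_cases M Y y v with ⟨_, h⟩ | ⟨_, hI, _⟩ | ⟨_, _, h⟩
        · exact h
        · exact absurd (rn_of_len (hI _ (by omega))) hR
        · omega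
      · change (nw M Y y).hd (M.rd v.1) = x
        rw [hd_neg y hR, hn]

end Ctr

open Ctr in
theorem contract {V N E : Type} (M : Netw V N E) (G : SimpleGraph V) (hG : IsNet G M) (Y Z : Set V) (y : N)
    (hYc : (G.induce Y).Connected) (hy : ∃ v ∈ Y, M.At v y) (hsep : ∀ u ∈ Y, ∀ w, G.Adj u w → w ∈ Y ∨ w ∈ Z)
    (hYZ : ∀ z ∈ Z, z ∉ Y) (hZ : ∀ z ∈ Z, M.At z y ∨ ∃ u ∈ Y, G.Adj z u) :
    ∃ M' : Netw {v // v ∉ Y} N E, IsNet ((addClique G Z).comap Subtype.val) M' := by
  have hRy : Rn M Y y := hy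
  -- vertices outside of `Y` and `Z` avoid the region
  have havoid : ∀ u : V, u ∉ Y → u ∉ Z → ∀ p, M.s u ≤ p → p ≤ M.t u → ¬ Rp M Y (M.rd u) p := by
    intro u huY huZ p hp1 hp2 hR
    have hno : ∀ v ∈ Y, ¬ M.Meet v u := by
      intro v hv hm
      have hne : v ≠ u := fun h => huY (h ▸ hv)
      rcases hsep v hv u ((hG v u).2 ⟨hne, hm⟩) with h | h
      · exact huY h
      · exact huZ h
    have h2 := M.tlen u
    rcases hR with ⟨v, hv, h3, h4, h5⟩ | ⟨h0, v, hv, hat⟩ | ⟨h0, v, hv, hat⟩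
    · exact hno v hv (Or.inl ⟨h3, by omega, by omega⟩)
    · exact hno v hv (Or.inr ⟨_, hat, Or.inl ⟨by omega, rfl⟩⟩)
    · exact hno v hv (Or.inr ⟨_, hat, Or.inr ⟨by omega, rfl⟩⟩)
  have hnoR : ∀ u : V, u ∉ Y → u ∉ Z → ∀ x, M.At u x → ¬ Rn M Y x := by
    intro u huY huZ x hx hR
    rcases hx with ⟨h1, h2⟩ | ⟨h1, h2⟩
    · refine havoid u huY huZ 0 (by omega) (Nat.zero_le _) (rp_zero ?_)
      rw [h2]
      exact hR
    · have h3 := M.st u
      refine havoid u huY huZ (M.len (M.rd u)) (by omega) (by omega) (rp_len ?_)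
      rw [h2]
      exact hR
  -- the vertices of `Z` contain the new node
  have hZat : ∀ z : {v // v ∉ Y}, z.1 ∈ Z → (nw M Y y).At z y := by
    intro z hz
    have hp : ∃ p, M.s z.1 ≤ p ∧ p ≤ M.t z.1 ∧ Rp M Y (M.rd z.1) p := by
      have h1 := M.st z.1
      have hnode : ∀ x, Rn M Y x → M.At z.1 x →
          ∃ p, M.s z.1 ≤ p ∧ p ≤ M.t z.1 ∧ Rp M Y (M.rd z.1) p := by
        rintro x hx (⟨h2, h3⟩ | ⟨h2, h3⟩)
        · exact ⟨0, by omega, Nat.zero_le _, rp_zero (h3 ▸ hx)⟩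
        · exact ⟨M.len (M.rd z.1), by omega, by omega, rp_len (h3 ▸ hx)⟩
      rcases hZ z.1 hz with h | ⟨u, hu, hadj⟩
      · exact hnode y hRy h
      · obtain ⟨_, hm⟩ := (hG z.1 u).1 hadj
        rcases hm with ⟨hm1, hm2, hm3⟩ | ⟨x, hx1, hx2⟩
        · have h4 := M.st u
          refine ⟨max (M.s z.1) (M.s u), le_max_left _ _, by omega, Or.inl ⟨u, hu, hm1.symm, ?_, ?_⟩⟩
          · exact le_max_right _ _
          · omega
        · exact hnode x ⟨u, hu, hx2⟩ hx1
    obtain ⟨p, hp1, hp2, hp3⟩ := hp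
    have h2 := M.tlen z.1
    rcases ini_or_ter hG hYc hy (by omega) hp3 with h | h
    · have hI : Ini M Y (M.rd z.1) (M.s z.1) := ini_mono h hp1
      refine Or.inl ⟨?_, ?_⟩
      · rcases s_cases M Y y z with ⟨_, h⟩ | ⟨h, _⟩ | ⟨h, _⟩
        · exact h
        · exact absurd hI h
        · exact absurd hI h
      · exact tl_pos y (rn_of_zero (hI 0 (Nat.zero_le _)))
    · have hT : Ter M Y (M.rd z.1) (M.t z.1) := ter_mono h hp2
      refine Or.inr ⟨?_, ?_⟩
      · change (nw M Y y).t z = M.len (M.rd z.1)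
        rcases t_cases M Y y z with ⟨_, h⟩ | ⟨h, _⟩ | ⟨h, _⟩
        · exact h
        · exact absurd hT h
        · exact absurd hT h
      · exact hd_pos y (rn_of_len (hT _ h2 le_rfl))
  -- nothing changes for a vertex outside
  have hst : ∀ v : {v // v ∉ Y}, v.1 ∉ Z →
      (nw M Y y).s v = M.s v.1 ∧ (nw M Y y).t v = M.t v.1 := by
    intro v hv
    have h1 := M.st v.1
    have h2 := M.tlen v.1
    have hs := havoid v.1 v.2 hv (M.s v.1) le_rfl h1
    have ht := havoid v.1 v.2 hv (M.t v.1) h1 le_rfl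
    constructor
    · rcases s_cases M Y y v with ⟨h, _⟩ | ⟨_, h, _⟩ | ⟨_, _, h⟩
      · exact absurd (h _ le_rfl) hs
      · exact absurd (h _ le_rfl (by omega)) hs
      · exact h
    · rcases t_cases M Y y v with ⟨h, _⟩ | ⟨_, h, _⟩ | ⟨_, _, h⟩
      · exact absurd (h _ le_rfl h2) ht
      · exact absurd (h _ le_rfl) ht
      · exact h
  have hnoy : ∀ v : {v // v ∉ Y}, v.1 ∉ Z → ∀ x, (nw M Y y).At v x → ¬ Rn M Y x := by
    intro v hv x hx hR
    obtain ⟨hs, ht⟩ := hst v hv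
    rcases hx with ⟨h1, h2⟩ | ⟨h1, h2⟩
    · have h1' : (nw M Y y).s v = 0 := h1
      have hat : M.At v.1 (M.tl (M.rd v.1)) := Or.inl ⟨by omega, rfl⟩
      have hn := hnoR v.1 v.2 hv _ hat
      have h2' : (nw M Y y).tl (M.rd v.1) = x := h2
      rw [tl_neg y hn] at h2'
      rw [h2'] at hn
      exact hn hR
    · have h1' : (nw M Y y).t v = M.len (M.rd v.1) := h1
      have hat : M.At v.1 (M.hd (M.rd v.1)) := Or.inr ⟨by omega, rfl⟩
      have hn := hnoR v.1 v.2 hv _ hat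
      have h2' : (nw M Y y).hd (M.rd v.1) = x := h2
      rw [hd_neg y hn] at h2'
      rw [h2'] at hn
      exact hn hR
  have hmeet : ∀ u v : {v // v ∉ Y}, v.1 ∉ Z → ((nw M Y y).Meet u v ↔ M.Meet u.1 v.1) := by
    intro u v hv
    obtain ⟨hs, ht⟩ := hst v hv
    have hav := havoid v.1 v.2 hv
    have u1 := M.st u.1
    have u2 := M.tlen u.1
    have v1 := M.st v.1
    have v2 := M.tlen v.1
    constructor
    · rintro (⟨hf, h3, h4⟩ | ⟨x, hx1, hx2⟩)
      · have hf' : M.rd u.1 = M.rd v.1 := hf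
        rw [← hf'] at hav v2
        rw [ht] at h3
        rw [hs] at h4
        refine Or.inl ⟨hf', ?_, ?_⟩
        · rcases s_cases M Y y u with ⟨hI, _⟩ | ⟨_, hT, h⟩ | ⟨_, _, h⟩
          · by_contra hc
            exact hav (M.s v.1) le_rfl v1 (hI _ (by omega))
          · exfalso
            exact hav (M.t v.1) v1 le_rfl (hT _ (by omega) v2)
          · omega
        · rcases t_cases M Y y u with ⟨hT, _⟩ | ⟨_, hI, h⟩ | ⟨_, _, h⟩
          · by_contra hc
            exact hav (M.t v.1) v1 le_rfl (hT _ (by omega) v2)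
          · exfalso
            exact hav (M.s v.1) le_rfl v1 (hI _ (by omega))
          · omega
      · have hxR := hnoy v hv x hx2
        exact Or.inr ⟨x, (at_iff M Y y hRy u x hxR).1 hx1, (at_iff M Y y hRy v x hxR).1 hx2⟩
    · rintro (⟨hf, h3, h4⟩ | ⟨x, hx1, hx2⟩)
      · rw [← hf] at hav v2
        refine Or.inl ⟨hf, ?_, ?_⟩
        · rw [ht]
          rcases s_cases M Y y u with ⟨_, h⟩ | ⟨_, hT, _⟩ | ⟨_, _, h⟩
          · omega
          · exfalso
            exact hav (M.t v.1) v1 le_rfl (hT _ h3 v2)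
          · omega
        · rw [hs]
          rcases t_cases M Y y u with ⟨_, h⟩ | ⟨_, hI, _⟩ | ⟨_, _, h⟩
          · omega
          · exfalso
            exact hav (M.s v.1) le_rfl v1 (hI _ h4)
          · omega
      · have hxR := hnoR v.1 v.2 hv x hx2
        exact Or.inr ⟨x, (at_iff M Y y hRy u x hxR).2 hx1, (at_iff M Y y hRy v x hxR).2 hx2⟩
  have hsymm : ∀ (a b : {v // v ∉ Y}), (nw M Y y).Meet a b → (nw M Y y).Meet b a := by
    rintro a b (⟨h1, h2, h3⟩ | ⟨x, h1, h2⟩)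
    · exact Or.inl ⟨h1.symm, h3, h2⟩
    · exact Or.inr ⟨x, h2, h1⟩
  have hsymm' : ∀ (a b : V), M.Meet a b → M.Meet b a := by
    rintro a b (⟨h1, h2, h3⟩ | ⟨x, h1, h2⟩)
    · exact Or.inl ⟨h1.symm, h3, h2⟩
    · exact Or.inr ⟨x, h2, h1⟩
  refine ⟨nw M Y y, ?_⟩
  intro u v
  rw [SimpleGraph.comap_adj]
  change (u.1 ≠ v.1 ∧ (G.Adj u.1 v.1 ∨ (u.1 ∈ Z ∧ v.1 ∈ Z))) ↔ _
  have hne : u.1 ≠ v.1 ↔ u ≠ v := by
    rw [not_iff_not]
    exact ⟨fun h => Subtype.ext h, fun h => congrArg Subtype.val h⟩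
  rw [hne]
  refine and_congr_right (fun huv => ?_)
  have huv' : u.1 ≠ v.1 := hne.2 huv
  have hGuv : G.Adj u.1 v.1 ↔ M.Meet u.1 v.1 := by
    rw [hG u.1 v.1]
    exact ⟨fun h => h.2, fun h => ⟨huv', h⟩⟩
  by_cases hvZ : v.1 ∈ Z
  · by_cases huZ : u.1 ∈ Z
    · constructor
      · intro _
        exact Or.inr ⟨y, hZat u huZ, hZat v hvZ⟩
      · intro _
        exact Or.inr ⟨huZ, hvZ⟩
    · have h1 := hmeet v u huZ
      constructor
      · rintro (h | ⟨h, _⟩)
        · exact hsymm _ _ (h1.2 (hsymm' _ _ (hGuv.1 h)))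
        · exact absurd h huZ
      · intro h
        exact Or.inl (hGuv.2 (hsymm' _ _ (h1.1 (hsymm _ _ h))))
  · have h1 := hmeet u v hvZ
    constructor
    · rintro (h | ⟨_, h⟩)
      · exact h1.2 (hGuv.1 h)
      · exact absurd h hvZ
    · intro h
      exact Or.inl (hGuv.2 (h1.1 h))

end Pool.Agent.Lib.MP_534936_co.Net
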