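import Pool.Agent.Lib.MP_534936_co.Net.Basic

/-!
# Gluing two colourings along a clique; permuting colours (40 minutes)

`exists_perm`: `f`, `g` injective on the finite set `Z` with values `< n`: a permutation `σ` of the numbers which maps `{0, …, n-1}` to itself and `g z` to `f z` (extend the bijection `g '' Z → f '' Z` to
`range n`, identity elsewhere). `exists_perm2`: the same for two pairs of finite sets (`A, B` and `X, Y` inside `range n`, `|A| = |X|`, `|B| = |Y|`, `|A ∩ B| = |X ∩ Y|`): map `A ∩ B`, `A \ B`, `B \ A` and the rest.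
`glue`: take `c1` outside `Y` and `σ ∘ c2` on `Y`, where `σ (c2 z) = c1 z` for `z ∈ Z`.
-/

set_option autoImplicit false

namespace Pool.Agent.Lib.MP_534936_co.Net

open Pool.Agent.Lib.MP_534936_co

theorem exists_perm {V : Type} (n : ℕ) (Z : Finset V) (f g : V → ℕ) (hf : ∀ z ∈ Z, f z < n) (hg : ∀ z ∈ Z, g z < n)
    (hf' : ∀ z ∈ Z, ∀ z' ∈ Z, z ≠ z' → f z ≠ f z') (hg' : ∀ z ∈ Z, ∀ z' ∈ Z, z ≠ z' → g z ≠ g z') :
    ∃ σ : Equiv.Perm ℕ, (∀ i, i < n → σ i < n) ∧ ∀ z ∈ Z, σ (g z) = f z := by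
  classical
  have e1 : ∀ (k : V → ℕ) (hk : ∀ z ∈ Z, k z < n) (_ : ∀ z ∈ Z, ∀ z' ∈ Z, z ≠ z' → k z ≠ k z'),
      ∃ e : {z // z ∈ Z} ≃ {x : Fin n // ∃ z ∈ Z, k z = (x : ℕ)}, ∀ z : {z // z ∈ Z}, ((e z : Fin n) : ℕ) = k z.1 := by
    intro k hk hk'
    let F : {z // z ∈ Z} → {x : Fin n // ∃ z ∈ Z, k z = (x : ℕ)} := fun z => ⟨⟨k z.1, hk z.1 z.2⟩, z.1, z.2, rfl⟩
    have hF : Function.Bijective F := by
      constructor
      · intro z z' h
        have h1 : k z.1 = k z'.1 := congrArg (fun x : {x : Fin n // ∃ z ∈ Z, k z = (x : ℕ)} => ((x.1 : Fin n) : ℕ)) h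
        by_contra hne
        exact hk' z.1 z.2 z'.1 z'.2 (fun h2 => hne (Subtype.ext h2)) h1
      · rintro ⟨x, z, hz, hx⟩
        exact ⟨⟨z, hz⟩, Subtype.ext (Fin.ext hx)⟩
    exact ⟨Equiv.ofBijective F hF, fun z => rfl⟩
  obtain ⟨eg, heg⟩ := e1 g hg hg'
  obtain ⟨ef, hef⟩ := e1 f hf hf'
  let e := eg.symm.trans ef
  let s0 : Equiv.Perm (Fin n) := e.extendSubtype
  have hs0 : ∀ z (hz : z ∈ Z), ((s0 ⟨g z, hg z hz⟩ : Fin n) : ℕ) = f z := by
    intro z hz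
    have h1 : s0 ⟨g z, hg z hz⟩ = e ⟨⟨g z, hg z hz⟩, z, hz, rfl⟩ :=
      Equiv.extendSubtype_apply_of_mem e ⟨g z, hg z hz⟩ ⟨z, hz, rfl⟩
    have h2 : (⟨⟨g z, hg z hz⟩, z, hz, rfl⟩ : {x : Fin n // ∃ z ∈ Z, g z = (x : ℕ)}) = eg ⟨z, hz⟩ :=
      Subtype.ext (Fin.ext (heg ⟨z, hz⟩).symm)
    rw [h1, h2]
    show ((ef (eg.symm (eg ⟨z, hz⟩)) : Fin n) : ℕ) = f z
    rw [Equiv.symm_apply_apply]
    exact hef ⟨z, hz⟩
  refine ⟨s0.extendDomain (Fin.equivSubtype (n := n)), ?_, ?_⟩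
  · intro i hi
    have h1 := Equiv.Perm.extendDomain_apply_subtype s0 (Fin.equivSubtype (n := n)) hi
    rw [h1]
    exact ((Fin.equivSubtype (n := n)) (s0 ((Fin.equivSubtype (n := n)).symm ⟨i, hi⟩))).2
  · intro z hz
    have h1 := Equiv.Perm.extendDomain_apply_subtype s0 (Fin.equivSubtype (n := n)) (hg z hz)
    rw [h1]
    exact hs0 z hz

theorem exists_perm2 (n : ℕ) (A B X Y : Finset ℕ) (hA : A ⊆ Finset.range n) (hB : B ⊆ Finset.range n)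
    (hX : X ⊆ Finset.range n) (hY : Y ⊆ Finset.range n) (h1 : A.card = X.card) (h2 : B.card = Y.card)
    (h3 : (A ∩ B).card = (X ∩ Y).card) :
    ∃ σ : Equiv.Perm ℕ, (∀ i, i < n → σ i < n) ∧ (∀ i ∈ A, σ i ∈ X) ∧ ∀ i ∈ B, σ i ∈ Y := by
  classical
  have k1 : (A \ B).card = (X \ Y).card := by
    have h4 := Finset.card_sdiff_add_card_inter A B
    have h5 := Finset.card_sdiff_add_card_inter X Y
    omega
  have k2 : (B \ A).card = (Y \ X).card := by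
    have h4 := Finset.card_sdiff_add_card_inter B A
    have h5 := Finset.card_sdiff_add_card_inter Y X
    rw [Finset.inter_comm] at h4 h5
    omega
  let e1 : {i // i ∈ A ∩ B} ≃ {i // i ∈ X ∩ Y} := Finset.equivOfCardEq h3
  let e2 : {i // i ∈ A \ B} ≃ {i // i ∈ X \ Y} := Finset.equivOfCardEq k1
  let e3 : {i // i ∈ B \ A} ≃ {i // i ∈ Y \ X} := Finset.equivOfCardEq k2
  let f : ℕ → ℕ := fun i => if h : i ∈ A ∩ B then (e1 ⟨i, h⟩ : ℕ) else if h' : i ∈ A \ B then (e2 ⟨i, h'⟩ : ℕ) else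
    if h'' : i ∈ B \ A then (e3 ⟨i, h''⟩ : ℕ) else i
  have f1 : ∀ i (h : i ∈ A ∩ B), f i = (e1 ⟨i, h⟩ : ℕ) := fun i h => dif_pos h
  have f2 : ∀ i (h : i ∈ A \ B), f i = (e2 ⟨i, h⟩ : ℕ) := by
    intro i h
    have h' : i ∉ A ∩ B := fun h' => (Finset.mem_sdiff.1 h).2 (Finset.mem_inter.1 h').2
    exact (dif_neg h').trans (dif_pos h)
  have f3 : ∀ i (h : i ∈ B \ A), f i = (e3 ⟨i, h⟩ : ℕ) := by
    intro i h
    have h' : i ∉ A ∩ B := fun h' => (Finset.mem_sdiff.1 h).2 (Finset.mem_inter.1 h').1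
    have h'' : i ∉ A \ B := fun h'' => (Finset.mem_sdiff.1 h).2 (Finset.mem_sdiff.1 h'').1
    exact (dif_neg h').trans ((dif_neg h'').trans (dif_pos h))
  have g1 : ∀ i, i ∈ A ∩ B → f i ∈ X ∩ Y := fun i h => by rw [f1 i h]; exact (e1 ⟨i, h⟩).2
  have g2 : ∀ i, i ∈ A \ B → f i ∈ X \ Y := fun i h => by rw [f2 i h]; exact (e2 ⟨i, h⟩).2
  have g3 : ∀ i, i ∈ B \ A → f i ∈ Y \ X := fun i h => by rw [f3 i h]; exact (e3 ⟨i, h⟩).2
  have cases3 : ∀ i, i ∈ A ∪ B → i ∈ A ∩ B ∨ i ∈ A \ B ∨ i ∈ B \ A := by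
    intro i hi
    rw [Finset.mem_inter, Finset.mem_sdiff, Finset.mem_sdiff]
    rcases Finset.mem_union.1 hi with h | h
    · by_cases h' : i ∈ B
      · exact Or.inl ⟨h, h'⟩
      · exact Or.inr (Or.inl ⟨h, h'⟩)
    · by_cases h' : i ∈ A
      · exact Or.inl ⟨h', h⟩
      · exact Or.inr (Or.inr ⟨h, h'⟩)
  have inj1 : ∀ i j, i ∈ A ∩ B → j ∈ A ∩ B → f i = f j → i = j := by
    intro i j hi hj h
    rw [f1 i hi, f1 j hj] at h
    exact congrArg Subtype.val (e1.injective (Subtype.ext h))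
  have inj2 : ∀ i j, i ∈ A \ B → j ∈ A \ B → f i = f j → i = j := by
    intro i j hi hj h
    rw [f2 i hi, f2 j hj] at h
    exact congrArg Subtype.val (e2.injective (Subtype.ext h))
  have inj3 : ∀ i j, i ∈ B \ A → j ∈ B \ A → f i = f j → i = j := by
    intro i j hi hj h
    rw [f3 i hi, f3 j hj] at h
    exact congrArg Subtype.val (e3.injective (Subtype.ext h))
  have inj : ∀ i ∈ A ∪ B, ∀ j ∈ A ∪ B, i ≠ j → f i ≠ f j := by
    intro i hi j hj hne h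
    apply hne
    rcases cases3 i hi with hi | hi | hi <;> rcases cases3 j hj with hj | hj | hj
    · exact inj1 i j hi hj h
    · exact absurd (Finset.mem_inter.1 (h ▸ g1 i hi : f j ∈ X ∩ Y)).2 (Finset.mem_sdiff.1 (g2 j hj)).2
    · exact absurd (Finset.mem_inter.1 (h ▸ g1 i hi : f j ∈ X ∩ Y)).1 (Finset.mem_sdiff.1 (g3 j hj)).2
    · exact absurd (Finset.mem_inter.1 (h.symm ▸ g1 j hj : f i ∈ X ∩ Y)).2 (Finset.mem_sdiff.1 (g2 i hi)).2
    · exact inj2 i j hi hj h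
    · exact absurd (Finset.mem_sdiff.1 (h ▸ g2 i hi : f j ∈ X \ Y)).1 (Finset.mem_sdiff.1 (g3 j hj)).2
    · exact absurd (Finset.mem_inter.1 (h.symm ▸ g1 j hj : f i ∈ X ∩ Y)).1 (Finset.mem_sdiff.1 (g3 i hi)).2
    · exact absurd (Finset.mem_sdiff.1 (h.symm ▸ g2 j hj : f i ∈ X \ Y)).1 (Finset.mem_sdiff.1 (g3 i hi)).2
    · exact inj3 i j hi hj h
  have memX : ∀ i ∈ A, f i ∈ X := by
    intro i hi
    by_cases h' : i ∈ B
    · exact (Finset.mem_inter.1 (g1 i (Finset.mem_inter.2 ⟨hi, h'⟩))).1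
    · exact (Finset.mem_sdiff.1 (g2 i (Finset.mem_sdiff.2 ⟨hi, h'⟩))).1
  have memY : ∀ i ∈ B, f i ∈ Y := by
    intro i hi
    by_cases h' : i ∈ A
    · exact (Finset.mem_inter.1 (g1 i (Finset.mem_inter.2 ⟨h', hi⟩))).2
    · exact (Finset.mem_sdiff.1 (g3 i (Finset.mem_sdiff.2 ⟨hi, h'⟩))).1
  have ltf : ∀ i ∈ A ∪ B, f i < n := by
    intro i hi
    rcases Finset.mem_union.1 hi with h | h
    · exact Finset.mem_range.1 (hX (memX i h))
    · exact Finset.mem_range.1 (hY (memY i h))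
  have ltg : ∀ i ∈ A ∪ B, id i < n := by
    intro i hi
    rcases Finset.mem_union.1 hi with h | h
    · exact Finset.mem_range.1 (hA h)
    · exact Finset.mem_range.1 (hB h)
  obtain ⟨σ, hσ1, hσ2⟩ := exists_perm n (A ∪ B) f id ltf ltg inj (fun i _ j _ hne h => hne h)
  refine ⟨σ, hσ1, ?_, ?_⟩
  · intro i hi
    have h := hσ2 i (Finset.mem_union_left _ hi)
    rw [id_eq] at h
    rw [h]
    exact memX i hi
  · intro i hi
    have h := hσ2 i (Finset.mem_union_right _ hi)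
    rw [id_eq] at h
    rw [h]
    exact memY i hi

theorem glue {V : Type} (G : SimpleGraph V) (n : ℕ) (Y : Set V) (Z : Finset V) (hYZ : ∀ z ∈ Z, z ∉ Y)
    (hsep : ∀ u ∈ Y, ∀ w, G.Adj u w → w ∈ Y ∨ w ∈ Z) (c1 c2 : V → ℕ) (h1 : ColOn G n {u | u ∉ Y} c1)
    (h1' : ∀ z ∈ Z, ∀ z' ∈ Z, z ≠ z' → c1 z ≠ c1 z') (h2 : ColOn G n {u | u ∈ Y ∨ u ∈ Z} c2)
    (h2' : ∀ z ∈ Z, ∀ z' ∈ Z, z ≠ z' → c2 z ≠ c2 z') : Col G n := by
  classical
  obtain ⟨σ, hσ1, hσ2⟩ := exists_perm n Z c1 c2 (fun z hz => h1.1 z (hYZ z hz)) (fun z hz => h2.1 z (Or.inr hz)) h1' h2'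
  have cross : ∀ u v, u ∈ Y → v ∉ Y → G.Adj u v → σ (c2 u) ≠ c1 v := by
    intro u v hu hv huv
    have hvZ : v ∈ Z := (hsep u hu v huv).resolve_left hv
    rw [← hσ2 v hvZ]
    intro h
    exact h2.2 u (Or.inl hu) v (Or.inr hvZ) huv (σ.injective h)
  refine ⟨fun v => if v ∈ Y then σ (c2 v) else c1 v, ?_, ?_⟩
  · intro v
    by_cases hv : v ∈ Y
    · show (if v ∈ Y then σ (c2 v) else c1 v) < n
      rw [if_pos hv]
      exact hσ1 _ (h2.1 v (Or.inl hv))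
    · show (if v ∈ Y then σ (c2 v) else c1 v) < n
      rw [if_neg hv]
      exact h1.1 v hv
  · intro u v huv
    show (if u ∈ Y then σ (c2 u) else c1 u) ≠ (if v ∈ Y then σ (c2 v) else c1 v)
    by_cases hu : u ∈ Y <;> by_cases hv : v ∈ Y
    · rw [if_pos hu, if_pos hv]
      intro h
      exact h2.2 u (Or.inl hu) v (Or.inl hv) huv (σ.injective h)
    · rw [if_pos hu, if_neg hv]
      exact cross u v hu hv huv
    · rw [if_neg hu, if_pos hv]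
      exact (cross v u hv hu huv.symm).symm
    · rw [if_neg hu, if_neg hv]
      exact h1.2 u hu v hv huv

end Pool.Agent.Lib.MP_534936_co.Net
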