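import Pool.Agent.Lib.MP_534936_co.Net.CutPieces
import Pool.Agent.Lib.MP_534936_co.Net.Contract
import Pool.Agent.Lib.MP_534936_co.Net.Glue

/-!
# The cut lemma (60 minutes)

If not: `cut_pieces` with `A = K x`, `B = K y` gives `Z`, `X`, `Y`. `contract` with `Y`, `y`: network for `G1 = (addClique G Z).comap` on `{v // v ∉ Y}` (every `z ∈ Z` is at `y` or has a neighbour in `Y`: `Q z` is connected and contains
a vertex of `K y`). `G1` is a minor of `G`: `z ↦ Q z`, other vertices ↦ singletons (two `Q z` contain vertices of `K y`: adjacent). It has fewer vertices (`Y ≠ ∅`), so by `Crit.minor` it is `n`-colourable. Same with `X`, `x` and restriction to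
`{v // v ∈ Y ∨ v ∈ Z}` (`isNet_comap`). `glue`.
-/

set_option autoImplicit false

namespace Pool.Agent.Lib.MP_534936_co.Net

open Pool.Agent.Lib.MP_534936_co

theorem cutLemma_single {V : Type} (G : SimpleGraph V) (v : V) : (G.induce ({v} : Set V)).Connected := by
  have : Subsingleton ↥({v} : Set V) := ⟨fun a b => Subtype.ext ((show a.1 = v from a.2).trans (show b.1 = v from b.2).symm)⟩
  have : Nonempty ↥({v} : Set V) := ⟨⟨v, rfl⟩⟩
  exact ⟨fun a b => by rw [Subsingleton.elim a b]⟩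

theorem cutLemma_nbr {V : Type} (G : SimpleGraph V) (S : Set V) (hS : (G.induce S).Connected) (z b : V)
    (hz : z ∈ S) (hb : b ∈ S) (hne : z ≠ b) : ∃ u ∈ S, G.Adj z u := by
  obtain ⟨w⟩ := hS.preconnected ⟨z, hz⟩ ⟨b, hb⟩
  cases w with
  | nil => exact absurd rfl hne
  | @cons _ v _ h _ => exact ⟨v.1, v.2, h⟩

/-- one side of the cut: the region `Y` is contracted to `y` -/
theorem cutLemma_side {V N E : Type} [Fintype V] {M : Netw V N E} {G : SimpleGraph V} {n : ℕ} (hC : Crit M G n)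
    (y : N) (Z : Finset V) (Y : Set V) (hZY : ∀ z ∈ Z, z ∉ Y) (hyY : ∃ b ∈ M.K y, b ∈ Y)
    (hYc : (G.induce Y).Connected) (hsep : ∀ u ∈ Y, ∀ w, G.Adj u w → w ∈ Y ∨ w ∈ Z)
    (Q : V → Set V) (hQ : ∀ z ∈ Z, z ∈ Q z ∧ (∀ v ∈ Q z, v = z ∨ v ∈ Y) ∧ (G.induce (Q z)).Connected ∧
        ∃ b ∈ M.K y, b ∈ Q z) (hQd : ∀ z ∈ Z, ∀ z' ∈ Z, z ≠ z' → Disjoint (Q z) (Q z')) :
    ∃ c1 : V → ℕ, ColOn G n {u | u ∉ Y} c1 ∧ ∀ z ∈ Z, ∀ z' ∈ Z, z ≠ z' → c1 z ≠ c1 z' := by
  classical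
  obtain ⟨b0, hb0, hb0Y⟩ := hyY
  obtain ⟨M', hM'⟩ := contract M G hC.net Y (Z : Set V) y hYc ⟨b0, hb0Y, (mem_K M y b0).1 hb0⟩
    (fun u hu w hw => by
      rcases hsep u hu w hw with h | h
      · exact Or.inl h
      · exact Or.inr (Finset.mem_coe.2 h))
    (fun z hz => hZY z (Finset.mem_coe.1 hz))
    (fun z hz => by
      obtain ⟨h1, h2, h3, b, hb, hbQ⟩ := hQ z (Finset.mem_coe.1 hz)
      by_cases hzb : z = b
      · left
        rw [hzb]
        exact (mem_K M y b).1 hb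
      · right
        obtain ⟨u, hu, hzu⟩ := cutLemma_nbr G (Q z) h3 z b h1 hbQ hzb
        rcases h2 u hu with h | h
        · exact absurd (h ▸ hzu) (G.loopless.irrefl z)
        · exact ⟨u, h, hzu⟩)
  have hcard : Fintype.card {v // v ∉ Y} < Fintype.card V :=
    Fintype.card_subtype_lt (x := b0) (fun h => h hb0Y)
  have hm : MinorOf ((addClique G (Z : Set V)).comap (Subtype.val : {v // v ∉ Y} → V)) G := by
    refine ⟨fun w => if w.1 ∈ Z then Q w.1 else {w.1}, ?_, ?_, ?_⟩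
    · intro w
      show (G.induce (if w.1 ∈ Z then Q w.1 else {w.1})).Connected
      by_cases hw : w.1 ∈ Z
      · rw [if_pos hw]
        exact (hQ w.1 hw).2.2.1
      · rw [if_neg hw]
        exact cutLemma_single G w.1
    · intro w w' hne
      have hne' : w.1 ≠ w'.1 := fun h => hne (Subtype.ext h)
      show Disjoint (if w.1 ∈ Z then Q w.1 else {w.1}) (if w'.1 ∈ Z then Q w'.1 else {w'.1})
      by_cases hw : w.1 ∈ Z
      · by_cases hw' : w'.1 ∈ Z
        · rw [if_pos hw, if_pos hw']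
          exact hQd w.1 hw w'.1 hw' hne'
        · rw [if_pos hw, if_neg hw', Set.disjoint_singleton_right]
          intro h
          rcases (hQ w.1 hw).2.1 w'.1 h with h' | h'
          · exact hne' h'.symm
          · exact w'.2 h'
      · by_cases hw' : w'.1 ∈ Z
        · rw [if_neg hw, if_pos hw', Set.disjoint_singleton_left]
          intro h
          rcases (hQ w'.1 hw').2.1 w.1 h with h' | h'
          · exact hne' h'
          · exact w.2 h'
        · rw [if_neg hw, if_neg hw', Set.disjoint_singleton]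
          exact hne'
    · intro w w' hadj
      have hadj' : w.1 ≠ w'.1 ∧ (G.Adj w.1 w'.1 ∨ (w.1 ∈ (Z : Set V) ∧ w'.1 ∈ (Z : Set V))) := hadj
      have hself : ∀ u : {v // v ∉ Y}, u.1 ∈ (if u.1 ∈ Z then Q u.1 else {u.1} : Set V) := by
        intro u
        by_cases hu : u.1 ∈ Z
        · rw [if_pos hu]
          exact (hQ u.1 hu).1
        · rw [if_neg hu]
          exact rfl
      rcases hadj'.2 with h | ⟨h1, h2⟩
      · exact ⟨w.1, hself w, w'.1, hself w', h⟩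
      · have h1' : w.1 ∈ Z := Finset.mem_coe.1 h1
        have h2' : w'.1 ∈ Z := Finset.mem_coe.1 h2
        obtain ⟨_, _, _, b, hb, hbQ⟩ := hQ w.1 h1'
        obtain ⟨_, _, _, b', hb', hbQ'⟩ := hQ w'.1 h2'
        refine ⟨b, ?_, b', ?_, ?_⟩
        · show b ∈ (if w.1 ∈ Z then Q w.1 else {w.1} : Set V)
          rw [if_pos h1']
          exact hbQ
        · show b' ∈ (if w'.1 ∈ Z then Q w'.1 else {w'.1} : Set V)
          rw [if_pos h2']
          exact hbQ'
        · refine adj_of_at hC.net ((mem_K M y b).1 hb) ((mem_K M y b').1 hb') ?_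
          intro h
          exact Set.disjoint_left.1 (hQd w.1 h1' w'.1 h2' hadj'.1) hbQ (h ▸ hbQ')
  obtain ⟨c, hc1, hc2⟩ := Crit.minor hC M' _ hM' hcard hm
  have hval : ∀ v (h : v ∉ Y), (if h : v ∉ Y then c ⟨v, h⟩ else 0) = c ⟨v, h⟩ := fun v h => dif_pos h
  refine ⟨fun v => if h : v ∉ Y then c ⟨v, h⟩ else 0, ⟨?_, ?_⟩, ?_⟩
  · intro v hv
    show (if h : v ∉ Y then c ⟨v, h⟩ else 0) < n
    rw [hval v hv]
    exact hc1 _
  · intro u hu v hv huv
    show (if h : u ∉ Y then c ⟨u, h⟩ else 0) ≠ (if h : v ∉ Y then c ⟨v, h⟩ else 0)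
    rw [hval u hu, hval v hv]
    exact hc2 _ _ (show u ≠ v ∧ _ from ⟨fun h => G.loopless.irrefl v (h ▸ huv), Or.inl huv⟩)
  · intro z hz z' hz' hne
    show (if h : z ∉ Y then c ⟨z, h⟩ else 0) ≠ (if h : z' ∉ Y then c ⟨z', h⟩ else 0)
    rw [hval z (hZY z hz), hval z' (hZY z' hz')]
    exact hc2 _ _ (show z ≠ z' ∧ _ from ⟨hne, Or.inr ⟨Finset.mem_coe.2 hz, Finset.mem_coe.2 hz'⟩⟩)

theorem cut_lemma {V N E : Type} [Fintype V] {M : Netw V N E} {G : SimpleGraph V} {n : ℕ} (hC : Crit M G n)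
    (x y : N) (k : ℕ) (hx : k ≤ (M.K x).card) (hy : k ≤ (M.K y).card) :
    Linked G {v | M.At v x} {v | M.At v y} k := by
  classical
  by_contra hno
  have hK : ∀ x : N, ((M.K x : Finset V) : Set V) = {v | M.At v x} := by
    intro x
    ext v
    exact (Finset.mem_coe.trans (mem_K M x v))
  have hcl : ∀ x : N, ∀ u ∈ M.K x, ∀ v ∈ M.K x, u ≠ v → G.Adj u v := fun x u hu v hv hne =>
    adj_of_at hC.net ((mem_K M x u).1 hu) ((mem_K M x v).1 hv) hne
  rw [← hK x, ← hK y] at hno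
  obtain ⟨Z, X, Y, hXY, hZ, hAX, hBY, hXn, hYn, hXc, hYc, hXs, hYs, ⟨Q, hQ, hQd⟩, Q', hQ', hQd'⟩ :=
    cut_pieces G (M.K x) (M.K y) (hcl x) (hcl y) k hx hy hno
  obtain ⟨c1, h1, h1'⟩ := cutLemma_side hC y Z Y (fun z hz => (hZ z hz).2) hYn hYc hYs Q hQ hQd
  obtain ⟨c2, h2, h2'⟩ := cutLemma_side hC x Z X (fun z hz => (hZ z hz).1) hXn hXc hXs Q' hQ' hQd'
  have hsub : ∀ u, (u ∈ Y ∨ u ∈ Z) → u ∉ X := by
    intro u hu hX
    rcases hu with hu | hu
    · exact Set.disjoint_left.1 hXY hX hu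
    · exact (hZ u hu).1 hX
  refine hC.nocol (glue G n Y Z (fun z hz => (hZ z hz).2) hYs c1 c2 h1 h1' ?_ h2')
  exact ⟨fun v hv => h2.1 v (hsub v hv), fun u hu v hv huv => h2.2 u (hsub u hu) v (hsub v hv) huv⟩

end Pool.Agent.Lib.MP_534936_co.Net
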