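import Pool.Agent.Lib.MP_534936_co.Net.Menger
import Pool.Agent.Lib.MP_534936_co.Net.Minor

/-!
# The pieces at a smallest cut (60 minutes)

By `menger` some set with fewer than `k` elements meets all `A`-`B` paths; let `Z` be a smallest such set, `m = |Z|`. By `menger` with `m` there are `m` disjoint `A`-`B` paths; each one meets `Z`, so
each one contains exactly one element of `Z`. `X` = vertices reachable from `A - Z` in `G - Z` (`A` is a clique, `A - Z` is not empty), `Y` = vertices reachable from `B - Z` in `G - Z`; `X`, `Y` are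
disjoint (otherwise an `A`-`B` walk avoids `Z`). `Q z` = the part of the path of `z` from `z` on; its vertices after `z` are not in `Z` and are joined to `B`, so they are in `Y` (if `z ∈ B` then `Q z = {z}`). `Q' z` =
the part up to `z`.
-/

set_option autoImplicit false

namespace Pool.Agent.Lib.MP_534936_co.Net

open Pool.Agent.Lib.MP_534936_co

/-- vertices joined to `B` outside `Z` -/
private def cpS {V : Type} (G : SimpleGraph V) (B Z : Set V) : Set V :=
  {v | ∃ l : List V, l.IsChain G.Adj ∧ (∃ b ∈ B, l.head? = some b) ∧ l.getLast? = some v ∧ ∀ u ∈ l, u ∉ Z}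

private lemma cp_notMem {V : Type} {G : SimpleGraph V} {B Z : Set V} {v : V} (h : v ∈ cpS G B Z) : v ∉ Z := by
  obtain ⟨l, _, _, h3, h4⟩ := h
  exact h4 v (List.mem_of_getLast? h3)

private lemma cp_base {V : Type} {G : SimpleGraph V} {B Z : Set V} {b : V} (hb : b ∈ B) (hbZ : b ∉ Z) :
    b ∈ cpS G B Z := by
  refine ⟨[b], by simp, ⟨b, hb, rfl⟩, rfl, ?_⟩
  intro u hu
  rw [List.mem_singleton] at hu
  rw [hu]
  exact hbZ

private lemma cp_closed {V : Type} {G : SimpleGraph V} {B Z : Set V} {u w : V} (hu : u ∈ cpS G B Z)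
    (huw : G.Adj u w) (hw : w ∉ Z) : w ∈ cpS G B Z := by
  obtain ⟨l, h1, ⟨b, hb, h2⟩, h3, h4⟩ := hu
  refine ⟨l ++ [w], ?_, ⟨b, hb, ?_⟩, by simp, ?_⟩
  · rw [List.isChain_append]
    refine ⟨h1, by simp, ?_⟩
    intro x hx y hy
    rw [h3] at hx
    simp only [Option.mem_def, Option.some.injEq, List.head?_cons] at hx hy
    rw [← hx, ← hy]
    exact huw
  · cases l with
    | nil => simp at h2
    | cons x l => simpa using h2
  · intro x hx
    rw [List.mem_append, List.mem_singleton] at hx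
    rcases hx with hx | hx
    · exact h4 x hx
    · rw [hx]
      exact hw

/-- the vertices of a list are joined to its head -/
private lemma cp_list {V : Type} {G : SimpleGraph V} {B Z : Set V} {l : List V} (h1 : l.IsChain G.Adj)
    (h2 : ∃ b ∈ B, l.head? = some b) (h4 : ∀ u ∈ l, u ∉ Z) : ∀ v ∈ l, v ∈ cpS G B Z := by
  intro v hv
  obtain ⟨s, t, hst⟩ := List.append_of_mem hv
  have hst' : l = (s ++ [v]) ++ t := by
    rw [hst, List.append_assoc]
    rfl
  refine ⟨s ++ [v], ?_, ?_, by simp, ?_⟩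
  · rw [hst'] at h1
    exact h1.left_of_append
  · obtain ⟨b, hb, hb2⟩ := h2
    refine ⟨b, hb, ?_⟩
    rw [← hb2, hst']
    cases s <;> simp
  · intro u hu
    refine h4 u ?_
    rw [hst']
    exact List.mem_append_left _ hu

private lemma cp_conn {V : Type} {G : SimpleGraph V} {B Z : Set V} (hB : ∀ u ∈ B, ∀ v ∈ B, u ≠ v → G.Adj u v)
    (hne : ∃ b ∈ B, b ∉ Z) : (G.induce (cpS G B Z)).Connected := by
  obtain ⟨b0, hb0, hb0Z⟩ := hne
  have key : ∀ v : cpS G B Z, (G.induce (cpS G B Z)).Reachable ⟨b0, cp_base hb0 hb0Z⟩ v := by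
    rintro ⟨v, hv⟩
    obtain ⟨l, h1, ⟨b, hb, h2⟩, h3, h4⟩ := hv
    have hsub : {x | x ∈ l} ⊆ cpS G B Z := fun x hx => cp_list h1 ⟨b, hb, h2⟩ h4 x hx
    have hne : l ≠ [] := by
      rintro rfl
      simp at h2
    have hbl : b ∈ l := List.mem_of_head? h2
    have hvl : v ∈ l := List.mem_of_getLast? h3
    have hc := (conn_list G l hne h1).preconnected ⟨b, hbl⟩ ⟨v, hvl⟩
    have hr : (G.induce (cpS G B Z)).Reachable ⟨b, hsub hbl⟩ ⟨v, hsub hvl⟩ :=
      hc.map (SimpleGraph.induceHomOfLE G hsub).toHom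
    by_cases hbb : b0 = b
    · subst hbb
      exact hr
    · have hadj : (G.induce (cpS G B Z)).Adj ⟨b0, cp_base hb0 hb0Z⟩ ⟨b, hsub hbl⟩ := hB b0 hb0 b hb hbb
      exact hadj.reachable.trans hr
  have : Nonempty (cpS G B Z) := ⟨⟨b0, cp_base hb0 hb0Z⟩⟩
  exact ⟨fun u v => (key u).symm.trans (key v)⟩

/-- a list from `A` to `B` contains an `A`-`B` path -/
private lemma cp_short {V : Type} (G : SimpleGraph V) (A B : Set V) : ∀ (n : ℕ) (l : List V), l.length ≤ n →
    l.IsChain G.Adj → (∃ a ∈ A, l.head? = some a) → (∃ b ∈ B, l.getLast? = some b) →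
    ∃ l', IsAB G A B l' ∧ ∀ v ∈ l', v ∈ l := by
  intro n
  induction n with
  | zero =>
    intro l hl _ ⟨a, _, ha⟩ _
    rw [Nat.le_zero, List.length_eq_zero_iff] at hl
    rw [hl] at ha
    cases ha
  | succ n ih =>
    intro l hl hc hA hB
    by_cases h1 : ∃ v ∈ l.tail, v ∈ A
    · obtain ⟨v, hv, hvA⟩ := h1
      obtain ⟨s, t, hst⟩ := List.append_of_mem hv
      cases l with
      | nil => simp at hv
      | cons x l =>
        rw [List.tail_cons] at hst
        subst hst
        have hc' : (v :: t).IsChain G.Adj := by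
          have h2 := hc.tail
          rw [List.tail_cons] at h2
          exact h2.right_of_append
        obtain ⟨b, hb, hb2⟩ := hB
        obtain ⟨l', h3, h4⟩ := ih (v :: t) (by simp at hl ⊢; omega) hc' ⟨v, hvA, rfl⟩ ⟨b, hb, by
          rw [← hb2]
          rw [← List.cons_append, List.getLast?_append_of_ne_nil _ (by simp)]⟩
        exact ⟨l', h3, fun w hw => by
          have := h4 w hw
          exact List.mem_cons_of_mem _ (List.mem_append_right _ this)⟩
    · by_cases h2 : ∃ v ∈ l.dropLast, v ∈ B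
      · obtain ⟨v, hv, hvB⟩ := h2
        obtain ⟨s, t, hst⟩ := List.append_of_mem hv
        have hne : l ≠ [] := by
          rintro rfl
          simp at hv
        have hl2 : l = s ++ v :: (t ++ [l.getLast hne]) := by
          conv_lhs => rw [← List.dropLast_append_getLast hne, hst]
          simp
        have hl3 : l = (s ++ [v]) ++ (t ++ [l.getLast hne]) := by
          rw [List.append_assoc]
          exact hl2
        have hlen : l.length = s.length + 1 + (t.length + 1) := by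
          conv_lhs => rw [hl3]
          simp
          omega
        obtain ⟨a, ha, ha2⟩ := hA
        obtain ⟨l', h3, h4⟩ := ih (s ++ [v]) (by
            rw [List.length_append, List.length_singleton]
            omega) (by
            rw [hl3] at hc
            exact hc.left_of_append) ⟨a, ha, by
            rw [← ha2]
            conv_rhs => rw [hl3]
            cases s <;> simp⟩ ⟨v, hvB, by simp⟩
        exact ⟨l', h3, fun w hw => by
          have := h4 w hw
          rw [hl3]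
          exact List.mem_append_left _ this⟩
      · refine ⟨l, ⟨hc, hA, hB, ?_, ?_⟩, fun v hv => hv⟩
        · intro v hv hvA
          exact h1 ⟨v, hv, hvA⟩
        · intro v hv hvB
          exact h2 ⟨v, hv, hvB⟩

private lemma cp_rev {V : Type} {G : SimpleGraph V} {l : List V} (h : l.IsChain G.Adj) : l.reverse.IsChain G.Adj := by
  rw [List.isChain_reverse]
  exact h.imp fun u v huv => huv.symm

private lemma cp_disj {V : Type} {G : SimpleGraph V} {A B Z : Set V}
    (hsep : ∀ l : List V, IsAB G A B l → ∃ v ∈ l, v ∈ Z) : Disjoint (cpS G A Z) (cpS G B Z) := by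
  rw [Set.disjoint_left]
  rintro v ⟨l, h1, h2, h3, h4⟩ ⟨l', h1', h2', h3', h4'⟩
  obtain ⟨l₁, rfl⟩ : ∃ l₁, l' = l₁ ++ [v] := by
    refine ⟨l'.dropLast, ?_⟩
    have hne : l' ≠ [] := by
      rintro rfl
      simp at h3'
    have := List.dropLast_append_getLast hne
    rw [List.getLast?_eq_some_getLast hne, Option.some.injEq] at h3'
    rw [h3'] at this
    exact this.symm
  obtain ⟨l₀, rfl⟩ : ∃ l₀, l = l₀ ++ [v] := by
    refine ⟨l.dropLast, ?_⟩
    have hne : l ≠ [] := by
      rintro rfl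
      simp at h3
    have := List.dropLast_append_getLast hne
    rw [List.getLast?_eq_some_getLast hne, Option.some.injEq] at h3
    rw [h3] at this
    exact this.symm
  have hch : (l₀ ++ v :: l₁.reverse).IsChain G.Adj := by
    have e1 : (v :: l₁.reverse).IsChain G.Adj := by
      have := cp_rev h1'
      rw [List.reverse_append] at this
      simpa using this
    rw [List.isChain_split]
    exact ⟨h1, e1⟩
  obtain ⟨q, hq, hq2⟩ := cp_short G A B _ (l₀ ++ v :: l₁.reverse) le_rfl hch (by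
    obtain ⟨a, ha, ha2⟩ := h2
    refine ⟨a, ha, ?_⟩
    rw [← ha2]
    cases l₀ <;> simp) (by
    obtain ⟨b, hb, hb2⟩ := h2'
    refine ⟨b, hb, ?_⟩
    rw [← hb2]
    cases l₁ with
    | nil => simp
    | cons x l₁ =>
      have e1 : l₀ ++ v :: (x :: l₁).reverse = (l₀ ++ v :: l₁.reverse) ++ [x] := by simp
      rw [e1, List.getLast?_append_of_ne_nil _ (by simp)]
      rfl)
  obtain ⟨u, hu, huZ⟩ := hsep q hq
  have := hq2 u hu
  rw [List.mem_append, List.mem_cons, List.mem_reverse] at this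
  rcases this with h5 | h5 | h5
  · exact h4 u (List.mem_append_left _ h5) huZ
  · exact h4 u (List.mem_append_right _ (by rw [h5]; exact List.mem_singleton_self v)) huZ
  · exact h4' u (List.mem_append_left _ h5) huZ

/-- one side of the pieces -/
private lemma cp_side {V : Type} (G : SimpleGraph V) (A B : Set V) (Z : Finset V) (P : V → List V)
    (hP : ∀ z ∈ Z, IsAB G A B (P z)) (hmemP : ∀ z ∈ Z, z ∈ P z)
    (hd : ∀ z ∈ Z, ∀ z' ∈ Z, z ≠ z' → ∀ v ∈ P z, v ∉ P z') :
    ∃ Q : V → Set V, (∀ z ∈ Z, z ∈ Q z ∧ (∀ v ∈ Q z, v = z ∨ v ∈ cpS G B (Z : Set V)) ∧ (G.induce (Q z)).Connected ∧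
        ∃ b ∈ B, b ∈ Q z) ∧ ∀ z ∈ Z, ∀ z' ∈ Z, z ≠ z' → Disjoint (Q z) (Q z') := by
  classical
  have key : ∀ z, z ∈ Z → ∃ s t : List V, P z = s ++ z :: t ∧ z ∉ t := by
    intro z hz
    obtain ⟨s, t, h1, h2⟩ := List.eq_append_cons_of_mem (List.mem_reverse.2 (hmemP z hz))
    refine ⟨t.reverse, s.reverse, ?_, ?_⟩
    · have h3 := congrArg List.reverse h1
      rw [List.reverse_reverse] at h3
      rw [h3]
      simp
    · rw [List.mem_reverse]
      exact h2
  choose! s t hst using key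
  refine ⟨fun z => {v | v ∈ z :: t z}, ?_, ?_⟩
  · intro z hz
    have h1 := hst z hz
    have hPz := hP z hz
    have hch : (z :: t z).IsChain G.Adj := by
      have := hPz.1
      rw [h1.1] at this
      exact this.right_of_append
    have hlast : ∃ b ∈ B, (z :: t z).getLast? = some b := by
      obtain ⟨b, hb, hb2⟩ := hPz.2.2.1
      refine ⟨b, hb, ?_⟩
      rw [← hb2, h1.1, List.getLast?_append_of_ne_nil _ (by simp)]
    have hZt : ∀ u ∈ t z, u ∉ (Z : Set V) := by
      intro u hu huZ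
      have hmem : u ∈ P z := by
        rw [h1.1]
        exact List.mem_append_right _ (List.mem_cons_of_mem _ hu)
      by_cases huz : z = u
      · rw [← huz] at hu
        exact h1.2 hu
      · exact hd z hz u huZ huz u hmem (hmemP u huZ)
    refine ⟨List.mem_cons_self, ?_, conn_list G (z :: t z) (by simp) hch, ?_⟩
    · intro v hv
      rcases List.mem_cons.1 hv with h2 | h2
      · exact Or.inl h2
      · right
        have hch2 : (t z).reverse.IsChain G.Adj := cp_rev hch.tail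
        refine cp_list hch2 ?_ (fun u hu => hZt u (List.mem_reverse.1 hu)) v (List.mem_reverse.2 h2)
        obtain ⟨b, hb, hb2⟩ := hlast
        refine ⟨b, hb, ?_⟩
        rw [List.head?_reverse, ← hb2]
        have hne : t z ≠ [] := by
          intro h5
          rw [h5] at h2
          simp at h2
        obtain ⟨y, l, hyl⟩ := List.exists_cons_of_ne_nil hne
        rw [hyl]
        simp
    · obtain ⟨b, hb, hb2⟩ := hlast
      exact ⟨b, hb, List.mem_of_getLast? hb2⟩
  · intro z hz z' hz' hne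
    rw [Set.disjoint_left]
    intro v hv hv'
    have h1 : v ∈ P z := by
      rw [(hst z hz).1]
      exact List.mem_append_right _ hv
    have h2 : v ∈ P z' := by
      rw [(hst z' hz').1]
      exact List.mem_append_right _ hv'
    exact hd z hz z' hz' hne v h1 h2

theorem cut_pieces {V : Type} [Fintype V] (G : SimpleGraph V) (A B : Finset V)
    (hA : ∀ u ∈ A, ∀ v ∈ A, u ≠ v → G.Adj u v) (hB : ∀ u ∈ B, ∀ v ∈ B, u ≠ v → G.Adj u v) (k : ℕ)
    (hkA : k ≤ A.card) (hkB : k ≤ B.card) (hno : ¬ Linked G (A : Set V) (B : Set V) k) :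
    ∃ (Z : Finset V) (X Y : Set V), Disjoint X Y ∧ (∀ z ∈ Z, z ∉ X ∧ z ∉ Y) ∧
      (∀ a ∈ A, a ∉ Z → a ∈ X) ∧ (∀ b ∈ B, b ∉ Z → b ∈ Y) ∧ (∃ a ∈ A, a ∈ X) ∧ (∃ b ∈ B, b ∈ Y) ∧
      (G.induce X).Connected ∧ (G.induce Y).Connected ∧
      (∀ u ∈ X, ∀ w, G.Adj u w → w ∈ X ∨ w ∈ Z) ∧ (∀ u ∈ Y, ∀ w, G.Adj u w → w ∈ Y ∨ w ∈ Z) ∧
      (∃ Q : V → Set V, (∀ z ∈ Z, z ∈ Q z ∧ (∀ v ∈ Q z, v = z ∨ v ∈ Y) ∧ (G.induce (Q z)).Connected ∧
        ∃ b ∈ B, b ∈ Q z) ∧ ∀ z ∈ Z, ∀ z' ∈ Z, z ≠ z' → Disjoint (Q z) (Q z')) ∧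
      ∃ Q' : V → Set V, (∀ z ∈ Z, z ∈ Q' z ∧ (∀ v ∈ Q' z, v = z ∨ v ∈ X) ∧ (G.induce (Q' z)).Connected ∧
        ∃ a ∈ A, a ∈ Q' z) ∧ ∀ z ∈ Z, ∀ z' ∈ Z, z ≠ z' → Disjoint (Q' z) (Q' z') := by
  classical
  -- a smallest cut
  have hex : ∃ m, ∃ Z : Finset V, Z.card = m ∧ Z.card < k ∧
      ∀ l : List V, IsAB G (A : Set V) (B : Set V) l → ∃ v ∈ l, v ∈ Z := by
    by_contra hcon
    apply hno
    refine menger G _ _ k ?_
    intro Z hZ
    by_contra h2
    apply hcon
    refine ⟨Z.card, Z, rfl, hZ, ?_⟩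
    intro l hl
    by_contra h3
    exact h2 ⟨l, hl, fun v hv hvZ => h3 ⟨v, hv, hvZ⟩⟩
  obtain ⟨Z, hZc, hZk, hZsep⟩ := Nat.find_spec hex
  have hmin : ∀ Z' : Finset V, Z'.card < Z.card → ∃ l : List V, IsAB G (A : Set V) (B : Set V) l ∧ ∀ v ∈ l, v ∉ Z' := by
    intro Z' hZ'
    by_contra h2
    refine Nat.find_min hex (m := Z'.card) (by omega) ⟨Z', rfl, by omega, ?_⟩
    intro l hl
    by_contra h3
    exact h2 ⟨l, hl, fun v hv hvZ => h3 ⟨v, hv, hvZ⟩⟩
  obtain ⟨P, hP, hPd⟩ := menger G (A : Set V) (B : Set V) Z.card hmin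
  have hsep' : ∀ l : List V, IsAB G (A : Set V) (B : Set V) l → ∃ v ∈ l, v ∈ (Z : Set V) := fun l hl => by
    obtain ⟨v, hv, hvZ⟩ := hZsep l hl
    exact ⟨v, hv, hvZ⟩
  -- the element of `Z` on each path
  choose g hg1 hg2 using fun i => hZsep (P i) (hP i)
  have hginj : Function.Injective g := by
    intro i j hij
    by_contra hne
    exact hPd i j hne (g i) (hg1 i) (hij ▸ hg1 j)
  have himg : Finset.univ.image g = Z := by
    refine Finset.eq_of_subset_of_card_le (fun z hz => ?_) ?_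
    · obtain ⟨i, _, rfl⟩ := Finset.mem_image.1 hz
      exact hg2 i
    · rw [Finset.card_image_of_injective _ hginj, Finset.card_univ, Fintype.card_fin]
  have hsurj : ∀ z, z ∈ Z → ∃ i, g i = z := by
    intro z hz
    rw [← himg, Finset.mem_image] at hz
    obtain ⟨i, _, hi⟩ := hz
    exact ⟨i, hi⟩
  obtain ⟨P', hP'⟩ : ∃ P' : V → List V, ∀ z ∈ Z, ∃ i, g i = z ∧ P' z = P i := by
    refine ⟨fun z => if h : ∃ i, g i = z then P h.choose else [], ?_⟩
    intro z hz
    refine ⟨(hsurj z hz).choose, (hsurj z hz).choose_spec, ?_⟩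
    dsimp only
    rw [dif_pos (hsurj z hz)]
  have hPab : ∀ z ∈ Z, IsAB G (A : Set V) (B : Set V) (P' z) := by
    intro z hz
    obtain ⟨i, _, hi⟩ := hP' z hz
    rw [hi]
    exact hP i
  have hPmem : ∀ z ∈ Z, z ∈ P' z := by
    intro z hz
    obtain ⟨i, hi1, hi⟩ := hP' z hz
    rw [hi, ← hi1]
    exact hg1 i
  have hPdisj : ∀ z ∈ Z, ∀ z' ∈ Z, z ≠ z' → ∀ v ∈ P' z, v ∉ P' z' := by
    intro z hz z' hz' hne
    obtain ⟨i, hi1, hi⟩ := hP' z hz
    obtain ⟨j, hj1, hj⟩ := hP' z' hz'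
    rw [hi, hj]
    refine hPd i j ?_
    rintro rfl
    exact hne (hi1.symm.trans hj1)
  obtain ⟨Q, hQ1, hQ2⟩ := cp_side G (A : Set V) (B : Set V) Z P' hPab hPmem hPdisj
  obtain ⟨Q', hQ1', hQ2'⟩ := cp_side G (B : Set V) (A : Set V) Z (fun z => (P' z).reverse) (by
      intro z hz
      obtain ⟨h1, ⟨a, h2, h3⟩, ⟨b, h4, h5⟩, h6, h7⟩ := hPab z hz
      refine ⟨cp_rev h1, ⟨b, h4, by rw [List.head?_reverse]; exact h5⟩,
        ⟨a, h2, by rw [List.getLast?_reverse]; exact h3⟩, ?_, ?_⟩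
      · intro v hv
        rw [List.tail_reverse, List.mem_reverse] at hv
        exact h7 v hv
      · intro v hv
        rw [List.dropLast_reverse, List.mem_reverse] at hv
        exact h6 v hv) (fun z hz => List.mem_reverse.2 (hPmem z hz)) (by
      intro z hz z' hz' hne v hv hv'
      exact hPdisj z hz z' hz' hne v (List.mem_reverse.1 hv) (List.mem_reverse.1 hv'))
  have hAne : ∃ a ∈ (A : Set V), a ∉ (Z : Set V) := by
    by_contra h
    push Not at h
    have : A ⊆ Z := fun a ha => h a ha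
    have := Finset.card_le_card this
    omega
  have hBne : ∃ b ∈ (B : Set V), b ∉ (Z : Set V) := by
    by_contra h
    push Not at h
    have : B ⊆ Z := fun a ha => h a ha
    have := Finset.card_le_card this
    omega
  refine ⟨Z, cpS G (A : Set V) (Z : Set V), cpS G (B : Set V) (Z : Set V), cp_disj hsep', ?_, ?_, ?_, ?_, ?_,
    cp_conn hA hAne, cp_conn hB hBne, ?_, ?_, ⟨Q, hQ1, hQ2⟩, ⟨Q', hQ1', hQ2'⟩⟩
  · intro z hz
    exact ⟨fun h => cp_notMem h hz, fun h => cp_notMem h hz⟩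
  · intro a ha haZ
    exact cp_base ha haZ
  · intro b hb hbZ
    exact cp_base hb hbZ
  · obtain ⟨a, ha, haZ⟩ := hAne
    exact ⟨a, ha, cp_base ha haZ⟩
  · obtain ⟨b, hb, hbZ⟩ := hBne
    exact ⟨b, hb, cp_base hb hbZ⟩
  · intro u hu w huw
    by_cases hw : w ∈ Z
    · exact Or.inr hw
    · exact Or.inl (cp_closed hu huw hw)
  · intro u hu w huw
    by_cases hw : w ∈ Z
    · exact Or.inr hw
    · exact Or.inl (cp_closed hu huw hw)

end Pool.Agent.Lib.MP_534936_co.Net
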