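import Pool.Agent.Lib.MP_534936_co.Main

/-!
# Intervals on networks: definitions (text /team-store/HADNET99.md)

A network has roads `f : E` with positions `0, ..., len f` and end nodes `tl f` (position `0`) and `hd f` (position `len f`). A vertex `v` is
the interval of the positions `s v, ..., t v` of the road `rd v`. Two different vertices are adjacent iff they share a position of their road or
contain the same node.
-/

set_option autoImplicit false

namespace Pool.Agent.Lib.MP_534936_co.Net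

open Pool.Agent.Lib.MP_534936_co

/-- `G` has a proper colouring with `n` colours -/
def Col {V : Type} (G : SimpleGraph V) (n : ℕ) : Prop :=
  ∃ c : V → ℕ, (∀ v, c v < n) ∧ ∀ u v, G.Adj u v → c u ≠ c v

/-- `c` is a proper colouring with `n` colours of the part `S` of `G` -/
def ColOn {V : Type} (G : SimpleGraph V) (n : ℕ) (S : Set V) (c : V → ℕ) : Prop :=
  (∀ v ∈ S, c v < n) ∧ ∀ u ∈ S, ∀ v ∈ S, G.Adj u v → c u ≠ c v

/-- `H` is a minor of `G` -/
def MinorOf {W V : Type} (H : SimpleGraph W) (G : SimpleGraph V) : Prop :=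
  ∃ φ : W → Set V, (∀ w, (G.induce (φ w)).Connected) ∧ (∀ w w', w ≠ w' → Disjoint (φ w) (φ w')) ∧
    ∀ w w', H.Adj w w' → ∃ x ∈ φ w, ∃ y ∈ φ w', G.Adj x y

/-- `l` is an `A`-`B` path: a walk whose first vertex is the only one in `A` and whose last vertex is the only one in `B` -/
def IsAB {V : Type} (G : SimpleGraph V) (A B : Set V) (l : List V) : Prop :=
  l.IsChain G.Adj ∧ (∃ a ∈ A, l.head? = some a) ∧ (∃ b ∈ B, l.getLast? = some b) ∧ (∀ v ∈ l.tail, v ∉ A) ∧
    ∀ v ∈ l.dropLast, v ∉ B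

/-- `k` disjoint `A`-`B` paths -/
def Linked {V : Type} (G : SimpleGraph V) (A B : Set V) (k : ℕ) : Prop :=
  ∃ P : Fin k → List V, (∀ i, IsAB G A B (P i)) ∧ ∀ i j, i ≠ j → ∀ v ∈ P i, v ∉ P j

/-- `G` with all edges inside `Z` added -/
def addClique {V : Type} (G : SimpleGraph V) (Z : Set V) : SimpleGraph V where
  Adj u v := u ≠ v ∧ (G.Adj u v ∨ (u ∈ Z ∧ v ∈ Z))
  symm := ⟨by
    rintro u v ⟨h1, h2⟩
    refine ⟨h1.symm, ?_⟩
    rcases h2 with h2 | h2
    · exact Or.inl h2.symm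
    · exact Or.inr ⟨h2.2, h2.1⟩⟩
  loopless := ⟨fun u h => h.1 rfl⟩

/-- a network with intervals -/
structure Netw (V N E : Type) where
  tl : E → N
  hd : E → N
  len : E → ℕ
  rd : V → E
  s : V → ℕ
  t : V → ℕ
  len_pos : ∀ f, 0 < len f
  st : ∀ v, s v ≤ t v
  tlen : ∀ v, t v ≤ len (rd v)

section net

variable {V N E : Type}

/-- the interval `v` contains the node `x` -/
def Netw.At (M : Netw V N E) (v : V) (x : N) : Prop :=
  (M.s v = 0 ∧ M.tl (M.rd v) = x) ∨ (M.t v = M.len (M.rd v) ∧ M.hd (M.rd v) = x)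

def Netw.Meet (M : Netw V N E) (u v : V) : Prop :=
  (M.rd u = M.rd v ∧ M.s u ≤ M.t v ∧ M.s v ≤ M.t u) ∨ ∃ x, M.At u x ∧ M.At v x

def IsNet (G : SimpleGraph V) (M : Netw V N E) : Prop := ∀ u v, G.Adj u v ↔ u ≠ v ∧ M.Meet u v

open Classical in
/-- the vertices containing the node `x` -/
noncomputable def Netw.K [Fintype V] (M : Netw V N E) (x : N) : Finset V := Finset.univ.filter (fun v => M.At v x)

/-- `G` is a counterexample with `n` colours, with fewest vertices -/
structure Crit [Fintype V] (M : Netw V N E) (G : SimpleGraph V) (n : ℕ) : Prop where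
  net : IsNet G M
  nocol : ¬ Col G n
  nominor : ¬ HasMinor G (n + 1)
  ih : ∀ (V' N' E' : Type) [Fintype V'] (M' : Netw V' N' E') (G' : SimpleGraph V'), IsNet G' M' →
    Fintype.card V' < Fintype.card V → ¬ HasMinor G' (n + 1) → Col G' n

end net

/-- Hadwiger's conjecture for circular-arc graphs (proved in `Gn/Hadwiger.lean` from (GEN)) -/
def Circ : Prop :=
  ∀ (V : Type) [Fintype V] (N : ℤ) (_ : 0 < N) (a l : V → ℤ) (_ : ∀ v, 0 ≤ a v ∧ a v < N)
    (_ : ∀ v, 0 ≤ l v ∧ l v < N) (G : SimpleGraph V)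
    (_ : ∀ u v, G.Adj u v ↔ u ≠ v ∧ ∃ p, Mem N a l u p ∧ Mem N a l v p) (n : ℕ), ¬ Col G n → HasMinor G (n + 1)

end Pool.Agent.Lib.MP_534936_co.Net
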