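import Pool.Agent.Lib.MP_534936_co.Net.StripPaths

/-!
# Replacing a strip by long intervals (60 minutes)

`LL := {b | rd b = f ∧ t b = len f ∧ ∃ u, rd u = f ∧ s u = 0 ∧ b ∈ Q u}`; every `u` on `f` with `s u = 0` has exactly one such `b` in `Q u` (`Q u` stays on `f`, exactly one of its vertices contains `hd f`; as `tl f ≠ hd f`, `At b (hd f)` and
`rd b = f` mean `t b = len f`) and the `Q u` are disjoint, so `|LL| = |{u | rd u = f ∧ s u = 0}|`.
New network on `{v // rd v = f → t v = len f}`: same roads; vertices on `f`: `s' b = 0` if `b ∈ LL`, `len f` otherwise, `t' b = len f`; the others unchanged. `G'` = its graph. Minor: `b ∈ LL` ↦ `Q u`, the others ↦ singletons.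
-/

set_option autoImplicit false

namespace Pool.Agent.Lib.MP_534936_co.Net

open Pool.Agent.Lib.MP_534936_co

open Classical in
/-- vertices of the road `f` at its tail -/
noncomputable def Netw.SA {V N E : Type} [Fintype V] (M : Netw V N E) (f : E) : Finset V :=
  Finset.univ.filter (fun v => M.rd v = f ∧ M.s v = 0)

open Classical in
/-- vertices of the road `f` at its head -/
noncomputable def Netw.SB {V N E : Type} [Fintype V] (M : Netw V N E) (f : E) : Finset V :=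
  Finset.univ.filter (fun v => M.rd v = f ∧ M.t v = M.len f)

section rep

variable {V N E : Type}

open Classical in
/-- the starts of the new intervals -/
noncomputable def Netw.rs (M : Netw V N E) (f : E) (LL : Set V) (v : {v // M.rd v = f → M.t v = M.len f}) : ℕ :=
  if v.1 ∈ LL then 0 else if M.rd v.1 = f then M.len f else M.s v.1

/-- the new network -/
noncomputable def Netw.rep (M : Netw V N E) (f : E) (LL : Set V) :
    Netw {v // M.rd v = f → M.t v = M.len f} N E where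
  tl := M.tl
  hd := M.hd
  len := M.len
  rd v := M.rd v.1
  s v := M.rs f LL v
  t v := M.t v.1
  len_pos := M.len_pos
  st v := by
    classical
    unfold Netw.rs
    split_ifs with h1 h2
    · exact Nat.zero_le _
    · rw [v.2 h2]
    · exact M.st v.1
  tlen v := M.tlen v.1

theorem rs_out (M : Netw V N E) (f : E) {LL : Set V} (hLL : ∀ b ∈ LL, M.rd b = f)
    {v : {v // M.rd v = f → M.t v = M.len f}} (hv : M.rd v.1 ≠ f) : M.rs f LL v = M.s v.1 := by
  classical
  unfold Netw.rs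
  rw [if_neg (fun h => hv (hLL _ h)), if_neg hv]

theorem rep_at_out (M : Netw V N E) (f : E) {LL : Set V} (hLL : ∀ b ∈ LL, M.rd b = f)
    {v : {v // M.rd v = f → M.t v = M.len f}} (hv : M.rd v.1 ≠ f) (x : N) :
    (M.rep f LL).At v x ↔ M.At v.1 x := by
  have h1 : (M.rep f LL).s v = M.s v.1 := rs_out M f hLL hv
  unfold Netw.At
  rw [h1]
  exact Iff.rfl

theorem rep_at_in (M : Netw V N E) (f : E) {LL : Set V}
    {v : {v // M.rd v = f → M.t v = M.len f}} (hv : M.rd v.1 = f) {x : N} (h : (M.rep f LL).At v x) :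
    (v.1 ∈ LL ∧ x = M.tl f) ∨ x = M.hd f := by
  classical
  rcases h with ⟨h1, h2⟩ | ⟨h1, h2⟩
  · left
    have h3 : M.rs f LL v = 0 := h1
    have h4 : M.tl (M.rd v.1) = x := h2
    rw [hv] at h4
    refine ⟨?_, h4.symm⟩
    by_contra h5
    unfold Netw.rs at h3
    rw [if_neg h5, if_pos hv] at h3
    have := M.len_pos f
    omega
  · right
    have h4 : M.hd (M.rd v.1) = x := h2
    rw [hv] at h4
    exact h4.symm

theorem rep_meet_out (M : Netw V N E) (f : E) {LL : Set V} (hLL : ∀ b ∈ LL, M.rd b = f)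
    {u v : {v // M.rd v = f → M.t v = M.len f}} (hu : M.rd u.1 ≠ f) (hv : M.rd v.1 ≠ f) :
    (M.rep f LL).Meet u v ↔ M.Meet u.1 v.1 := by
  have h1 : (M.rep f LL).s u = M.s u.1 := rs_out M f hLL hu
  have h2 : (M.rep f LL).s v = M.s v.1 := rs_out M f hLL hv
  unfold Netw.Meet
  have h3 : (∃ x, (M.rep f LL).At u x ∧ (M.rep f LL).At v x) ↔ ∃ x, M.At u.1 x ∧ M.At v.1 x := by
    constructor
    · rintro ⟨x, hx1, hx2⟩
      exact ⟨x, (rep_at_out M f hLL hu x).1 hx1, (rep_at_out M f hLL hv x).1 hx2⟩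
    · rintro ⟨x, hx1, hx2⟩
      exact ⟨x, (rep_at_out M f hLL hu x).2 hx1, (rep_at_out M f hLL hv x).2 hx2⟩
  rw [h3, h1, h2]
  exact Iff.rfl

/-- the graph of the new network -/
def Netw.gr {V N E : Type} (M : Netw V N E) : SimpleGraph V where
  Adj u v := u ≠ v ∧ M.Meet u v
  symm := ⟨by
    rintro u v ⟨h1, h2⟩
    refine ⟨h1.symm, ?_⟩
    rcases h2 with ⟨h2, h3, h4⟩ | ⟨x, h2, h3⟩
    · exact Or.inl ⟨h2.symm, h4, h3⟩
    · exact Or.inr ⟨x, h3, h2⟩⟩
  loopless := ⟨fun u h => h.1 rfl⟩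

theorem rep_in (M : Netw V N E) {G : SimpleGraph V} (hG : IsNet G M) (f : E)
    {u v : {v // M.rd v = f → M.t v = M.len f}} (hu : M.rd u.1 = f) (hv : M.rd v.1 = f) (hne : u ≠ v) :
    G.Adj u.1 v.1 := by
  rw [hG]
  refine ⟨fun h => hne (Subtype.ext h), Or.inl ⟨by rw [hu, hv], ?_, ?_⟩⟩
  · have h1 := M.tlen u.1
    have h2 := M.st u.1
    rw [hu] at h1
    rw [v.2 hv]
    omega
  · have h1 := M.tlen v.1
    have h2 := M.st v.1
    rw [hv] at h1
    rw [u.2 hu]
    omega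

theorem at_hd (M : Netw V N E) (f : E) {v : V} (hv : M.rd v = f) (ht : M.t v = M.len f) : M.At v (M.hd f) := by
  right
  rw [hv]
  exact ⟨ht, rfl⟩

end rep

theorem replace {V N E : Type} [Fintype V] {M : Netw V N E} {G : SimpleGraph V} (hG : IsNet G M) (f : E)
    (hne : M.tl f ≠ M.hd f) (Q : V → Set V) (hQ : StripFam M G f Q) :
    ∃ (M' : Netw {v // M.rd v = f → M.t v = M.len f} N E) (G' : SimpleGraph {v // M.rd v = f → M.t v = M.len f})
      (LL : Finset V), IsNet G' M' ∧ MinorOf G' G ∧ LL ⊆ M.SB f ∧ LL.card = (M.SA f).card ∧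
      (∀ u v, M.rd u.1 ≠ f → M.rd v.1 ≠ f → G.Adj u.1 v.1 → G'.Adj u v) ∧
      (∀ b u, b.1 ∈ LL → M.rd u.1 ≠ f → M.At u.1 (M.tl f) → G'.Adj b u) ∧
      (∀ b u, M.rd b.1 = f → M.rd u.1 ≠ f → M.At u.1 (M.hd f) → G'.Adj b u) ∧
      ∀ b b', M.rd b.1 = f → M.rd b'.1 = f → b ≠ b' → G'.Adj b b' := by
  classical
  obtain ⟨hQ1, hQ2⟩ := hQ
  have hSA : ∀ u ∈ M.SA f, M.rd u = f ∧ M.At u (M.tl f) := by
    intro u hu
    have h1 := (Finset.mem_filter.1 hu).2
    exact ⟨h1.1, Or.inl ⟨h1.2, by rw [h1.1]⟩⟩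
  have hex : ∀ u, ∃ b, u ∈ M.SA f → (M.At b (M.hd f) ∧ b ∈ Q u ∧ ∀ b', M.At b' (M.hd f) → b' ∈ Q u → b' = b) := by
    intro u
    by_cases hu : u ∈ M.SA f
    · obtain ⟨b, hb⟩ := (hQ1 u (hSA u hu).2).2.2.1
      exact ⟨b, fun _ => hb⟩
    · exact ⟨u, fun h => absurd h hu⟩
  choose bf hbf using hex
  have hb1 : ∀ u ∈ M.SA f, M.rd (bf u) = f ∧ M.t (bf u) = M.len f := by
    intro u hu
    obtain ⟨h1, h2, h3⟩ := hbf u hu
    have h4 : M.rd (bf u) = f := ((hQ1 u (hSA u hu).2).2.2.2.1 _ h2).2 (hSA u hu).1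
    refine ⟨h4, ?_⟩
    rcases h1 with ⟨_, h5⟩ | ⟨h5, _⟩
    · rw [h4] at h5
      exact absurd h5 hne
    · rw [h4] at h5
      exact h5
  have hinj : ∀ u ∈ M.SA f, ∀ u' ∈ M.SA f, bf u = bf u' → u = u' := by
    intro u hu u' hu' h
    by_contra hne'
    have h1 := hQ2 u u' (hSA u hu).2 (hSA u' hu').2 hne'
    rw [Set.disjoint_left] at h1
    exact h1 (hbf u hu).2.1 (by rw [h]; exact (hbf u' hu').2.1)
  have hLL : ∀ b ∈ ((M.SA f).image bf : Finset V), M.rd b = f := by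
    intro b hb
    obtain ⟨u, hu, rfl⟩ := Finset.mem_image.1 hb
    exact (hb1 u hu).1
  have hLL' : ∀ b ∈ {b | b ∈ (M.SA f).image bf}, M.rd b = f := hLL
  -- the branch sets
  have hpre : ∀ w : {v // M.rd v = f → M.t v = M.len f}, ∃ S : Set V, w.1 ∈ S ∧ (G.induce S).Connected ∧
      ((w.1 ∉ (M.SA f).image bf ∧ S = {w.1}) ∨ ∃ u ∈ M.SA f, bf u = w.1 ∧ S = Q u) := by
    intro w
    by_cases hw : w.1 ∈ (M.SA f).image bf
    · obtain ⟨u, hu, hu2⟩ := Finset.mem_image.1 hw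
      refine ⟨Q u, ?_, (hQ1 u (hSA u hu).2).2.1, Or.inr ⟨u, hu, hu2, rfl⟩⟩
      rw [← hu2]
      exact (hbf u hu).2.1
    · exact ⟨{w.1}, rfl, conn_single G w.1, Or.inl ⟨hw, rfl⟩⟩
  choose φ hφ1 hφ2 hφ3 using hpre
  refine ⟨M.rep f {b | b ∈ (M.SA f).image bf}, (M.rep f {b | b ∈ (M.SA f).image bf}).gr, (M.SA f).image bf,
    fun u v => Iff.rfl, ⟨φ, hφ2, ?_, ?_⟩, ?_, ?_, ?_, ?_, ?_, ?_⟩
  · -- disjoint
    intro w w' hww
    rw [Set.disjoint_left]
    intro x hx hx'
    rcases hφ3 w with ⟨h1, h2⟩ | ⟨u, hu, h1, h2⟩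
    · rw [h2, Set.mem_singleton_iff] at hx
      rcases hφ3 w' with ⟨h3, h4⟩ | ⟨u', hu', h3, h4⟩
      · rw [h4, Set.mem_singleton_iff] at hx'
        exact hww (Subtype.ext (by rw [← hx, ← hx']))
      · rw [h4] at hx'
        rw [hx] at hx'
        have h5 : M.rd w.1 = f := ((hQ1 u' (hSA u' hu').2).2.2.2.1 _ hx').2 (hSA u' hu').1
        have h6 := (hbf u' hu').2.2 w.1 (at_hd M f h5 (w.2 h5)) hx'
        apply h1
        rw [h6]
        exact Finset.mem_image_of_mem _ hu'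
    · rw [h2] at hx
      rcases hφ3 w' with ⟨h3, h4⟩ | ⟨u', hu', h3, h4⟩
      · rw [h4, Set.mem_singleton_iff] at hx'
        rw [hx'] at hx
        have h5 : M.rd w'.1 = f := ((hQ1 u (hSA u hu).2).2.2.2.1 _ hx).2 (hSA u hu).1
        have h6 := (hbf u hu).2.2 w'.1 (at_hd M f h5 (w'.2 h5)) hx
        apply h3
        rw [h6]
        exact Finset.mem_image_of_mem _ hu
      · rw [h4] at hx'
        have h5 : u ≠ u' := by
          intro h
          rw [h, h3] at h1
          exact hww (Subtype.ext h1.symm)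
        have h6 := hQ2 u u' (hSA u hu).2 (hSA u' hu').2 h5
        rw [Set.disjoint_left] at h6
        exact h6 hx hx'
  · -- adjacency
    have key : ∀ w w' : {v // M.rd v = f → M.t v = M.len f}, w ≠ w' → M.rd w.1 = f → M.rd w'.1 ≠ f →
        (M.rep f {b | b ∈ (M.SA f).image bf}).Meet w w' → ∃ x ∈ φ w, ∃ y ∈ φ w', G.Adj x y := by
      intro w w' hww hw hw' hm
      rcases hm with ⟨h1, _⟩ | ⟨x, hx1, hx2⟩
      · exfalso
        apply hw'
        have h2 : M.rd w.1 = M.rd w'.1 := h1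
        rw [← h2, hw]
      · rw [rep_at_out M f hLL' hw'] at hx2
        rcases rep_at_in M f hw hx1 with ⟨h1, h2⟩ | h2
        · rw [h2] at hx2
          rcases hφ3 w with ⟨h3, _⟩ | ⟨u, hu, h3, h4⟩
          · exact absurd h1 h3
          · refine ⟨u, ?_, w'.1, hφ1 w', ?_⟩
            · rw [h4]
              exact (hQ1 u (hSA u hu).2).1
            · apply adj_of_at hG (hSA u hu).2 hx2
              intro h5
              apply hw'
              rw [← h5]
              exact (hSA u hu).1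
        · rw [h2] at hx2
          refine ⟨w.1, hφ1 w, w'.1, hφ1 w', adj_of_at hG (at_hd M f hw (w.2 hw)) hx2 ?_⟩
          intro h5
          apply hw'
          rw [← h5]
          exact hw
    rintro w w' ⟨hww, hm⟩
    by_cases hw : M.rd w.1 = f
    · by_cases hw' : M.rd w'.1 = f
      · exact ⟨w.1, hφ1 w, w'.1, hφ1 w', rep_in M hG f hw hw' hww⟩
      · exact key w w' hww hw hw' hm
    · by_cases hw' : M.rd w'.1 = f
      · obtain ⟨x, hx, y, hy, hxy⟩ := key w' w hww.symm hw' hw (by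
          rcases hm with ⟨h2, h3, h4⟩ | ⟨x, h2, h3⟩
          · exact Or.inl ⟨h2.symm, h4, h3⟩
          · exact Or.inr ⟨x, h3, h2⟩)
        exact ⟨y, hy, x, hx, hxy.symm⟩
      · refine ⟨w.1, hφ1 w, w'.1, hφ1 w', ?_⟩
        rw [hG]
        exact ⟨fun h => hww (Subtype.ext h), (rep_meet_out M f hLL' hw hw').1 hm⟩
  · intro b hb
    obtain ⟨u, hu, rfl⟩ := Finset.mem_image.1 hb
    exact Finset.mem_filter.2 ⟨Finset.mem_univ _, hb1 u hu⟩
  · exact Finset.card_image_of_injOn (fun u hu u' hu' h => hinj u (Finset.mem_coe.1 hu) u' (Finset.mem_coe.1 hu') h)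
  · intro u v hu hv huv
    have h1 := (hG _ _).1 huv
    exact ⟨fun h => h1.1 (congrArg Subtype.val h), (rep_meet_out M f hLL' hu hv).2 h1.2⟩
  · intro b u hb hu hut
    refine ⟨?_, Or.inr ⟨M.tl f, ?_, (rep_at_out M f hLL' hu _).2 hut⟩⟩
    · intro h
      apply hu
      rw [← h]
      exact hLL _ hb
    · left
      refine ⟨?_, ?_⟩
      · show M.rs f _ b = 0
        unfold Netw.rs
        rw [if_pos]
        exact hb
      · show M.tl (M.rd b.1) = M.tl f
        rw [hLL _ hb]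
  · intro b u hb hu hut
    refine ⟨?_, Or.inr ⟨M.hd f, ?_, (rep_at_out M f hLL' hu _).2 hut⟩⟩
    · intro h
      apply hu
      rw [← h]
      exact hb
    · right
      refine ⟨?_, ?_⟩
      · show M.t b.1 = M.len (M.rd b.1)
        rw [b.2 hb, hb]
      · show M.hd (M.rd b.1) = M.hd f
        rw [hb]
  · intro b b' hb hb' hbb
    refine ⟨hbb, Or.inl ⟨?_, ?_, ?_⟩⟩
    · show M.rd b.1 = M.rd b'.1
      rw [hb, hb']
    · have h1 := (M.rep f {b | b ∈ (M.SA f).image bf}).st b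
      have h2 : (M.rep f {b | b ∈ (M.SA f).image bf}).t b = M.len f := b.2 hb
      have h3 : (M.rep f {b | b ∈ (M.SA f).image bf}).t b' = M.len f := b'.2 hb'
      omega
    · have h1 := (M.rep f {b | b ∈ (M.SA f).image bf}).st b'
      have h2 : (M.rep f {b | b ∈ (M.SA f).image bf}).t b = M.len f := b.2 hb
      have h3 : (M.rep f {b | b ∈ (M.SA f).image bf}).t b' = M.len f := b'.2 hb'
      omega

/-- If not all vertices of `f` contain `hd f`, then the part outside `f` has a colouring with a set `L` of `|SA|` colours free at both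
ends of `f`, inside a set `Y` of `|SB|` colours free at the head. (Colour `G'` of `replace`, `L = c(LL)`, `Y = c(SB)`.) -/
theorem replace_col {V N E : Type} [Fintype V] {M : Netw V N E} {G : SimpleGraph V} {n : ℕ} (hC : Crit M G n) (f : E)
    (hne : M.tl f ≠ M.hd f) (Q : V → Set V) (hQ : StripFam M G f Q) (hS : ∃ v, M.rd v = f ∧ M.t v ≠ M.len f) :
    ∃ (φ : V → ℕ) (L Y : Finset ℕ), ColOn G n {v | M.rd v ≠ f} φ ∧ L ⊆ Y ∧ Y ⊆ Finset.range n ∧
      L.card = (M.SA f).card ∧ Y.card = (M.SB f).card ∧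
      (∀ u, M.rd u ≠ f → M.At u (M.tl f) → φ u ∉ L) ∧ ∀ u, M.rd u ≠ f → M.At u (M.hd f) → φ u ∉ Y := by
  classical
  obtain ⟨M', G', LL, hN', hmin, hsub, hcard, hadj, hLa, hLb, hLc⟩ := replace hC.net f hne Q hQ
  have hlt : Fintype.card {v // M.rd v = f → M.t v = M.len f} < Fintype.card V := by
    obtain ⟨v, hv1, hv2⟩ := hS
    exact Fintype.card_subtype_lt (x := v) (fun h => hv2 (h hv1))
  obtain ⟨c, hc1, hc2⟩ := hC.minor M' G' hN' hlt hmin
  have hout : ∀ v, M.rd v ≠ f → (M.rd v = f → M.t v = M.len f) := fun v hv h => absurd h hv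
  have hin : ∀ v ∈ M.SB f, (M.rd v = f → M.t v = M.len f) := fun v hv _ => (Finset.mem_filter.1 hv).2.2
  have hφ : ∀ v (h : M.rd v = f → M.t v = M.len f),
      (if h : (M.rd v = f → M.t v = M.len f) then c ⟨v, h⟩ else 0) = c ⟨v, h⟩ := fun v h => dif_pos h
  have hinj : ∀ u ∈ M.SB f, ∀ v ∈ M.SB f,
      (if h : (M.rd u = f → M.t u = M.len f) then c ⟨u, h⟩ else 0) =
        (if h : (M.rd v = f → M.t v = M.len f) then c ⟨v, h⟩ else 0) → u = v := by
    intro u hu v hv h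
    rw [hφ u (hin u hu), hφ v (hin v hv)] at h
    by_contra hne'
    refine hc2 ⟨u, hin u hu⟩ ⟨v, hin v hv⟩ (hLc _ _ (Finset.mem_filter.1 hu).2.1 (Finset.mem_filter.1 hv).2.1 ?_) h
    intro h1
    exact hne' (congrArg Subtype.val h1)
  refine ⟨fun v => if h : (M.rd v = f → M.t v = M.len f) then c ⟨v, h⟩ else 0,
    LL.image (fun v => if h : (M.rd v = f → M.t v = M.len f) then c ⟨v, h⟩ else 0),
    (M.SB f).image (fun v => if h : (M.rd v = f → M.t v = M.len f) then c ⟨v, h⟩ else 0),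
    ⟨?_, ?_⟩, Finset.image_subset_image hsub, ?_, ?_, ?_, ?_, ?_⟩
  · intro v hv
    show (if h : (M.rd v = f → M.t v = M.len f) then c ⟨v, h⟩ else 0) < n
    rw [hφ v (hout v hv)]
    exact hc1 _
  · intro u hu v hv huv
    show (if h : (M.rd u = f → M.t u = M.len f) then c ⟨u, h⟩ else 0) ≠
      (if h : (M.rd v = f → M.t v = M.len f) then c ⟨v, h⟩ else 0)
    rw [hφ u (hout u hu), hφ v (hout v hv)]
    exact hc2 _ _ (hadj _ _ hu hv huv)
  · intro x hx
    obtain ⟨v, hv, rfl⟩ := Finset.mem_image.1 hx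
    rw [Finset.mem_range, hφ v (hin v hv)]
    exact hc1 _
  · rw [← hcard]
    exact Finset.card_image_of_injOn (fun u hu v hv h =>
      hinj u (hsub (Finset.mem_coe.1 hu)) v (hsub (Finset.mem_coe.1 hv)) h)
  · exact Finset.card_image_of_injOn (fun u hu v hv h => hinj u (Finset.mem_coe.1 hu) v (Finset.mem_coe.1 hv) h)
  · intro u hu hut hmem
    obtain ⟨b, hb, hbu⟩ := Finset.mem_image.1 hmem
    have hbu' : (if h : (M.rd b = f → M.t b = M.len f) then c ⟨b, h⟩ else 0) =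
      (if h : (M.rd u = f → M.t u = M.len f) then c ⟨u, h⟩ else 0) := hbu
    rw [hφ u (hout u hu), hφ b (hin b (hsub hb))] at hbu'
    exact hc2 _ _ (hLa ⟨b, hin b (hsub hb)⟩ ⟨u, hout u hu⟩ hb hu hut) hbu'
  · intro u hu hut hmem
    obtain ⟨b, hb, hbu⟩ := Finset.mem_image.1 hmem
    have hbu' : (if h : (M.rd b = f → M.t b = M.len f) then c ⟨b, h⟩ else 0) =
      (if h : (M.rd u = f → M.t u = M.len f) then c ⟨u, h⟩ else 0) := hbu
    rw [hφ u (hout u hu), hφ b (hin b hb)] at hbu'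
    exact hc2 _ _ (hLb ⟨b, hin b hb⟩ ⟨u, hout u hu⟩ (Finset.mem_filter.1 hb).2.1 hu hut) hbu'

end Pool.Agent.Lib.MP_534936_co.Net
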