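import Pool.Agent.Lib.MP_534936_co.Net.Glue
import Pool.Agent.Lib.MP_534936_co.Net.Replace

/-!
# Putting the colouring of the strip and the one of the rest together (40 minutes)

`A = SA f`, `B = SB f` are cliques, so `c` is injective on them. `exists_perm2` gives `σ` with `σ (c(A)) ⊆ X`, `σ (c(B)) ⊆ Y`. Colour `v` on `f` by `σ (c v)`, the others by `φ v`. A vertex `u` on `f` and a vertex `v` off `f` are adjacent
only if both contain `tl f` (then `u ∈ A`) or both contain `hd f` (then `u ∈ B`).
-/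

set_option autoImplicit false

namespace Pool.Agent.Lib.MP_534936_co.Net

open Pool.Agent.Lib.MP_534936_co

theorem extend_strip {V N E : Type} [Fintype V] {M : Netw V N E} {G : SimpleGraph V} (hG : IsNet G M) (n : ℕ) (f : E)
    (φ c : V → ℕ) (hφ : ColOn G n {v | M.rd v ≠ f} φ) (hc : ColOn G n {v | M.rd v = f} c) (X Y : Finset ℕ)
    (hX : X ⊆ Finset.range n) (hY : Y ⊆ Finset.range n) (h1 : X.card = (M.SA f).card) (h2 : Y.card = (M.SB f).card)
    (h3 : ((M.SA f).image c ∩ (M.SB f).image c).card = (X ∩ Y).card)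
    (hX' : ∀ u, M.rd u ≠ f → M.At u (M.tl f) → φ u ∉ X) (hY' : ∀ u, M.rd u ≠ f → M.At u (M.hd f) → φ u ∉ Y) :
    Col G n := by
  classical
  have memA : ∀ v, v ∈ M.SA f ↔ M.rd v = f ∧ M.s v = 0 := by intro v; simp [Netw.SA]
  have memB : ∀ v, v ∈ M.SB f ↔ M.rd v = f ∧ M.t v = M.len f := by intro v; simp [Netw.SB]
  have hAinj : Set.InjOn c (M.SA f : Set V) := by
    intro u hu v hv huv
    by_contra hne
    have hu' := (memA u).1 (Finset.mem_coe.1 hu)
    have hv' := (memA v).1 (Finset.mem_coe.1 hv)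
    have adj : G.Adj u v := (hG u v).2 ⟨hne, Or.inl ⟨hu'.1.trans hv'.1.symm,
      by rw [hu'.2]; exact Nat.zero_le _, by rw [hv'.2]; exact Nat.zero_le _⟩⟩
    exact hc.2 u hu'.1 v hv'.1 adj huv
  have hBinj : Set.InjOn c (M.SB f : Set V) := by
    intro u hu v hv huv
    by_contra hne
    have hu' := (memB u).1 (Finset.mem_coe.1 hu)
    have hv' := (memB v).1 (Finset.mem_coe.1 hv)
    have adj : G.Adj u v := (hG u v).2 ⟨hne, Or.inl ⟨hu'.1.trans hv'.1.symm,
      by rw [hv'.2, ← hu'.2]; exact M.st u, by rw [hu'.2, ← hv'.2]; exact M.st v⟩⟩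
    exact hc.2 u hu'.1 v hv'.1 adj huv
  have hAc : ((M.SA f).image c).card = X.card := by
    rw [Finset.card_image_of_injOn hAinj, h1]
  have hBc : ((M.SB f).image c).card = Y.card := by
    rw [Finset.card_image_of_injOn hBinj, h2]
  have hAr : (M.SA f).image c ⊆ Finset.range n := by
    intro i hi
    obtain ⟨v, hv, rfl⟩ := Finset.mem_image.1 hi
    exact Finset.mem_range.2 (hc.1 v ((memA v).1 hv).1)
  have hBr : (M.SB f).image c ⊆ Finset.range n := by
    intro i hi
    obtain ⟨v, hv, rfl⟩ := Finset.mem_image.1 hi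
    exact Finset.mem_range.2 (hc.1 v ((memB v).1 hv).1)
  obtain ⟨σ, hσ, hσA, hσB⟩ := exists_perm2 n _ _ X Y hAr hBr hX hY hAc hBc h3
  have key : ∀ u v, M.rd u = f → M.rd v ≠ f → G.Adj u v → σ (c u) ≠ φ v := by
    intro u v hu hv huv he
    rcases ((hG u v).1 huv).2 with h | ⟨x, hx, hx'⟩
    · exact hv (h.1.symm.trans hu)
    · rcases hx with ⟨hs, ht⟩ | ⟨hs, ht⟩
      · rw [hu] at ht
        rw [← ht] at hx'
        apply hX' v hv hx'
        rw [← he]
        exact hσA _ (Finset.mem_image_of_mem c ((memA u).2 ⟨hu, hs⟩))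
      · rw [hu] at hs ht
        rw [← ht] at hx'
        apply hY' v hv hx'
        rw [← he]
        exact hσB _ (Finset.mem_image_of_mem c ((memB u).2 ⟨hu, hs⟩))
  refine ⟨fun v => if M.rd v = f then σ (c v) else φ v, ?_, ?_⟩
  · intro v
    by_cases hv : M.rd v = f
    · simp only [hv, if_true]
      exact hσ _ (hc.1 v hv)
    · simp only [hv, if_false]
      exact hφ.1 v hv
  · intro u v huv
    by_cases hu : M.rd u = f
    · by_cases hv : M.rd v = f
      · simp only [hu, hv, if_true]
        intro he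
        exact hc.2 u hu v hv huv (σ.injective he)
      · simp only [hu, hv, if_true, if_false]
        exact key u v hu hv huv
    · by_cases hv : M.rd v = f
      · simp only [hu, hv, if_true, if_false]
        exact fun he => key v u hv hu huv.symm he.symm
      · simp only [hu, hv, if_false]
        exact hφ.2 u hu v hv huv

end Pool.Agent.Lib.MP_534936_co.Net
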