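import Pool.Agent.Lib.MP_534936_co.Net.LineDefs

/-!
# Shifting the colours of a fan (60 minutes)

New colours: `g i` gets `c (g (i + 1))` for `i < r`, `g r` gets `β`, the others keep their colour. The `g i` are different (`w i` is the other node of `g i`). Check an edge `u u'` of `G`: both not in the fan: clear. `u = g i`, `u'` not in the fan, common node `y`: `g (i+1) ≠ u'` have different colours (`u' ≠ e`), `β` is
missing at `y`; common node `w i`: the new colour is missing there. `u = g i`, `u' = g j`: `g (i+1)`, `g (j+1)` are different vertices at `y`, and `β` is missing at `y`.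
-/

set_option autoImplicit false

namespace Pool.Agent.Lib.MP_534936_co.Net

open Pool.Agent.Lib.MP_534936_co

theorem FanA_inj {V N : Type} {p q : V → N} {y v : N} {e : V} {c : V → ℕ} {r : ℕ} {w : ℕ → N} {g : ℕ → V}
    (hF : Fan p q c y v e r w g) (i j : ℕ) (hi : i ≤ r) (hj : j ≤ r) (h : g i = g j) : i = j := by
  apply hF.inj i j hi hj
  have h1 := hF.incw j hj
  rw [← h] at h1
  exact inc_two (hF.incy i hi) (hF.incw i hi) h1 (hF.ney i hi).symm (hF.ney j hj).symm

theorem fan_shift {V N : Type} (G : SimpleGraph V) (p q : V → N) (hL : LineG G p q) (n : ℕ) (y v : N) (e : V)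
    (c : V → ℕ) (hc : ColOn G n {u | u ≠ e} c) (r : ℕ) (w : ℕ → N) (g : ℕ → V) (hF : Fan p q c y v e r w g) (β : ℕ)
    (hβ : β < n) (hy : ∀ u, Inc p q u y → u ≠ e → c u ≠ β) (hw : ∀ u, Inc p q u (w r) → u ≠ e → c u ≠ β) :
    Col G n := by
  classical
  obtain ⟨F, hFlt, hFr⟩ : ∃ F : ℕ → ℕ, (∀ i, i < r → F i = c (g (i + 1))) ∧ F r = β := by
    refine ⟨fun i => if i < r then c (g (i + 1)) else β, ?_, ?_⟩
    · intro i hi
      exact if_pos hi
    · exact if_neg (lt_irrefl r)
  obtain ⟨c', hin, hout⟩ : ∃ c' : V → ℕ, (∀ i, i ≤ r → c' (g i) = F i) ∧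
      ∀ u, (¬ ∃ i, i ≤ r ∧ g i = u) → c' u = c u := by
    refine ⟨fun u => if h : ∃ i, i ≤ r ∧ g i = u then F h.choose else c u, ?_, ?_⟩
    · intro i hi
      have h : ∃ j, j ≤ r ∧ g j = g i := ⟨i, hi, rfl⟩
      show (if h : ∃ j, j ≤ r ∧ g j = g i then F h.choose else c (g i)) = F i
      rw [dif_pos h]
      exact congrArg F (FanA_inj hF _ _ h.choose_spec.1 hi h.choose_spec.2)
    · intro u hu
      exact dif_neg hu
  have hne0 : ∀ u, (¬ ∃ i, i ≤ r ∧ g i = u) → u ≠ e := by
    intro u hu he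
    exact hu ⟨0, Nat.zero_le r, hF.g0.trans he.symm⟩
  have hFn : ∀ i, i ≤ r → F i < n := by
    intro i hi
    rcases Nat.lt_or_ge i r with h | h
    · rw [hFlt i h]
      exact hc.1 (g (i + 1)) (hF.nee (i + 1) h (Nat.succ_pos i))
    · have h2 : i = r := le_antisymm hi h
      rw [h2, hFr]
      exact hβ
  have hadj : ∀ u u' : V, u ≠ e → u' ≠ e → u ≠ u' → Inc p q u y → Inc p q u' y → c u ≠ c u' := by
    intro u u' hu hu' hne h1 h2
    exact hc.2 u hu u' hu' ((hL.adj u u').2 ⟨hne, y, h1, h2⟩)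
  have hmiss : ∀ i, i ≤ r → ∀ u, Inc p q u (w i) → u ≠ e → c u ≠ F i := by
    intro i hi u hu hue
    rcases Nat.lt_or_ge i r with h | h
    · rw [hFlt i h]
      exact hF.miss i h u hu hue
    · have h2 : i = r := le_antisymm hi h
      rw [h2, hFr]
      rw [h2] at hu
      exact hw u hu hue
  have hone : ∀ i, i ≤ r → ∀ u, (¬ ∃ j, j ≤ r ∧ g j = u) → G.Adj (g i) u → F i ≠ c u := by
    intro i hi u hu hA
    have hue := hne0 u hu
    obtain ⟨hne, x, hx1, hx2⟩ := (hL.adj (g i) u).1 hA
    by_cases hxy : y = x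
    · rw [← hxy] at hx2
      rcases Nat.lt_or_ge i r with h | h
      · rw [hFlt i h]
        exact hadj (g (i + 1)) u (hF.nee (i + 1) h (Nat.succ_pos i)) hue (fun h3 => hu ⟨i + 1, h, h3⟩)
          (hF.incy (i + 1) h) hx2
      · have h2 : i = r := le_antisymm hi h
        rw [h2, hFr]
        exact (hy u hx2 hue).symm
    · have h3 : w i = x := inc_two (hF.incy i hi) (hF.incw i hi) hx1 (hF.ney i hi).symm hxy
      rw [← h3] at hx2
      exact (hmiss i hi u hx2 hue).symm
  have htwo : ∀ i j, i < j → j ≤ r → F i ≠ F j := by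
    intro i j hij hj
    have hir : i < r := lt_of_lt_of_le hij hj
    rw [hFlt i hir]
    rcases Nat.lt_or_ge j r with h | h
    · rw [hFlt j h]
      refine hadj _ _ (hF.nee (i + 1) hir (Nat.succ_pos i)) (hF.nee (j + 1) h (Nat.succ_pos j)) ?_
        (hF.incy (i + 1) hir) (hF.incy (j + 1) h)
      intro h4
      have := FanA_inj hF (i + 1) (j + 1) hir h h4
      omega
    · have h2 : j = r := le_antisymm hj h
      rw [h2, hFr]
      exact hy _ (hF.incy (i + 1) hir) (hF.nee (i + 1) hir (Nat.succ_pos i))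
  refine ⟨c', ?_, ?_⟩
  · intro u
    by_cases hu : ∃ i, i ≤ r ∧ g i = u
    · obtain ⟨i, hi, rfl⟩ := hu
      rw [hin i hi]
      exact hFn i hi
    · rw [hout u hu]
      exact hc.1 u (hne0 u hu)
  · intro u u' hA
    by_cases hu : ∃ i, i ≤ r ∧ g i = u
    · obtain ⟨i, hi, rfl⟩ := hu
      by_cases hu' : ∃ i, i ≤ r ∧ g i = u'
      · obtain ⟨j, hj, rfl⟩ := hu'
        rw [hin i hi, hin j hj]
        rcases lt_trichotomy i j with h | h | h
        · exact htwo i j h hj
        · exact absurd (congrArg g h) hA.ne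
        · exact (htwo j i h hi).symm
      · rw [hin i hi, hout u' hu']
        exact hone i hi u' hu' hA
    · by_cases hu' : ∃ i, i ≤ r ∧ g i = u'
      · obtain ⟨j, hj, rfl⟩ := hu'
        rw [hin j hj, hout u hu]
        exact (hone j hj u hu hA.symm).symm
      · rw [hout u hu, hout u' hu']
        exact hc.2 u (hne0 u hu) u' (hne0 u' hu') hA

end Pool.Agent.Lib.MP_534936_co.Net
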