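import Pool.Agent.Lib.MP_534936_co.Net.FanA

/-!
# Kempe chains of a fan (90 minutes)

`kg c e α β`: the graph on the vertices `≠ e` of colours `α`, `β`. Strong induction on `r` (for all `c`? no: `c` fixed, statement for smaller fans with the same `c`). By `fan_shift` there are `a` at `y` of colour `α` and `b` at `w r` of colour `β`. Suppose `a` is not reachable from `b`. `P` = vertices reachable from `b` in `kg`. Swap `α` and `β`
on `P`: a proper colouring `c'` of `{u ≠ e}`. `g i` (`0 < i ≤ r`) keeps its colour: it is at `y`, so its colour is not `β`, and if it is `α` then `g i = a ∉ P`. The fan is a fan for `c'`: let `i < r` and `γ = c (g (i + 1))`; `γ ≠ β`; if `γ ≠ α` nothing changes; if `γ = α`, then `w i` misses `α`, by induction the `β`-vertex of `w i` is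
reachable from `a`, so it is not in `P` and `α` is still missing at `w i`. `β` is missing at `y` (`a ∉ P`) and at `w r` (`b ∈ P` is now `α`, no vertex there had colour `α`). `fan_shift` for `c'`.
-/

set_option autoImplicit false

namespace Pool.Agent.Lib.MP_534936_co.Net

open Pool.Agent.Lib.MP_534936_co

/-- the Kempe graph of the colours `α`, `β` -/
def kg {V : Type} (G : SimpleGraph V) (c : V → ℕ) (e : V) (α β : ℕ) : SimpleGraph V where
  Adj u v := G.Adj u v ∧ u ≠ e ∧ v ≠ e ∧ (c u = α ∨ c u = β) ∧ (c v = α ∨ c v = β)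
  symm := ⟨fun _ _ h => ⟨h.1.symm, h.2.2.1, h.2.1, h.2.2.2.2, h.2.2.2.1⟩⟩
  loopless := ⟨fun _ h => h.1.ne rfl⟩

theorem FanB_mono {V N : Type} {p q : V → N} {y v : N} {e : V} {c : V → ℕ} {r : ℕ} {w : ℕ → N} {g : ℕ → V}
    (hF : Fan p q c y v e r w g) (i : ℕ) (hi : i ≤ r) : Fan p q c y v e i w g where
  w0 := hF.w0
  g0 := hF.g0
  incy := fun j hj => hF.incy j (hj.trans hi)
  incw := fun j hj => hF.incw j (hj.trans hi)
  ney := fun j hj => hF.ney j (hj.trans hi)
  inj := fun j k hj hk => hF.inj j k (hj.trans hi) (hk.trans hi)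
  nee := fun j hj => hF.nee j (hj.trans hi)
  miss := fun j hj => hF.miss j (lt_of_lt_of_le hj hi)

theorem FanB_reach {V : Type} {G : SimpleGraph V} {c : V → ℕ} {e : V} {α β : ℕ} {b u : V} (hb : b ≠ e)
    (hcb : c b = β) (h : (kg G c e α β).Reachable b u) : u ≠ e ∧ (c u = α ∨ c u = β) := by
  obtain ⟨p⟩ := h.symm
  cases p with
  | nil => exact ⟨hb, Or.inr hcb⟩
  | cons h' _ => exact ⟨h'.2.1, h'.2.2.2.1⟩

theorem fan_kempe {V N : Type} (G : SimpleGraph V) (p q : V → N) (hL : LineG G p q) (n : ℕ) (hno : ¬ Col G n)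
    (y v : N) (e : V) (c : V → ℕ) (hc : ColOn G n {u | u ≠ e} c) (α β : ℕ) (hα : α < n) (hβ : β < n)
    (hy : ∀ u, Inc p q u y → u ≠ e → c u ≠ β) (r : ℕ) (w : ℕ → N) (g : ℕ → V) (hF : Fan p q c y v e r w g)
    (hw : ∀ u, Inc p q u (w r) → u ≠ e → c u ≠ α) :
    ∃ a b, a ≠ e ∧ b ≠ e ∧ Inc p q a y ∧ c a = α ∧ Inc p q b (w r) ∧ c b = β ∧ (kg G c e α β).Reachable a b := by
  classical
  induction r using Nat.strong_induction_on with
  | _ r ih =>
  obtain ⟨a, ha, hae, hca⟩ : ∃ a, Inc p q a y ∧ a ≠ e ∧ c a = α := by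
    by_contra hcon
    refine hno (fan_shift G p q hL n y v e c hc r w g hF α hα ?_ hw)
    intro u h1 h2 h3
    exact hcon ⟨u, h1, h2, h3⟩
  obtain ⟨b, hb, hbe, hcb⟩ : ∃ b, Inc p q b (w r) ∧ b ≠ e ∧ c b = β := by
    by_contra hcon
    refine hno (fan_shift G p q hL n y v e c hc r w g hF β hβ hy ?_)
    intro u h1 h2 h3
    exact hcon ⟨u, h1, h2, h3⟩
  by_cases hR : (kg G c e α β).Reachable a b
  · exact ⟨a, b, hae, hbe, ha, hca, hb, hcb, hR⟩
  exfalso
  have hαβ : α ≠ β := fun h => hy a ha hae (hca.trans h)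
  -- two vertices at one node with one colour are equal
  have huniq : ∀ x u u', Inc p q u x → Inc p q u' x → u ≠ e → u' ≠ e → c u = c u' → u = u' := by
    intro x u u' h1 h2 h3 h4 h5
    by_contra hne
    exact hc.2 u h3 u' h4 ((hL.adj u u').2 ⟨hne, x, h1, h2⟩) h5
  obtain ⟨P, hP⟩ : ∃ P : V → Prop, ∀ u, P u ↔ (kg G c e α β).Reachable b u := ⟨_, fun _ => Iff.rfl⟩
  have hPp : ∀ u, P u → u ≠ e ∧ (c u = α ∨ c u = β) := fun u hu => FanB_reach hbe hcb ((hP u).1 hu)
  have hPb : P b := (hP b).2 (SimpleGraph.Reachable.refl b)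
  have hPa : ¬ P a := fun h => hR ((hP a).1 h).symm
  obtain ⟨c', h1, h2, h3⟩ : ∃ c' : V → ℕ, (∀ u, ¬ P u → c' u = c u) ∧ (∀ u, P u → c u = α → c' u = β) ∧
      (∀ u, P u → c u = β → c' u = α) := by
    refine ⟨fun u => if P u then (if c u = α then β else α) else c u, ?_, ?_, ?_⟩
    · intro u hu
      exact if_neg hu
    · intro u hu h
      show (if P u then (if c u = α then β else α) else c u) = β
      rw [if_pos hu, if_pos h]
    · intro u hu h
      show (if P u then (if c u = α then β else α) else c u) = α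
      rw [if_pos hu, if_neg (fun h' => hαβ (h'.symm.trans h))]
  have hval : ∀ u, P u → c' u = α ∨ c' u = β := by
    intro u hu
    rcases (hPp u hu).2 with h | h
    · exact Or.inr (h2 u hu h)
    · exact Or.inl (h3 u hu h)
  have hmix : ∀ u u', P u → ¬ P u' → u' ≠ e → G.Adj u u' → c' u ≠ c' u' := by
    intro u u' hu hu' hue hA h
    rw [h1 u' hu'] at h
    apply hu'
    rw [hP]
    have hadj : (kg G c e α β).Adj u u' := by
      refine ⟨hA, (hPp u hu).1, hue, (hPp u hu).2, ?_⟩
      rcases hval u hu with h' | h'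
      · exact Or.inl (h.symm.trans h')
      · exact Or.inr (h.symm.trans h')
    exact ((hP u).1 hu).trans hadj.reachable
  have hc' : ColOn G n {u | u ≠ e} c' := by
    refine ⟨?_, ?_⟩
    · intro u hu
      by_cases hPu : P u
      · rcases hval u hPu with h | h
        · rw [h]; exact hα
        · rw [h]; exact hβ
      · rw [h1 u hPu]
        exact hc.1 u hu
    · intro u hu u' hu' hA
      by_cases hPu : P u
      · by_cases hPu' : P u'
        · have hne := hc.2 u hu u' hu' hA
          rcases (hPp u hPu).2 with h | h <;> rcases (hPp u' hPu').2 with h' | h'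
          · exact absurd (h.trans h'.symm) hne
          · rw [h2 u hPu h, h3 u' hPu' h']
            exact hαβ.symm
          · rw [h3 u hPu h, h2 u' hPu' h']
            exact hαβ
          · exact absurd (h.trans h'.symm) hne
        · exact hmix u u' hPu hPu' hu' hA
      · by_cases hPu' : P u'
        · exact (hmix u' u hPu' hPu hu hA.symm).symm
        · rw [h1 u hPu, h1 u' hPu']
          exact hc.2 u hu u' hu' hA
  -- vertices at `y` are not in `P`
  have hyP : ∀ u, Inc p q u y → u ≠ e → ¬ P u := by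
    intro u hu hue hPu
    rcases (hPp u hPu).2 with h | h
    · have h' := huniq y u a hu ha hue hae (h.trans hca.symm)
      rw [h'] at hPu
      exact hPa hPu
    · exact hy u hu hue h
  have hy' : ∀ u, Inc p q u y → u ≠ e → c' u ≠ β := by
    intro u hu hue
    rw [h1 u (hyP u hu hue)]
    exact hy u hu hue
  have hw' : ∀ u, Inc p q u (w r) → u ≠ e → c' u ≠ β := by
    intro u hu hue h
    by_cases hPu : P u
    · rcases (hPp u hPu).2 with h' | h'
      · exact hw u hu hue h'
      · rw [h3 u hPu h'] at h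
        exact hαβ h
    · rw [h1 u hPu] at h
      have h' := huniq (w r) u b hu hb hue hbe (h.trans hcb.symm)
      rw [h'] at hPu
      exact hPu hPb
  have hF' : Fan p q c' y v e r w g := by
    refine ⟨hF.w0, hF.g0, hF.incy, hF.incw, hF.ney, hF.inj, hF.nee, ?_⟩
    intro i hi u hu hue
    have hg1 : Inc p q (g (i + 1)) y := hF.incy (i + 1) hi
    have hg2 : g (i + 1) ≠ e := hF.nee (i + 1) hi (Nat.succ_pos i)
    rw [h1 (g (i + 1)) (hyP _ hg1 hg2)]
    by_cases hPu : P u
    · intro h
      have hγ : c (g (i + 1)) ≠ β := hy _ hg1 hg2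
      rcases (hPp u hPu).2 with h' | h'
      · rw [h2 u hPu h'] at h
        exact hγ h.symm
      · rw [h3 u hPu h'] at h
        obtain ⟨a', b', ha'e, hb'e, ha', hca', hb', hcb', hR'⟩ := ih i hi (FanB_mono hF i hi.le) (by
          intro u' hu' hue' h''
          exact hF.miss i hi u' hu' hue' (h''.trans h))
        have e1 := huniq y a' a ha' ha ha'e hae (hca'.trans hca.symm)
        have e2 := huniq (w i) b' u hb' hu hb'e hue (hcb'.trans h'.symm)
        rw [e1, e2] at hR'
        exact hR (hR'.trans ((hP u).1 hPu).symm)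
    · rw [h1 u hPu]
      exact hF.miss i hi u hu hue
  exact hno (fan_shift G p q hL n y v e c' hc' r w g hF' β hβ hy' hw')

end Pool.Agent.Lib.MP_534936_co.Net
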