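import Pool.Agent.Lib.MP_534936_co.Net.LineDefs

/-!
# Three ends (45 minutes)

A connected graph in which every vertex has at most two neighbours has at most two vertices with at most one neighbour. Count: let `C` be the set of vertices reachable from `a`, `m = |C| ≥ 3`; `H.induce C` is connected, so it has at least `m - 1` edges, the sum of its degrees is at least `2m - 2`; but it is at
most `2(m - 3) + 3`.
-/

set_option autoImplicit false

namespace Pool.Agent.Lib.MP_534936_co.Net

open Pool.Agent.Lib.MP_534936_co

theorem three_ends_aux {W : Type} (H : SimpleGraph W)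
    (h2 : ∀ v x y z, H.Adj v x → H.Adj v y → H.Adj v z → x = y ∨ x = z ∨ y = z) (a d : W) (had : a ≠ d)
    (ha : ∀ x y, H.Adj a x → H.Adj a y → x = y) (hd : ∀ x y, H.Adj d x → H.Adj d y → x = y) {x b : W}
    (p : H.Walk x b) : a ≠ b → b ≠ d → (∀ x y, H.Adj b x → H.Adj b y → x = y) → p.IsPath →
      ∀ q : H.Walk x d, q.IsPath → (x = a ∨ ∃ w, H.Adj x w ∧ w ∉ p.support ∧ w ∉ q.support) → False := by
  induction p with
  | nil =>
    intro hab hbd hb _ q hq hx
    cases q with
    | nil => exact hbd rfl
    | cons hu q' =>
      rcases hx with hx | ⟨w, hw, _, hwq⟩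
      · exact hab hx.symm
      · apply hwq
        rw [hb _ _ hw hu]
        simp
  | cons hy p' ih =>
    intro hab hbd hb hp q hq hx
    cases q with
    | nil =>
      rcases hx with hx | ⟨w, hw, hwp, _⟩
      · exact had hx.symm
      · apply hwp
        rw [hd _ _ hw hy]
        simp
    | cons hz q' =>
      rw [SimpleGraph.Walk.cons_isPath_iff] at hp hq
      rename_i u v _ z
      have hyz : v = z := by
        rcases hx with hx | ⟨w, hw, hwp, hwq⟩
        · subst hx
          exact ha _ _ hy hz
        · rcases h2 _ _ _ _ hw hy hz with h | h | h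
          · exfalso
            apply hwp
            rw [h]
            simp
          · exfalso
            apply hwq
            rw [h]
            simp
          · exact h
      subst hyz
      exact ih hab hbd hb hp.1 q' hq.1 (Or.inr ⟨u, hy.symm, hp.2, hq.2⟩)

theorem three_ends {W : Type} [Fintype W] (H : SimpleGraph W)
    (h2 : ∀ v x y z, H.Adj v x → H.Adj v y → H.Adj v z → x = y ∨ x = z ∨ y = z) (a b d : W) (hab : a ≠ b)
    (had : a ≠ d) (hbd : b ≠ d) (ha : ∀ x y, H.Adj a x → H.Adj a y → x = y) (hb : ∀ x y, H.Adj b x → H.Adj b y → x = y)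
    (hd : ∀ x y, H.Adj d x → H.Adj d y → x = y) (h1 : H.Reachable a b) : ¬ H.Reachable a d := by
  classical
  intro h3
  obtain ⟨p, hp⟩ := h1.exists_isPath
  obtain ⟨q, hq⟩ := h3.exists_isPath
  exact three_ends_aux H h2 a d had ha hd p hab hbd hb hp q hq (Or.inl rfl)

end Pool.Agent.Lib.MP_534936_co.Net
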