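import Pool.Agent.Lib.MP_534936_co.Net.FanB
import Pool.Agent.Lib.MP_534936_co.Net.ThreeEnds

/-!
# Different nodes of a fan miss different colours (60 minutes)

Let two fans end at different nodes `x`, `x'` which both miss `α`; `β` missing at `y`. `fan_kempe` for both: `a` at `y` of colour `α` (the same for both: two vertices at `y` of the same colour are equal), `b` at `x`, `b'` at `x'` of colour `β`, both reachable from `a` in `H = kg G c e α β`. `a ≠ b, b'` (colours; `α ≠ β`, since `a` is at `y` and `y` misses `β`). If `b = b'`, then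
`b` has the nodes `x`, `x'`, both miss `α`, so `b` has no neighbour in `H`; but it is reachable from `a ≠ b`: contradiction. Otherwise `three_ends` (put `H` on `V`): a vertex `u` of colour `α` has at most one neighbour of colour `β` at each of its two nodes, so `H` has maximum degree 2; `a` has no `β` neighbour at `y`, `b` no `α` neighbour at `x`, `b'` none at `x'`.
-/

set_option autoImplicit false

namespace Pool.Agent.Lib.MP_534936_co.Net

open Pool.Agent.Lib.MP_534936_co

private theorem fanC_same {V N : Type} (G : SimpleGraph V) (p q : V → N) (hL : LineG G p q) (n : ℕ) (e : V) (c : V → ℕ)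
    (hc : ColOn G n {u | u ≠ e} c) (u v : V) (hu : u ≠ e) (hv : v ≠ e) (z : N) (huz : Inc p q u z) (hvz : Inc p q v z)
    (hcc : c u = c v) : u = v := by
  by_contra hne
  exact hc.2 u hu v hv ((hL.adj u v).2 ⟨hne, z, huz, hvz⟩) hcc

/-- a neighbour in the Kempe graph: other colour, common node -/
private theorem fanC_nb {V N : Type} (G : SimpleGraph V) (p q : V → N) (hL : LineG G p q) (n : ℕ) (e : V) (c : V → ℕ)
    (hc : ColOn G n {u | u ≠ e} c) (α β : ℕ) (u v : V) (h : (kg G c e α β).Adj u v) :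
    v ≠ e ∧ (∃ z, Inc p q u z ∧ Inc p q v z) ∧ (c u = α → c v = β) ∧ (c u = β → c v = α) := by
  obtain ⟨hG, hu, hv, h1, h2⟩ := h
  have hne : c u ≠ c v := hc.2 u hu v hv hG
  refine ⟨hv, ((hL.adj u v).1 hG).2, ?_, ?_⟩
  · intro h3
    rcases h2 with h2 | h2
    · exact absurd (h3.trans h2.symm) hne
    · exact h2
  · intro h3
    rcases h2 with h2 | h2
    · exact h2
    · exact absurd (h3.trans h2.symm) hne

/-- a vertex with a node at which no vertex has the other colour has at most one neighbour -/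
private theorem fanC_end {V N : Type} (G : SimpleGraph V) (p q : V → N) (hL : LineG G p q) (n : ℕ) (e : V) (c : V → ℕ)
    (hc : ColOn G n {u | u ≠ e} c) (α β γ δ : ℕ) (a : V) (x : N) (hax : Inc p q a x)
    (hcol : ∀ u, (kg G c e α β).Adj a u → c u = δ) (hmiss : ∀ u, Inc p q u x → u ≠ e → c u ≠ δ) (_ : c a = γ) :
    ∀ u u', (kg G c e α β).Adj a u → (kg G c e α β).Adj a u' → u = u' := by
  intro u u' hu hu'
  obtain ⟨hue, ⟨z, haz, huz⟩, -, -⟩ := fanC_nb G p q hL n e c hc α β a u hu
  obtain ⟨hue', ⟨z', haz', huz'⟩, -, -⟩ := fanC_nb G p q hL n e c hc α β a u' hu'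
  have h1 : x ≠ z := by
    rintro rfl
    exact hmiss u huz hue (hcol u hu)
  have h2 : x ≠ z' := by
    rintro rfl
    exact hmiss u' huz' hue' (hcol u' hu')
  have h3 : z = z' := inc_two hax haz haz' h1 h2
  subst h3
  exact fanC_same G p q hL n e c hc u u' hue hue' z huz huz' ((hcol u hu).trans (hcol u' hu').symm)

private theorem fanC_two {V N : Type} (G : SimpleGraph V) (p q : V → N) (hL : LineG G p q) (n : ℕ) (e : V) (c : V → ℕ)
    (hc : ColOn G n {u | u ≠ e} c) (α β : ℕ) :
    ∀ v x y z, (kg G c e α β).Adj v x → (kg G c e α β).Adj v y → (kg G c e α β).Adj v z → x = y ∨ x = z ∨ y = z := by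
  intro v x y z hx hy hz
  obtain ⟨hxe, ⟨i, hvi, hxi⟩, hx1, hx2⟩ := fanC_nb G p q hL n e c hc α β v x hx
  obtain ⟨hye, ⟨j, hvj, hyj⟩, hy1, hy2⟩ := fanC_nb G p q hL n e c hc α β v y hy
  obtain ⟨hze, ⟨k, hvk, hzk⟩, hz1, hz2⟩ := fanC_nb G p q hL n e c hc α β v z hz
  have hcol : c x = c y ∧ c x = c z ∧ c y = c z := by
    rcases hx.2.2.2.1 with h | h
    · exact ⟨(hx1 h).trans (hy1 h).symm, (hx1 h).trans (hz1 h).symm, (hy1 h).trans (hz1 h).symm⟩
    · exact ⟨(hx2 h).trans (hy2 h).symm, (hx2 h).trans (hz2 h).symm, (hy2 h).trans (hz2 h).symm⟩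
  by_cases hij : i = j
  · subst hij
    exact Or.inl (fanC_same G p q hL n e c hc x y hxe hye i hxi hyj hcol.1)
  · by_cases hik : i = k
    · subst hik
      exact Or.inr (Or.inl (fanC_same G p q hL n e c hc x z hxe hze i hxi hzk hcol.2.1))
    · have hjk : j = k := inc_two hvi hvj hvk hij hik
      subst hjk
      exact Or.inr (Or.inr (fanC_same G p q hL n e c hc y z hye hze j hyj hzk hcol.2.2))

theorem fan_disj {V N : Type} [Fintype V] (G : SimpleGraph V) (p q : V → N) (hL : LineG G p q) (n : ℕ)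
    (hno : ¬ Col G n) (y v : N) (e : V) (c : V → ℕ) (hc : ColOn G n {u | u ≠ e} c) (α β : ℕ) (hα : α < n) (hβ : β < n)
    (hy : ∀ u, Inc p q u y → u ≠ e → c u ≠ β) (r r' : ℕ) (w w' : ℕ → N) (g g' : ℕ → V) (hF : Fan p q c y v e r w g)
    (hF' : Fan p q c y v e r' w' g') (hw : ∀ u, Inc p q u (w r) → u ≠ e → c u ≠ α)
    (hw' : ∀ u, Inc p q u (w' r') → u ≠ e → c u ≠ α) : w r = w' r' := by
  by_contra hne
  obtain ⟨a, b, hae, hbe, hay, hca, hbx, hcb, hab⟩ :=
    fan_kempe G p q hL n hno y v e c hc α β hα hβ hy r w g hF hw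
  obtain ⟨a', b', hae', hbe', hay', hca', hbx', hcb', hab'⟩ :=
    fan_kempe G p q hL n hno y v e c hc α β hα hβ hy r' w' g' hF' hw'
  have haa : a = a' := fanC_same G p q hL n e c hc a a' hae hae' y hay hay' (hca.trans hca'.symm)
  subst haa
  have hαβ : α ≠ β := by
    intro h
    exact hy a hay hae (hca.trans h)
  have hne1 : a ≠ b := by
    rintro rfl
    exact hαβ (hca.symm.trans hcb)
  have hne2 : a ≠ b' := by
    rintro rfl
    exact hαβ (hca.symm.trans hcb')
  have hbcol : ∀ u, (kg G c e α β).Adj b u → c u = α := fun u hu =>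
    (fanC_nb G p q hL n e c hc α β b u hu).2.2.2 hcb
  have hbcol' : ∀ u, (kg G c e α β).Adj b' u → c u = α := fun u hu =>
    (fanC_nb G p q hL n e c hc α β b' u hu).2.2.2 hcb'
  have hacol : ∀ u, (kg G c e α β).Adj a u → c u = β := fun u hu =>
    (fanC_nb G p q hL n e c hc α β a u hu).2.2.1 hca
  by_cases hbb : b = b'
  · subst hbb
    obtain ⟨W⟩ := hab.symm
    cases W with
    | nil => exact hne1 rfl
    | cons h _ =>
      obtain ⟨hue, ⟨z, hbz, huz⟩, -, -⟩ := fanC_nb G p q hL n e c hc α β b _ h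
      have h1 : w r ≠ z := by
        rintro rfl
        exact hw _ huz hue (hbcol _ h)
      have h2 : w' r' = z := inc_two hbx hbx' hbz hne h1
      subst h2
      exact hw' _ huz hue (hbcol _ h)
  · exact three_ends (kg G c e α β) (fanC_two G p q hL n e c hc α β) a b b' hne1 hne2 hbb
      (fanC_end G p q hL n e c hc α β α β a y hay hacol hy hca)
      (fanC_end G p q hL n e c hc α β β α b (w r) hbx hbcol hw hcb)
      (fanC_end G p q hL n e c hc α β β α b' (w' r') hbx' hbcol' hw' hcb') hab hab'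

end Pool.Agent.Lib.MP_534936_co.Net
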