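import Pool.Agent.Lib.MP_534936_co.Net.FanC

/-!
# The fan inequality (90 minutes)

`F` = nodes which are the last node of a fan (finite: they are nodes of vertices at `y`); `v ∈ F` (`r = 0`, `g 0 = e`). (1) closed: if `w ∈ F`, `α < n` is missing at `w`, `u ≠ e` is at `y` with `c u = α`, then the other node `w'` of `u` is in `F` (`w' = w i` for some `i ≤ r`: shorten the fan, `Fan` with `r := i`; otherwise extend it).
(2) `C x` = colours `< n` missing at `x` (for vertices `≠ e`). `C x ∩ C y = ∅` for `x ∈ F` (`fan_shift`), `C x ∩ C x' = ∅` for `x ≠ x'` in `F` (`fan_disj`; `C y ≠ ∅`: at most `|K y| - 1 ≤ n - 1` colours are used at `y`). (3) Every `α ∈ C x`, `x ∈ F`, is the colour of exactly one vertex `u ≠ e` at `y` (not missing at `y`), its other node is in `F`. So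
`∑_{x ∈ F} |C x| ≤ #{u ≠ e at y with the other node in F} = ∑_{x ∈ F} mu y x - 1`. (4) `n ≤ |C x| + |K x|` for all `x`, `n + 1 ≤ |C v| + |K v|`. Add.
-/

set_option autoImplicit false

namespace Pool.Agent.Lib.MP_534936_co.Net

open Pool.Agent.Lib.MP_534936_co

/-- the node `x` is the last node of a fan -/
def FanCount_End {V N : Type} (p q : V → N) (c : V → ℕ) (y v : N) (e : V) (x : N) : Prop :=
  ∃ (r : ℕ) (w : ℕ → N) (g : ℕ → V), Fan p q c y v e r w g ∧ w r = x

theorem FanCount_start {V N : Type} (p q : V → N) (c : V → ℕ) (y v : N) (hyv : y ≠ v) (e : V)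
    (hey : Inc p q e y) (hev : Inc p q e v) : FanCount_End p q c y v e v := by
  refine ⟨0, fun _ => v, fun _ => e, ⟨rfl, rfl, fun _ _ => hey, fun _ _ => hev, fun _ _ => hyv.symm, ?_, ?_, ?_⟩, rfl⟩
  · intro i j hi hj _
    omega
  · intro i hi h0
    omega
  · intro i hi
    omega

theorem FanCount_closed {V N : Type} (p q : V → N) (c : V → ℕ) (y v : N) (e : V) (x x' : N) (α : ℕ)
    (hx : FanCount_End p q c y v e x) (hα : ∀ u, Inc p q u x → u ≠ e → c u ≠ α) (u : V) (hue : u ≠ e)
    (huy : Inc p q u y) (hux : Inc p q u x') (hxy : x' ≠ y) (hcu : c u = α) : FanCount_End p q c y v e x' := by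
  classical
  obtain ⟨r, w, g, hF, rfl⟩ := hx
  by_cases h : ∃ i, i ≤ r ∧ w i = x'
  · obtain ⟨i, hi, rfl⟩ := h
    exact ⟨i, w, g, ⟨hF.w0, hF.g0, fun j hj => hF.incy j (hj.trans hi), fun j hj => hF.incw j (hj.trans hi),
      fun j hj => hF.ney j (hj.trans hi), fun j k hj hk => hF.inj j k (hj.trans hi) (hk.trans hi),
      fun j hj => hF.nee j (hj.trans hi), fun j hj => hF.miss j (lt_of_lt_of_le hj hi)⟩, rfl⟩
  · have hne : ∀ i, i ≤ r → w i ≠ x' := fun i hi he => h ⟨i, hi, he⟩
    have hwl : ∀ i, i ≤ r → (if i ≤ r then w i else x') = w i := fun i hi => if_pos hi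
    have hwr : ∀ i, ¬ i ≤ r → (if i ≤ r then w i else x') = x' := fun i hi => if_neg hi
    have hgl : ∀ i, i ≤ r → (if i ≤ r then g i else u) = g i := fun i hi => if_pos hi
    have hgr : ∀ i, ¬ i ≤ r → (if i ≤ r then g i else u) = u := fun i hi => if_neg hi
    refine ⟨r + 1, fun i => if i ≤ r then w i else x', fun i => if i ≤ r then g i else u,
      ⟨?_, ?_, ?_, ?_, ?_, ?_, ?_, ?_⟩, hwr (r + 1) (by omega)⟩
    · exact (hwl 0 (Nat.zero_le r)).trans hF.w0
    · exact (hgl 0 (Nat.zero_le r)).trans hF.g0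
    · intro i hi
      by_cases hir : i ≤ r
      · simp only [hgl i hir]
        exact hF.incy i hir
      · simp only [hgr i hir]
        exact huy
    · intro i hi
      by_cases hir : i ≤ r
      · simp only [hgl i hir, hwl i hir]
        exact hF.incw i hir
      · simp only [hgr i hir, hwr i hir]
        exact hux
    · intro i hi
      by_cases hir : i ≤ r
      · simp only [hwl i hir]
        exact hF.ney i hir
      · simp only [hwr i hir]
        exact hxy
    · intro i j hi hj hij
      by_cases hir : i ≤ r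
      · by_cases hjr : j ≤ r
        · simp only [hwl i hir, hwl j hjr] at hij
          exact hF.inj i j hir hjr hij
        · simp only [hwl i hir, hwr j hjr] at hij
          exact absurd hij (hne i hir)
      · by_cases hjr : j ≤ r
        · simp only [hwr i hir, hwl j hjr] at hij
          exact absurd hij.symm (hne j hjr)
        · omega
    · intro i hi h0
      by_cases hir : i ≤ r
      · simp only [hgl i hir]
        exact hF.nee i hir h0
      · simp only [hgr i hir]
        exact hue
    · intro i hi u' hu' hue'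
      by_cases hir : i + 1 ≤ r
      · simp only [hgl (i + 1) hir]
        have hi' : i ≤ r := by omega
        simp only [hwl i hi'] at hu'
        exact hF.miss i (by omega) u' hu' hue'
      · have hi' : i = r := by omega
        subst hi'
        simp only [hgr (i + 1) hir]
        simp only [hwl i le_rfl] at hu'
        rw [hcu]
        exact hα u' hu' hue'

open Classical in
/-- the colours missing at `x` -/
noncomputable def FanCount_C {V N : Type} (p q : V → N) (c : V → ℕ) (e : V) (n : ℕ) (x : N) : Finset ℕ :=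
  (Finset.range n).filter (fun α => ∀ u, Inc p q u x → u ≠ e → c u ≠ α)

theorem FanCount_mem {V N : Type} (p q : V → N) (c : V → ℕ) (e : V) (n : ℕ) (x : N) (α : ℕ) :
    α ∈ FanCount_C p q c e n x ↔ α < n ∧ ∀ u, Inc p q u x → u ≠ e → c u ≠ α := by
  classical
  unfold FanCount_C
  rw [Finset.mem_filter, Finset.mem_range]

open Classical in
theorem FanCount_le {V N : Type} [Fintype V] (p q : V → N) (c : V → ℕ) (e : V) (n : ℕ) (x : N) :
    n ≤ (FanCount_C p q c e n x).card + ((Kn p q x).erase e).card := by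
  have h1 : Finset.range n ⊆ FanCount_C p q c e n x ∪ ((Kn p q x).erase e).image c := by
    intro α hα
    rw [Finset.mem_range] at hα
    rw [Finset.mem_union]
    by_cases h : ∀ u, Inc p q u x → u ≠ e → c u ≠ α
    · exact Or.inl ((FanCount_mem p q c e n x α).2 ⟨hα, h⟩)
    · right
      push Not at h
      obtain ⟨u, hu1, hu2, hu3⟩ := h
      exact Finset.mem_image.2 ⟨u, Finset.mem_erase.2 ⟨hu2, (mem_Kn p q x u).2 hu1⟩, hu3⟩
  calc n = (Finset.range n).card := (Finset.card_range n).symm
    _ ≤ (FanCount_C p q c e n x ∪ ((Kn p q x).erase e).image c).card := Finset.card_le_card h1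
    _ ≤ (FanCount_C p q c e n x).card + (((Kn p q x).erase e).image c).card := Finset.card_union_le _ _
    _ ≤ _ := Nat.add_le_add_left Finset.card_image_le _

theorem fan_count {V N : Type} [Fintype V] (G : SimpleGraph V) (p q : V → N) (hL : LineG G p q) (n : ℕ)
    (hno : ¬ Col G n) (y v : N) (hyv : y ≠ v) (e : V) (hey : Inc p q e y) (hev : Inc p q e v) (c : V → ℕ)
    (hc : ColOn G n {u | u ≠ e} c) (hd : (Kn p q y).card ≤ n) :
    ∃ F : Finset N, v ∈ F ∧ (∀ x ∈ F, x ≠ y ∧ 0 < mu p q y x) ∧
      n * F.card + 2 ≤ ∑ x ∈ F, (mu p q y x + (Kn p q x).card) := by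
  classical
  have heK : ∀ x, Inc p q e x → ((Kn p q x).erase e).card + 1 = (Kn p q x).card := fun x hx =>
    Finset.card_erase_add_one ((mem_Kn p q x e).2 hx)
  -- the other node
  obtain ⟨o, ho1, ho2⟩ : ∃ o : V → N, (∀ u, Inc p q u y → Inc p q u (o u) ∧ o u ≠ y) ∧
      ∀ u x, Inc p q u y → Inc p q u x → x ≠ y → o u = x := by
    refine ⟨fun u => if y = p u then q u else p u, ?_, ?_⟩
    · intro u hu
      by_cases h : y = p u
      · simp only [if_pos h]
        exact ⟨Or.inr rfl, by rw [h]; exact (hL.ne u).symm⟩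
      · simp only [if_neg h]
        exact ⟨Or.inl rfl, fun h' => h h'.symm⟩
    · intro u x hu hx hxy
      by_cases h : y = p u
      · simp only [if_pos h]
        rcases hx with hx | hx
        · exact absurd (hx.trans h.symm) hxy
        · exact hx.symm
      · simp only [if_neg h]
        rcases hu with hu | hu
        · exact absurd hu h
        · rcases hx with hx | hx
          · exact hx.symm
          · exact absurd (hx.trans hu.symm) hxy
  obtain ⟨F, hFmem⟩ : ∃ F : Finset N, ∀ x, x ∈ F ↔ (∃ u, Inc p q u y ∧ o u = x) ∧ FanCount_End p q c y v e x := by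
    refine ⟨((Kn p q y).image o).filter (fun x => FanCount_End p q c y v e x), ?_⟩
    intro x
    rw [Finset.mem_filter, Finset.mem_image]
    refine and_congr_left' ?_
    constructor
    · rintro ⟨u, hu, rfl⟩
      exact ⟨u, (mem_Kn p q y u).1 hu, rfl⟩
    · rintro ⟨u, hu, rfl⟩
      exact ⟨u, (mem_Kn p q y u).2 hu, rfl⟩
  have hoe : o e = v := ho2 e v hey hev hyv.symm
  have hvF : v ∈ F := (hFmem v).2 ⟨⟨e, hey, hoe⟩, FanCount_start p q c y v hyv e hey hev⟩
  have hFy : ∀ x ∈ F, x ≠ y := by
    intro x hx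
    obtain ⟨⟨u, hu, rfl⟩, _⟩ := (hFmem x).1 hx
    exact (ho1 u hu).2
  have hmu : ∀ x, x ≠ y → mu p q y x = ((Kn p q y).filter (fun u => o u = x)).card := by
    intro x hx
    unfold mu
    congr 1
    ext u
    simp only [Finset.mem_filter, Finset.mem_univ, true_and, mem_Kn]
    constructor
    · rintro ⟨h1, h2⟩
      exact ⟨h1, ho2 u x h1 h2 hx⟩
    · rintro ⟨h1, rfl⟩
      exact ⟨h1, (ho1 u h1).1⟩
  refine ⟨F, hvF, ?_, ?_⟩
  · intro x hx
    refine ⟨hFy x hx, ?_⟩
    rw [hmu x (hFy x hx), Finset.card_pos]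
    obtain ⟨⟨u, hu, hux⟩, _⟩ := (hFmem x).1 hx
    exact ⟨u, Finset.mem_filter.2 ⟨(mem_Kn p q y u).2 hu, hux⟩⟩
  · -- a colour missing at `y`
    obtain ⟨β, hβ⟩ : (FanCount_C p q c e n y).Nonempty := by
      rw [← Finset.card_pos]
      have h1 := FanCount_le p q c e n y
      have h2 := heK y hey
      omega
    have hβ' := (FanCount_mem p q c e n y β).1 hβ
    have hdy : ∀ x ∈ F, ∀ α ∈ FanCount_C p q c e n x, α ∉ FanCount_C p q c e n y := by
      intro x hx α hα hαy
      obtain ⟨_, r, w, g, hF, rfl⟩ := (hFmem x).1 hx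
      have h1 := (FanCount_mem p q c e n _ α).1 hα
      have h2 := (FanCount_mem p q c e n _ α).1 hαy
      exact hno (fan_shift G p q hL n y v e c hc r w g hF α h1.1 h2.2 h1.2)
    have hdisj : ∀ x ∈ F, ∀ x' ∈ F, x ≠ x' →
        Disjoint (FanCount_C p q c e n x) (FanCount_C p q c e n x') := by
      intro x hx x' hx' hne
      rw [Finset.disjoint_left]
      intro α hα hα'
      obtain ⟨_, r, w, g, hF, rfl⟩ := (hFmem x).1 hx
      obtain ⟨_, r', w', g', hF', rfl⟩ := (hFmem x').1 hx'
      have h1 := (FanCount_mem p q c e n _ α).1 hα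
      have h2 := (FanCount_mem p q c e n _ α).1 hα'
      exact hne (fan_disj G p q hL n hno y v e c hc α β h1.1 hβ'.1 hβ'.2 r r' w w' g g' hF hF' h1.2 h2.2)
    have hU : ∑ x ∈ F, (FanCount_C p q c e n x).card ≤
        (((Kn p q y).filter (fun u => o u ∈ F)).erase e).card := by
      rw [← Finset.card_biUnion hdisj]
      refine le_trans (Finset.card_le_card ?_) (Finset.card_image_le (f := c))
      intro α hα
      rw [Finset.mem_biUnion] at hα
      obtain ⟨x, hx, hαx⟩ := hα
      have h1 := (FanCount_mem p q c e n x α).1 hαx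
      have h2 := hdy x hx α hαx
      have h3 : ¬ ∀ u, Inc p q u y → u ≠ e → c u ≠ α := fun h =>
        h2 ((FanCount_mem p q c e n y α).2 ⟨h1.1, h⟩)
      push Not at h3
      obtain ⟨u, huy, hue, hcu⟩ := h3
      have h4 := ho1 u huy
      have h5 : FanCount_End p q c y v e (o u) :=
        FanCount_closed p q c y v e x (o u) α ((hFmem x).1 hx).2 h1.2 u hue huy h4.1 h4.2 hcu
      exact Finset.mem_image.2 ⟨u, Finset.mem_erase.2 ⟨hue, Finset.mem_filter.2
        ⟨(mem_Kn p q y u).2 huy, (hFmem (o u)).2 ⟨⟨u, huy, rfl⟩, h5⟩⟩⟩, hcu⟩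
    have hsum : ((Kn p q y).filter (fun u => o u ∈ F)).card = ∑ x ∈ F, mu p q y x := by
      have hmaps : Set.MapsTo o (((Kn p q y).filter (fun u => o u ∈ F) : Finset V) : Set V) (F : Set N) :=
        fun u hu => (Finset.mem_filter.1 (Finset.mem_coe.1 hu)).2
      refine (Finset.card_eq_sum_card_fiberwise hmaps).trans ?_
      refine Finset.sum_congr rfl ?_
      intro x hx
      rw [hmu x (hFy x hx), Finset.filter_filter]
      congr 1
      ext u
      simp only [Finset.mem_filter]
      constructor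
      · rintro ⟨h1, _, h3⟩
        exact ⟨h1, h3⟩
      · rintro ⟨h1, h3⟩
        exact ⟨h1, by rw [h3]; exact hx, h3⟩
    have heU : e ∈ (Kn p q y).filter (fun u => o u ∈ F) :=
      Finset.mem_filter.2 ⟨(mem_Kn p q y e).2 hey, by rw [hoe]; exact hvF⟩
    have hU1 := Finset.card_erase_add_one heU
    -- colours and degrees
    have hterm : ∀ x, n + (if x = v then 1 else 0) ≤ (FanCount_C p q c e n x).card + (Kn p q x).card := by
      intro x
      have h1 := FanCount_le p q c e n x
      have h2 : ((Kn p q x).erase e).card ≤ (Kn p q x).card := Finset.card_le_card (Finset.erase_subset _ _)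
      by_cases hx : x = v
      · have h3 := heK v hev
        rw [if_pos hx]
        rw [hx] at h1 ⊢
        omega
      · rw [if_neg hx]
        omega
    have hall : ∑ x ∈ F, (n + (if x = v then 1 else 0)) ≤
        ∑ x ∈ F, ((FanCount_C p q c e n x).card + (Kn p q x).card) :=
      Finset.sum_le_sum (fun x _ => hterm x)
    rw [Finset.sum_add_distrib, Finset.sum_add_distrib, Finset.sum_const, smul_eq_mul,
      Finset.sum_ite_eq' F v, if_pos hvF] at hall
    rw [Finset.sum_add_distrib, ← hsum]
    have h6 : F.card * n = n * F.card := mul_comm _ _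
    omega

end Pool.Agent.Lib.MP_534936_co.Net
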