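import Pool.Agent.Lib.MP_534936_co.Net.Basic

/-!
# Intervals on networks are generalized quasi-line graphs (40 minutes)

Take `u ∈ S` with `t u - s u` smallest, `f = rd u`. `A` = vertices `v ≠ u` of `S` with (`rd v = f`, `s v ≤ s u ≤ t v`) or (`s u = 0` and `At v (tl f)`), `B` = those with (`rd v = f`, `s v ≤ t u ≤ t v`) or (`t u = len f` and `At v (hd f)`). Both are cliques. A neighbour of `u` which shares a position but is neither at `s u` nor at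
`t u` would be strictly inside, hence shorter.
-/

set_option autoImplicit false

namespace Pool.Agent.Lib.MP_534936_co.Net

open Pool.Agent.Lib.MP_534936_co

theorem gql_net {V N E : Type} [Fintype V] (M : Netw V N E) (G : SimpleGraph V) (hG : IsNet G M) (S : Set V)
    (hS : S.Nonempty) : ∃ u ∈ S, ∃ A B : Set V, G.IsClique A ∧ G.IsClique B ∧ A ∪ B = {v | v ∈ S ∧ G.Adj u v} := by
  obtain ⟨u, hu, hmin⟩ := (Set.toFinite S).exists_minimalFor (fun v => M.t v - M.s v) S hS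
  have hmin' : ∀ v ∈ S, M.t u - M.s u ≤ M.t v - M.s v := by
    intro v hv
    rcases le_total (M.t v - M.s v) (M.t u - M.s u) with h | h
    · exact hmin hv h
    · exact h
  have hst := M.st u
  have htl := M.tlen u
  refine ⟨u, hu,
    {v | v ∈ S ∧ v ≠ u ∧ ((M.rd v = M.rd u ∧ M.s v ≤ M.s u ∧ M.s u ≤ M.t v) ∨ (M.s u = 0 ∧ M.At v (M.tl (M.rd u))))},
    {v | v ∈ S ∧ v ≠ u ∧ ((M.rd v = M.rd u ∧ M.s v ≤ M.t u ∧ M.t u ≤ M.t v) ∨
      (M.t u = M.len (M.rd u) ∧ M.At v (M.hd (M.rd u))))}, ?_, ?_, ?_⟩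
  · rintro v ⟨_, _, hv⟩ w ⟨_, _, hw⟩ hne
    rw [hG]
    refine ⟨hne, ?_⟩
    rcases hv with ⟨v1, v2, v3⟩ | ⟨v1, v2⟩ <;> rcases hw with ⟨w1, w2, w3⟩ | ⟨w1, w2⟩
    · exact Or.inl ⟨v1.trans w1.symm, v2.trans w3, w2.trans v3⟩
    · refine Or.inr ⟨_, Or.inl ⟨by omega, ?_⟩, w2⟩
      rw [v1]
    · refine Or.inr ⟨_, v2, Or.inl ⟨by omega, ?_⟩⟩
      rw [w1]
    · exact Or.inr ⟨_, v2, w2⟩
  · rintro v ⟨_, _, hv⟩ w ⟨_, _, hw⟩ hne
    rw [hG]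
    refine ⟨hne, ?_⟩
    have hv4 := M.tlen v
    have hw4 := M.tlen w
    rcases hv with ⟨v1, v2, v3⟩ | ⟨v1, v2⟩ <;> rcases hw with ⟨w1, w2, w3⟩ | ⟨w1, w2⟩
    · exact Or.inl ⟨v1.trans w1.symm, v2.trans w3, w2.trans v3⟩
    · rw [v1] at hv4
      refine Or.inr ⟨_, Or.inr ⟨?_, ?_⟩, w2⟩
      · rw [v1]
        omega
      · rw [v1]
    · rw [w1] at hw4
      refine Or.inr ⟨_, v2, Or.inr ⟨?_, ?_⟩⟩
      · rw [w1]
        omega
      · rw [w1]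
    · exact Or.inr ⟨_, v2, w2⟩
  · ext v
    constructor
    · rintro (⟨h1, h2, h3⟩ | ⟨h1, h2, h3⟩)
      · refine ⟨h1, (hG u v).2 ⟨fun h => h2 h.symm, ?_⟩⟩
        rcases h3 with ⟨h4, h5, h6⟩ | ⟨h4, h5⟩
        · exact Or.inl ⟨h4.symm, h6, h5.trans hst⟩
        · exact Or.inr ⟨_, Or.inl ⟨h4, rfl⟩, h5⟩
      · refine ⟨h1, (hG u v).2 ⟨fun h => h2 h.symm, ?_⟩⟩
        rcases h3 with ⟨h4, h5, h6⟩ | ⟨h4, h5⟩
        · exact Or.inl ⟨h4.symm, hst.trans h6, h5⟩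
        · exact Or.inr ⟨_, Or.inr ⟨h4, rfl⟩, h5⟩
    · rintro ⟨h1, h2⟩
      obtain ⟨h3, h4⟩ := (hG u v).1 h2
      have h5 : v ≠ u := fun h => h3 h.symm
      have h6 := hmin' v h1
      have h7 := M.st v
      rcases h4 with ⟨h8, h9, h10⟩ | ⟨x, h8, h9⟩
      · by_cases h11 : M.s v ≤ M.s u
        · exact Or.inl ⟨h1, h5, Or.inl ⟨h8.symm, h11, h9⟩⟩
        · exact Or.inr ⟨h1, h5, Or.inl ⟨h8.symm, h10, by omega⟩⟩
      · rcases h8 with ⟨h10, h11⟩ | ⟨h10, h11⟩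
        · exact Or.inl ⟨h1, h5, Or.inr ⟨h10, by rw [h11]; exact h9⟩⟩
        · exact Or.inr ⟨h1, h5, Or.inr ⟨h10, by rw [h11]; exact h9⟩⟩

end Pool.Agent.Lib.MP_534936_co.Net
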