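import Pool.Agent.Lib.MP_534936_co.Net.RealNet
import Pool.Agent.Lib.MP_534936_co.Net.GqlNet

/-!
# Final form, given the theorem for circular-arc graphs
-/

set_option autoImplicit false

namespace Pool.Agent.Lib.MP_534936_co.Net

open Pool.Agent.Lib.MP_534936_co

theorem final_net (hT : Circ) (V N E : Type) [Fintype V] (G : SimpleGraph V) (tl hd : E → N) (rd : V → E)
    (s t : V → ℝ) (hst : ∀ v, 0 ≤ s v ∧ s v ≤ t v ∧ t v ≤ 1)
    (hG : ∀ u v, G.Adj u v ↔ u ≠ v ∧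
      ((rd u = rd v ∧ ∃ z : ℝ, (s u ≤ z ∧ z ≤ t u) ∧ (s v ≤ z ∧ z ≤ t v)) ∨
        ∃ x : N, ((s u = 0 ∧ tl (rd u) = x) ∨ (t u = 1 ∧ hd (rd u) = x)) ∧
          ((s v = 0 ∧ tl (rd v) = x) ∨ (t v = 1 ∧ hd (rd v) = x)))) :
    (∀ S : Set V, S.Nonempty →
      ∃ u ∈ S, ∃ A B : Set V, G.IsClique A ∧ G.IsClique B ∧
        A ∪ B = {v | v ∈ S ∧ G.Adj u v}) ∧
    ∀ k : ℕ, G.chromaticNumber = (k : ℕ∞) →
      ∃ f : Fin k → Set V,
        (∀ i, (G.induce (f i)).Connected) ∧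
        (∀ i j, i ≠ j →
          Disjoint (f i) (f j) ∧ ∃ x ∈ f i, ∃ y ∈ f j, G.Adj x y) := by
  obtain ⟨M, hM⟩ := real_net tl hd rd s t (fun v => (hst v).1) (fun v => (hst v).2.1) (fun v => (hst v).2.2) G (by
    intro u v
    rw [hG u v]
    refine and_congr_right fun _ => or_congr ?_ Iff.rfl
    refine and_congr_right fun _ => ?_
    constructor
    · rintro ⟨z, ⟨h1, h2⟩, h3, h4⟩
      exact ⟨h1.trans h4, h3.trans h2⟩
    · rintro ⟨h1, h2⟩
      rcases le_total (s u) (s v) with h | h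
      · exact ⟨s v, ⟨h, h2⟩, le_refl _, (hst v).2.1⟩
      · exact ⟨s u, ⟨le_refl _, (hst u).2.1⟩, h, h1⟩)
  refine ⟨fun S hS => gql_net M G hM S hS, fun k hk => ?_⟩
  cases k with
  | zero => exact ⟨fun i => i.elim0, fun i => i.elim0, fun i => i.elim0⟩
  | succ n =>
    refine net_hadwiger hT M G hM n ?_
    rintro ⟨c, hc1, hc2⟩
    have hcol : G.Colorable n :=
      ⟨SimpleGraph.Coloring.mk (fun v => (⟨c v, hc1 v⟩ : Fin n)) (fun {u v} huv h =>
        hc2 u v huv (congrArg Fin.val h))⟩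
    have h1 := hcol.chromaticNumber_le
    rw [hk] at h1
    have h2 : n + 1 ≤ n := by exact_mod_cast h1
    omega

end Pool.Agent.Lib.MP_534936_co.Net
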