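import Pool.Agent.Lib.MP_534936_co.Net.Defs

/-!
# Line graphs of multigraphs
-/

set_option autoImplicit false

namespace Pool.Agent.Lib.MP_534936_co.Net

open Pool.Agent.Lib.MP_534936_co

/-- the vertex `v` (an edge of the multigraph joining `p v` and `q v`) contains the node `x` -/
def Inc {V N : Type} (p q : V → N) (v : V) (x : N) : Prop := x = p v ∨ x = q v

structure LineG {V N : Type} (G : SimpleGraph V) (p q : V → N) : Prop where
  ne : ∀ v, p v ≠ q v
  adj : ∀ u v, G.Adj u v ↔ u ≠ v ∧ ∃ x, Inc p q u x ∧ Inc p q v x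

open Classical in
/-- the vertices containing the node `x` -/
noncomputable def Kn {V N : Type} [Fintype V] (p q : V → N) (x : N) : Finset V :=
  Finset.univ.filter (fun v => Inc p q v x)

open Classical in
/-- the number of vertices containing `x` and `y` -/
noncomputable def mu {V N : Type} [Fintype V] (p q : V → N) (x y : N) : ℕ :=
  (Finset.univ.filter (fun v => Inc p q v x ∧ Inc p q v y)).card

theorem mem_Kn {V N : Type} [Fintype V] (p q : V → N) (x : N) (v : V) : v ∈ Kn p q x ↔ Inc p q v x := by
  classical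
  unfold Kn
  rw [Finset.mem_filter]
  exact ⟨fun h => h.2, fun h => ⟨Finset.mem_univ v, h⟩⟩

theorem mu_comm {V N : Type} [Fintype V] (p q : V → N) (x y : N) : mu p q x y = mu p q y x := by
  classical
  unfold mu
  refine congrArg Finset.card (Finset.filter_congr ?_)
  intro v _
  exact and_comm

/-- a vertex has only two nodes -/
theorem inc_two {V N : Type} {p q : V → N} {v : V} {x y z : N} (hx : Inc p q v x) (hy : Inc p q v y)
    (hz : Inc p q v z) (hxy : x ≠ y) (hxz : x ≠ z) : y = z := by
  rcases hx with hx | hx <;> rcases hy with hy | hy <;> rcases hz with hz | hz <;> subst hx <;>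
    first
    | exact hy.trans hz.symm
    | exact absurd hy.symm hxy
    | exact absurd hz.symm hxz

/-- a linear fan at `y`: `g 0 = e`, the colour of `g (i + 1)` is missing at the other node `w i` of `g i`; the nodes `w i` are different -/
structure Fan {V N : Type} (p q : V → N) (c : V → ℕ) (y v : N) (e : V) (r : ℕ) (w : ℕ → N) (g : ℕ → V) : Prop where
  w0 : w 0 = v
  g0 : g 0 = e
  incy : ∀ i, i ≤ r → Inc p q (g i) y
  incw : ∀ i, i ≤ r → Inc p q (g i) (w i)
  ney : ∀ i, i ≤ r → w i ≠ y
  inj : ∀ i j, i ≤ r → j ≤ r → w i = w j → i = j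
  nee : ∀ i, i ≤ r → 0 < i → g i ≠ e
  miss : ∀ i, i < r → ∀ u, Inc p q u (w i) → u ≠ e → c u ≠ c (g (i + 1))

end Pool.Agent.Lib.MP_534936_co.Net
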