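import Pool.Agent.Lib.MP_534936_co.Net.Minor

/-!
# No vertex of a smallest counterexample has a clique as neighbourhood (20 minutes)

Colour `{u | u ≠ v}` by `Crit.sub`; `v` and its neighbours form a clique, so `v` has at most `n - 1` neighbours (`Crit.clique_le`); a colour is free.
-/

set_option autoImplicit false

namespace Pool.Agent.Lib.MP_534936_co.Net

open Pool.Agent.Lib.MP_534936_co

/-- extension of a colouring to one vertex with few neighbours -/
theorem col_of_few {V : Type} [Fintype V] (G : SimpleGraph V) (n : ℕ) (v : V) (c : V → ℕ) (hc : ColOn G n {u | u ≠ v} c)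
    (N : Finset V) (hN : ∀ u, G.Adj v u → u ∈ N) (hcard : N.card < n) : Col G n := by
  classical
  have h1 : ((Finset.range n) \ (N.image c)).Nonempty := by
    rw [← Finset.card_pos]
    have h2 := Finset.le_card_sdiff (N.image c) (Finset.range n)
    have h3 : (N.image c).card ≤ N.card := Finset.card_image_le
    rw [Finset.card_range] at h2
    omega
  obtain ⟨k, hk⟩ := h1
  rw [Finset.mem_sdiff, Finset.mem_range] at hk
  obtain ⟨hkn, hkN⟩ := hk
  have hfree : ∀ u, G.Adj v u → c u ≠ k := by
    intro u hu h
    exact hkN (Finset.mem_image.mpr ⟨u, hN u hu, h⟩)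
  refine ⟨fun u => if u = v then k else c u, ?_, ?_⟩
  · intro u
    show (if u = v then k else c u) < n
    split_ifs with h
    · exact hkn
    · exact hc.1 u h
  · intro u w huw
    show (if u = v then k else c u) ≠ (if w = v then k else c w)
    split_ifs with h1 h2 h2
    · exact absurd (h1.trans h2.symm) huw.ne
    · subst h1
      exact (hfree w huw).symm
    · subst h2
      exact hfree u huw.symm
    · exact hc.2 u h1 w h2 huw

theorem Crit.no_simplicial {V N E : Type} [Fintype V] {M : Netw V N E} {G : SimpleGraph V} {n : ℕ} (hC : Crit M G n)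
    (v : V) (hv : ∀ u w, G.Adj v u → G.Adj v w → u ≠ w → G.Adj u w) : False := by
  classical
  obtain ⟨c, hc⟩ := hC.sub {u | u ≠ v} ⟨v, fun h => h rfl⟩
  have hv0 : v ∉ Finset.univ.filter (fun u => G.Adj v u) := by
    intro h
    exact G.loopless.irrefl v (Finset.mem_filter.mp h).2
  have hcard : (insert v (Finset.univ.filter (fun u => G.Adj v u))).card ≤ n := by
    apply hC.clique_le
    intro a ha b hb hab
    rw [Finset.mem_insert, Finset.mem_filter] at ha hb
    rcases ha with ha | ha
    · rcases hb with hb | hb
      · exact absurd (ha.trans hb.symm) hab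
      · rw [ha]
        exact hb.2
    · rcases hb with hb | hb
      · rw [hb]
        exact ha.2.symm
      · exact hv a b ha.2 hb.2 hab
  rw [Finset.card_insert_of_notMem hv0] at hcard
  exact hC.nocol (col_of_few G n v c hc (Finset.univ.filter (fun u => G.Adj v u))
    (fun u hu => Finset.mem_filter.mpr ⟨Finset.mem_univ u, hu⟩) (by omega))

end Pool.Agent.Lib.MP_534936_co.Net
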