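import Pool.Agent.Lib.MP_534936_co.Net.Glue
import Pool.Agent.Lib.MP_534936_co.Net.Simplicial

/-!
# No vertex on a loop (90 minutes)

`x = tl f = hd f`, `S` = vertices on `f`, `O` = the others. A vertex of `S` and a vertex of `O` are adjacent only if both contain `x`. (1) If all `v ∈ S` contain `x`: `N(v) ⊆ K x`, `no_simplicial`. (2) If all vertices of `O` contain `x`: `G` is a circular-arc graph, circle of `N = len f + 2`
points, `len f + 1` is the node `x`: a vertex of `O` is the arc `{len + 1}`; `v ∈ S` with `s v = 0`, `t v < len`: start `len + 1`, length `t v + 1`; `s v > 0`, `t v = len`: start `s v`, length `len + 1 - s v`; `s v = 0`, `t v = len`: start `0`, length `len + 1`; otherwise start `s v`,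
length `t v - s v`. `hT` gives a minor. (3) Otherwise `Y` = vertices of `S` not containing `x`, `Z = K x`: `Y` is not empty and there is a vertex in `O` not in `K x`; `Crit.sub` for `{u | u ∉ Y}` and for `{u | u ∈ Y ∨ u ∈ K x}`, `glue`.
-/

set_option autoImplicit false

namespace Pool.Agent.Lib.MP_534936_co.Net

open Pool.Agent.Lib.MP_534936_co

section loop

variable {V N E : Type}

private theorem LoopStep_at {M : Netw V N E} {f : E} (hl : M.tl f = M.hd f) {u : V} (hu : M.rd u = f) (y : N) :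
    M.At u y ↔ y = M.tl f ∧ (M.s u = 0 ∨ M.t u = M.len f) := by
  unfold Netw.At
  rw [hu]
  constructor
  · rintro (⟨h1, h2⟩ | ⟨h1, h2⟩)
    · exact ⟨h2.symm, Or.inl h1⟩
    · exact ⟨by rw [hl]; exact h2.symm, Or.inr h1⟩
  · rintro ⟨h1, h2 | h2⟩
    · exact Or.inl ⟨h2, h1.symm⟩
    · exact Or.inr ⟨h2, by rw [← hl]; exact h1.symm⟩

/-- the starting point of the arc of `u` -/
private noncomputable def LoopStep_a (M : Netw V N E) (f : E) (u : V) : ℤ :=
  open Classical in
  if M.rd u = f then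
    (if M.s u = 0 then (if M.t u = M.len f then 0 else (M.len f : ℤ) + 1) else (M.s u : ℤ))
  else (M.len f : ℤ) + 1

private noncomputable def LoopStep_l (M : Netw V N E) (f : E) (u : V) : ℤ :=
  open Classical in
  if M.rd u = f then
    (if M.s u = 0 then (if M.t u = M.len f then (M.len f : ℤ) + 1 else (M.t u : ℤ) + 1)
      else (if M.t u = M.len f then (M.len f : ℤ) + 1 - M.s u else (M.t u : ℤ) - M.s u))
  else 0

private theorem LoopStep_range (M : Netw V N E) (f : E) (u : V) :
    (0 ≤ LoopStep_a M f u ∧ LoopStep_a M f u < (M.len f : ℤ) + 2) ∧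
      (0 ≤ LoopStep_l M f u ∧ LoopStep_l M f u < (M.len f : ℤ) + 2) := by
  classical
  have h1 := M.st u
  have h2 := M.tlen u
  have h3 := M.len_pos f
  unfold LoopStep_a LoopStep_l
  by_cases hf : M.rd u = f
  · rw [hf] at h2
    rw [if_pos hf, if_pos hf]
    by_cases hs : M.s u = 0
    · rw [if_pos hs, if_pos hs]
      by_cases ht : M.t u = M.len f
      · rw [if_pos ht, if_pos ht]
        omega
      · rw [if_neg ht, if_neg ht]
        omega
    · rw [if_neg hs, if_neg hs]
      by_cases ht : M.t u = M.len f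
      · rw [if_pos ht]
        omega
      · rw [if_neg ht]
        omega
  · rw [if_neg hf, if_neg hf]
    omega

private theorem LoopStep_mem {M : Netw V N E} {f : E} (hl : M.tl f = M.hd f)
    (hO : ∀ u, M.rd u ≠ f → M.At u (M.tl f)) (u : V) (p : ℤ) (hp : 0 ≤ p) (hp' : p < (M.len f : ℤ) + 2) :
    Mem ((M.len f : ℤ) + 2) (LoopStep_a M f) (LoopStep_l M f) u p ↔
      (M.rd u = f ∧ p ≤ M.len f ∧ (M.s u : ℤ) ≤ p ∧ p ≤ M.t u) ∨ (p = (M.len f : ℤ) + 1 ∧ M.At u (M.tl f)) := by
  classical
  obtain ⟨⟨ha, ha'⟩, -⟩ := LoopStep_range M f u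
  rw [mem_norm ha ha' hp hp']
  have h1 := M.st u
  have h2 := M.tlen u
  have h3 := M.len_pos f
  by_cases hf : M.rd u = f
  · rw [LoopStep_at hl hf (M.tl f)]
    rw [hf] at h2
    unfold LoopStep_a LoopStep_l
    rw [if_pos hf, if_pos hf]
    simp only [hf, true_and]
    by_cases hs : M.s u = 0
    · rw [if_pos hs, if_pos hs]
      by_cases ht : M.t u = M.len f
      · rw [if_pos ht, if_pos ht]
        omega
      · rw [if_neg ht, if_neg ht]
        omega
    · rw [if_neg hs, if_neg hs]
      by_cases ht : M.t u = M.len f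
      · rw [if_pos ht]
        omega
      · rw [if_neg ht]
        omega
  · have h4 := hO u hf
    unfold LoopStep_a LoopStep_l
    rw [if_neg hf, if_neg hf]
    simp only [hf, h4, false_and, false_or, and_true]
    omega

end loop

theorem loop_step {V N E : Type} [Fintype V] (hT : Circ) {M : Netw V N E} {G : SimpleGraph V} {n : ℕ}
    (hC : Crit M G n) (f : E) (hl : M.tl f = M.hd f) (v : V) : M.rd v ≠ f := by
  intro hv
  by_cases h1 : ∀ u, M.rd u = f → M.At u (M.tl f)
  · -- all vertices on the loop contain the node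
    have hN : ∀ u, G.Adj v u → M.At u (M.tl f) := by
      intro u hu
      by_cases hu' : M.rd u = f
      · exact h1 u hu'
      · obtain ⟨_, h2 | ⟨y, h3, h4⟩⟩ := (hC.net v u).1 hu
        · exact absurd (h2.1 ▸ hv) hu'
        · rw [((LoopStep_at hl hv y).1 h3).1] at h4
          exact h4
    exact hC.no_simplicial v (fun u w hu hw hne => adj_of_at hC.net (hN u hu) (hN w hw) hne)
  by_cases h2 : ∀ u, M.rd u ≠ f → M.At u (M.tl f)
  · -- circular-arc graph
    apply hC.nominor
    refine hT V ((M.len f : ℤ) + 2) (by omega) (LoopStep_a M f) (LoopStep_l M f)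
      (fun u => (LoopStep_range M f u).1) (fun u => (LoopStep_range M f u).2) G ?_ n hC.nocol
    intro u w
    rw [hC.net u w]
    refine and_congr_right (fun _ => ?_)
    have hat : ∀ u y, M.At u y → M.At u (M.tl f) := by
      intro u y h
      by_cases hu : M.rd u = f
      · rw [((LoopStep_at hl hu y).1 h).1] at h
        exact h
      · exact h2 u hu
    constructor
    · rintro (⟨h3, h4, h5⟩ | ⟨y, h3, h4⟩)
      · by_cases hu : M.rd u = f
        · have hw : M.rd w = f := h3 ▸ hu
          have hu1 := M.st u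
          have hw1 := M.st w
          have hu2 := M.tlen u
          have hw2 := M.tlen w
          rw [hu] at hu2
          rw [hw] at hw2
          refine ⟨max (M.s u : ℤ) (M.s w), ?_, ?_⟩
          · rw [LoopStep_mem hl h2 u _ (by omega) (by omega)]
            exact Or.inl ⟨hu, by omega, by omega, by omega⟩
          · rw [LoopStep_mem hl h2 w _ (by omega) (by omega)]
            exact Or.inl ⟨hw, by omega, by omega, by omega⟩
        · have hw : M.rd w ≠ f := fun h => hu (h3.trans h)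
          refine ⟨(M.len f : ℤ) + 1, ?_, ?_⟩
          · rw [LoopStep_mem hl h2 u _ (by omega) (by omega)]
            exact Or.inr ⟨rfl, h2 u hu⟩
          · rw [LoopStep_mem hl h2 w _ (by omega) (by omega)]
            exact Or.inr ⟨rfl, h2 w hw⟩
      · refine ⟨(M.len f : ℤ) + 1, ?_, ?_⟩
        · rw [LoopStep_mem hl h2 u _ (by omega) (by omega)]
          exact Or.inr ⟨rfl, hat u y h3⟩
        · rw [LoopStep_mem hl h2 w _ (by omega) (by omega)]
          exact Or.inr ⟨rfl, hat w y h4⟩
    · rintro ⟨p, hp1, hp2⟩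
      have hN : (0 : ℤ) < (M.len f : ℤ) + 2 := by omega
      have e1 := (mem_mod ((M.len f : ℤ) + 2) (LoopStep_a M f) (LoopStep_l M f) u p).2 hp1
      have e2 := (mem_mod ((M.len f : ℤ) + 2) (LoopStep_a M f) (LoopStep_l M f) w p).2 hp2
      have hq0 := Int.emod_nonneg p (ne_of_gt hN)
      have hq1 := Int.emod_lt_of_pos p hN
      rw [LoopStep_mem hl h2 u _ hq0 hq1] at e1
      rw [LoopStep_mem hl h2 w _ hq0 hq1] at e2
      rcases e1 with ⟨a1, a2, a3, a4⟩ | ⟨a1, a2⟩
      · rcases e2 with ⟨b1, b2, b3, b4⟩ | ⟨b1, b2⟩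
        · exact Or.inl ⟨a1.trans b1.symm, by omega, by omega⟩
        · omega
      · rcases e2 with ⟨b1, b2, b3, b4⟩ | ⟨b1, b2⟩
        · omega
        · exact Or.inr ⟨M.tl f, a2, b2⟩
  · -- clique cutset
    push Not at h1 h2
    obtain ⟨y0, hy0, hy0'⟩ := h1
    obtain ⟨o, ho, ho'⟩ := h2
    obtain ⟨c1, hc1⟩ := hC.sub {u | u ∉ {u | M.rd u = f ∧ ¬ M.At u (M.tl f)}} ⟨y0, fun h => h ⟨hy0, hy0'⟩⟩
    obtain ⟨c2, hc2⟩ := hC.sub {u | u ∈ {u | M.rd u = f ∧ ¬ M.At u (M.tl f)} ∨ u ∈ M.K (M.tl f)} ⟨o, by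
      rintro (h | h)
      · exact ho h.1
      · exact ho' ((mem_K M _ o).1 h)⟩
    have hZ : ∀ z ∈ M.K (M.tl f), M.At z (M.tl f) := fun z hz => (mem_K M _ z).1 hz
    have hYZ : ∀ z ∈ M.K (M.tl f), z ∉ {u | M.rd u = f ∧ ¬ M.At u (M.tl f)} := fun z hz h => h.2 (hZ z hz)
    apply hC.nocol
    refine glue G n {u | M.rd u = f ∧ ¬ M.At u (M.tl f)} (M.K (M.tl f)) hYZ ?_ c1 c2 hc1 ?_ hc2 ?_
    · rintro u ⟨hu, hu'⟩ w huw
      by_cases hw : M.At w (M.tl f)
      · exact Or.inr ((mem_K M _ w).2 hw)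
      · left
        obtain ⟨_, h3 | ⟨y, h3, h4⟩⟩ := (hC.net u w).1 huw
        · exact ⟨h3.1 ▸ hu, hw⟩
        · rw [((LoopStep_at hl hu y).1 h3).1] at h3
          exact absurd h3 hu'
    · intro z hz z' hz' hne
      exact hc1.2 z (hYZ z hz) z' (hYZ z' hz') (adj_of_at hC.net (hZ z hz) (hZ z' hz') hne)
    · intro z hz z' hz' hne
      exact hc2.2 z (Or.inr hz) z' (Or.inr hz') (adj_of_at hC.net (hZ z hz) (hZ z' hz') hne)

end Pool.Agent.Lib.MP_534936_co.Net
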