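import Pool.Agent.Lib.MP_534936_co.Net.StripStep
import Pool.Agent.Lib.MP_534936_co.Net.LoopStep
import Pool.Agent.Lib.MP_534936_co.Net.LineDefs

/-!
# A smallest counterexample is the line graph of a multigraph (40 minutes)

Every road with a vertex is no loop (`loop_step`). If `|K (tl f)| ≤ |K (hd f)|`, every `v` on `f` has `t v = len f` (`strip_step`), otherwise `s v = 0` (`strip_step` for `M.mir`, `hC.mir`; `M.mir.K = M.K` by `mir_at`). If `v` contains only one node `x`, then all neighbours of `v` contain `x` (those on the same road by the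
first sentence), `no_simplicial`. So every `v` contains both ends of its road.
-/

set_option autoImplicit false

namespace Pool.Agent.Lib.MP_534936_co.Net

open Pool.Agent.Lib.MP_534936_co

theorem LineForm_mirK {V N E : Type} [Fintype V] (M : Netw V N E) (x : N) : M.mir.K x = M.K x := by
  ext v
  rw [mem_K, mem_K, mir_at]

/-- on every road with a vertex one of the two ends lies in all vertices of the road -/
theorem LineForm_common {V N E : Type} [Fintype V] (hT : Circ) {M : Netw V N E} {G : SimpleGraph V} {n : ℕ}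
    (hC : Crit M G n) (f : E) (hne : M.tl f ≠ M.hd f) :
    (∀ v, M.rd v = f → M.t v = M.len f) ∨ (∀ v, M.rd v = f → M.s v = 0) := by
  by_cases hK : (M.K (M.tl f)).card ≤ (M.K (M.hd f)).card
  · left
    intro v hv
    exact strip_step hT hC f hne hK v hv
  · right
    intro v hv
    have hK' : (M.mir.K (M.mir.tl f)).card ≤ (M.mir.K (M.mir.hd f)).card := by
      rw [LineForm_mirK, LineForm_mirK]
      show (M.K (M.hd f)).card ≤ (M.K (M.tl f)).card
      omega
    have h := strip_step hT hC.mir f (fun h => hne h.symm) hK' v hv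
    have h1 : M.len (M.rd v) - M.s v = M.len f := h
    have h2 := M.len_pos f
    rw [hv] at h1
    omega

/-- if all vertices adjacent to `v` contain `x` we have a contradiction -/
theorem LineForm_simp {V N E : Type} [Fintype V] {M : Netw V N E} {G : SimpleGraph V} {n : ℕ}
    (hC : Crit M G n) (v : V) (x : N) (h : ∀ u, G.Adj v u → M.At u x) : False :=
  hC.no_simplicial v (fun u w hu hw hne => adj_of_at hC.net (h u hu) (h w hw) hne)

theorem LineForm_full {V N E : Type} [Fintype V] (hT : Circ) {M : Netw V N E} {G : SimpleGraph V} {n : ℕ}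
    (hC : Crit M G n) (v : V) : M.s v = 0 ∧ M.t v = M.len (M.rd v) := by
  have hne : M.tl (M.rd v) ≠ M.hd (M.rd v) := fun h => loop_step hT hC (M.rd v) h v rfl
  rcases LineForm_common hT hC (M.rd v) hne with hc | hc
  · refine ⟨?_, hc v rfl⟩
    by_contra hs
    refine LineForm_simp hC v (M.hd (M.rd v)) ?_
    intro u hu
    rcases ((hC.net v u).1 hu).2 with ⟨h1, _, _⟩ | ⟨x, hx, hx'⟩
    · right
      refine ⟨?_, by rw [← h1]⟩
      rw [hc u h1.symm, h1]
    · rcases hx with ⟨h2, _⟩ | ⟨_, h3⟩
      · exact absurd h2 hs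
      · rw [h3]
        exact hx'
  · refine ⟨hc v rfl, ?_⟩
    by_contra hs
    refine LineForm_simp hC v (M.tl (M.rd v)) ?_
    intro u hu
    rcases ((hC.net v u).1 hu).2 with ⟨h1, _, _⟩ | ⟨x, hx, hx'⟩
    · left
      exact ⟨hc u h1.symm, by rw [← h1]⟩
    · rcases hx with ⟨_, h3⟩ | ⟨h2, _⟩
      · rw [h3]
        exact hx'
      · exact absurd h2 hs

theorem line_form {V N E : Type} [Fintype V] (hT : Circ) {M : Netw V N E} {G : SimpleGraph V} {n : ℕ}
    (hC : Crit M G n) :
    ∃ p q : V → N, LineG G p q ∧ ∀ v x, M.At v x ↔ Inc p q v x := by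
  have hat : ∀ v x, M.At v x ↔ Inc (fun v => M.tl (M.rd v)) (fun v => M.hd (M.rd v)) v x := by
    intro v x
    obtain ⟨h1, h2⟩ := LineForm_full hT hC v
    constructor
    · rintro (⟨_, h⟩ | ⟨_, h⟩)
      · exact Or.inl h.symm
      · exact Or.inr h.symm
    · rintro (h | h)
      · exact Or.inl ⟨h1, h.symm⟩
      · exact Or.inr ⟨h2, h.symm⟩
  refine ⟨fun v => M.tl (M.rd v), fun v => M.hd (M.rd v), ⟨?_, ?_⟩, hat⟩
  · intro v h
    exact loop_step hT hC (M.rd v) h v rfl
  · intro u v
    rw [hC.net u v]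
    refine and_congr_right (fun _ => ?_)
    constructor
    · rintro (⟨h1, _, _⟩ | ⟨x, hx, hx'⟩)
      · exact ⟨M.tl (M.rd u), Or.inl rfl, Or.inl (by show M.tl (M.rd u) = M.tl (M.rd v); rw [h1])⟩
      · exact ⟨x, (hat u x).1 hx, (hat v x).1 hx'⟩
    · rintro ⟨x, hx, hx'⟩
      exact Or.inr ⟨x, (hat u x).2 hx, (hat v x).2 hx'⟩

end Pool.Agent.Lib.MP_534936_co.Net
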