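import Pool.Agent.Lib.MP_534936_co.Net.Triangle
import Pool.Agent.Lib.MP_534936_co.Net.FanCount
import Pool.Agent.Lib.MP_534936_co.Net.Simplicial

/-!
# Line graphs of multigraphs (60 minutes)

`V` is not empty. `y` a node with the largest `|K y|` (nodes `p u`, `q u`). If all vertices of `K y` have the same other node `x`: `K y ⊆ K x`, so `K y = K x` (largest), a vertex `e ∈ K y` has its neighbours in `K y - e`, at most `n - 1`, `col_of_few`: contradiction. `v` = neighbour node of `y` of smallest `|K v|`, `e` a vertex at `y` and `v`, `F` from `fan_count`.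
`|F| = 1`: `mu y v + |K v| ≥ n + 2`; `x ≠ v` another neighbour node of `y`, `|K x| ≥ |K v|`: `triangle` for `x, y, v`, `k = |K v|`. `|F| ≥ 2`: `two_terms` gives `x ≠ z` in `F` with `mu y x + |K x| + mu y z + |K z| ≥ 2n + 2`, say `|K x| ≤ |K z|`. If `|K x| + mu y z ≥ n + 1`: `triangle` for `x, y, z`, `k = |K x|`. Otherwise
`|K z| + mu y x ≥ n + 1`: `triangle` for `z, x, y` (paths from `K y` to `K z`), `k = |K z| ≤ |K y|`. Here `|F| = 1` with `two_terms` not possible.
-/

set_option autoImplicit false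

namespace Pool.Agent.Lib.MP_534936_co.Net

open Pool.Agent.Lib.MP_534936_co

theorem two_terms {N : Type} (F : Finset N) (t : N → ℤ) (h2 : 2 ≤ F.card) (h : 2 ≤ ∑ x ∈ F, t x) :
    ∃ x ∈ F, ∃ z ∈ F, x ≠ z ∧ 2 ≤ t x + t z := by
  classical
  by_contra hcon
  push Not at hcon
  have hne : F.Nonempty := Finset.card_pos.1 (by omega)
  obtain ⟨x, hx, hmax⟩ := Finset.exists_max_image F t hne
  rcases le_or_gt (t x) 0 with h0 | h0
  · have : ∑ z ∈ F, t z ≤ 0 := Finset.sum_nonpos fun z hz => (hmax z hz).trans h0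
    omega
  · have hcard : 1 ≤ (F.erase x).card := by
      rw [Finset.card_erase_of_mem hx]
      omega
    obtain ⟨z, hz⟩ : (F.erase x).Nonempty := Finset.card_pos.1 (by omega)
    have hs1 : t x + ∑ w ∈ F.erase x, t w = ∑ w ∈ F, t w := Finset.add_sum_erase F t hx
    have hs2 : t z + ∑ w ∈ (F.erase x).erase z, t w = ∑ w ∈ F.erase x, t w := Finset.add_sum_erase (F.erase x) t hz
    have hs3 : ∑ w ∈ (F.erase x).erase z, t w ≤ 0 := by
      refine Finset.sum_nonpos fun w hw => ?_
      have hw1 := Finset.mem_of_mem_erase hw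
      have h3 := hcon x hx w (Finset.mem_of_mem_erase hw1) (Finset.ne_of_mem_erase hw1).symm
      omega
    have h4 := hcon x hx z (Finset.mem_of_mem_erase hz) (Finset.ne_of_mem_erase hz).symm
    omega

private theorem RS_other {V N : Type} {p q : V → N} (hne : ∀ v, p v ≠ q v) (u : V) (y : N) (hy : Inc p q u y) :
    ∃ x, x ≠ y ∧ Inc p q u x := by
  rcases hy with hy | hy
  · exact ⟨q u, by rw [hy]; exact (hne u).symm, Or.inr rfl⟩
  · exact ⟨p u, by rw [hy]; exact hne u, Or.inl rfl⟩

private theorem RS_mu_pos {V N : Type} [Fintype V] (p q : V → N) (x y : N) :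
    0 < mu p q x y ↔ ∃ u, Inc p q u x ∧ Inc p q u y := by
  classical
  unfold mu
  rw [Finset.card_pos]
  constructor
  · rintro ⟨u, hu⟩
    exact ⟨u, (Finset.mem_filter.1 hu).2⟩
  · rintro ⟨u, hu⟩
    exact ⟨u, Finset.mem_filter.2 ⟨Finset.mem_univ u, hu⟩⟩

theorem reed_seymour {V N : Type} [Fintype V] (G : SimpleGraph V) (p q : V → N) (hL : LineG G p q) (n : ℕ)
    (hno : ¬ Col G n) (hcrit : ∀ e : V, ∃ c, ColOn G n {u | u ≠ e} c) (hd : ∀ x, (Kn p q x).card ≤ n)
    (hlink : ∀ x y k, k ≤ (Kn p q x).card → k ≤ (Kn p q y).card →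
      Linked G {v | Inc p q v x} {v | Inc p q v y} k) : HasMinor G (n + 1) := by
  classical
  have hV : Nonempty V := by
    by_contra hV
    rw [not_nonempty_iff] at hV
    exact hno ⟨fun v => (hV.false v).elim, fun v => (hV.false v).elim, fun v => (hV.false v).elim⟩
  obtain ⟨u0⟩ := hV
  -- a node with the most vertices
  obtain ⟨y, hy, hymax⟩ := Finset.exists_max_image (Finset.univ.image p ∪ Finset.univ.image q)
    (fun x => (Kn p q x).card) ⟨p u0, Finset.mem_union_left _ (Finset.mem_image_of_mem p (Finset.mem_univ u0))⟩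
  have hmax : ∀ x, (Kn p q x).card ≤ (Kn p q y).card := by
    intro x
    rcases (Kn p q x).eq_empty_or_nonempty with h0 | ⟨u, hu⟩
    · rw [h0]
      simp
    · apply hymax
      rcases (mem_Kn p q x u).1 hu with h | h
      · rw [h]
        exact Finset.mem_union_left _ (Finset.mem_image_of_mem p (Finset.mem_univ u))
      · rw [h]
        exact Finset.mem_union_right _ (Finset.mem_image_of_mem q (Finset.mem_univ u))
  obtain ⟨uy, huy⟩ : ∃ u, Inc p q u y := by
    rcases Finset.mem_union.1 hy with h | h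
    · obtain ⟨u, -, hu⟩ := Finset.mem_image.1 h
      exact ⟨u, Or.inl hu.symm⟩
    · obtain ⟨u, -, hu⟩ := Finset.mem_image.1 h
      exact ⟨u, Or.inr hu.symm⟩
  -- the neighbour nodes of y
  have hnb : ∀ x, 0 < mu p q y x → x ∈ Finset.univ.image p ∪ Finset.univ.image q := by
    intro x hx
    obtain ⟨u, -, hu⟩ := (RS_mu_pos p q y x).1 hx
    rcases hu with h | h
    · rw [h]
      exact Finset.mem_union_left _ (Finset.mem_image_of_mem p (Finset.mem_univ u))
    · rw [h]
      exact Finset.mem_union_right _ (Finset.mem_image_of_mem q (Finset.mem_univ u))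
  have hne : ((Finset.univ.image p ∪ Finset.univ.image q).filter (fun x => x ≠ y ∧ 0 < mu p q y x)).Nonempty := by
    obtain ⟨x, hxy, hx⟩ := RS_other hL.ne uy y huy
    have hpos : 0 < mu p q y x := (RS_mu_pos p q y x).2 ⟨uy, huy, hx⟩
    exact ⟨x, Finset.mem_filter.2 ⟨hnb x hpos, hxy, hpos⟩⟩
  obtain ⟨v, hv, hvmin⟩ := Finset.exists_min_image _ (fun x => (Kn p q x).card) hne
  obtain ⟨-, hvy, hvpos⟩ := Finset.mem_filter.1 hv
  have hmin : ∀ x, x ≠ y → 0 < mu p q y x → (Kn p q v).card ≤ (Kn p q x).card := fun x hxy hx =>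
    hvmin x (Finset.mem_filter.2 ⟨hnb x hx, hxy, hx⟩)
  obtain ⟨e, hey, hev⟩ := (RS_mu_pos p q y v).1 hvpos
  obtain ⟨c, hc⟩ := hcrit e
  -- another neighbour node
  obtain ⟨x1, hx1y, hx1v, hx1⟩ : ∃ x, x ≠ y ∧ x ≠ v ∧ 0 < mu p q y x := by
    by_contra hcon
    push Not at hcon
    have hsub : Kn p q y ⊆ Kn p q v := by
      intro u hu
      have hu1 := (mem_Kn p q y u).1 hu
      obtain ⟨x, hxy, hx⟩ := RS_other hL.ne u y hu1
      by_cases hxv : x = v
      · rw [mem_Kn, ← hxv]
        exact hx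
      · have h1 := hcon x hxy hxv
        have h2 := (RS_mu_pos p q y x).2 ⟨u, hu1, hx⟩
        omega
    have heq : Kn p q y = Kn p q v := Finset.eq_of_subset_of_card_le hsub (hmax v)
    refine hno (col_of_few G n e c hc ((Kn p q y).erase e) ?_ ?_)
    · intro u hu
      obtain ⟨hne', x, hex, hux⟩ := (hL.adj e u).1 hu
      refine Finset.mem_erase.2 ⟨hne'.symm, ?_⟩
      by_cases hxy : x = y
      · rw [mem_Kn, ← hxy]
        exact hux
      · have h3 : x = v := (inc_two hey hex hev (fun h => hxy h.symm) hvy.symm)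
        rw [heq, mem_Kn, ← h3]
        exact hux
    · have h4 := Finset.card_erase_lt_of_mem ((mem_Kn p q y e).2 hey)
      exact lt_of_lt_of_le h4 (hd y)
  obtain ⟨F, hvF, hF, hsum⟩ := fan_count G p q hL n hno y v hvy.symm e hey hev c hc (hd y)
  by_cases hF2 : 2 ≤ F.card
  · have hsum' : (2 : ℤ) ≤ ∑ x ∈ F, ((mu p q y x : ℤ) + ((Kn p q x).card : ℤ) - (n : ℤ)) := by
      rw [Finset.sum_sub_distrib, Finset.sum_const, nsmul_eq_mul]
      have h5 : ((n * F.card + 2 : ℕ) : ℤ) ≤ ((∑ x ∈ F, (mu p q y x + (Kn p q x).card) : ℕ) : ℤ) := by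
        exact_mod_cast hsum
      push_cast at h5
      linarith
    obtain ⟨x, hx, z, hz, hxz, h6⟩ := two_terms F _ hF2 hsum'
    have key : ∀ x z, x ∈ F → z ∈ F → x ≠ z → (Kn p q x).card ≤ (Kn p q z).card →
        (2 : ℤ) ≤ (mu p q y x : ℤ) + ((Kn p q x).card : ℤ) - (n : ℤ) + ((mu p q y z : ℤ) + ((Kn p q z).card : ℤ) - (n : ℤ)) →
        HasMinor G (n + 1) := by
      intro x z hx hz hxz hle h6
      obtain ⟨hxy, -⟩ := hF x hx
      obtain ⟨hzy, -⟩ := hF z hz
      by_cases h7 : n + 1 ≤ (Kn p q x).card + mu p q y z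
      · exact hasMinor_mono G h7 (triangle G p q hL x y z hxy hxz (fun h => hzy h.symm) _
          (hlink z x _ hle le_rfl))
      · have h8 : n + 1 ≤ (Kn p q z).card + mu p q x y := by
          rw [mu_comm p q x y]
          omega
        exact hasMinor_mono G h8 (triangle G p q hL z x y (fun h => hxz h.symm) hzy hxy _
          (hlink y z _ (hmax z) le_rfl))
    rcases le_total (Kn p q x).card (Kn p q z).card with hle | hle
    · exact key x z hx hz hxz hle h6
    · exact key z x hz hx (fun h => hxz h.symm) hle (by linarith)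
  · have hF1 : F.card = 1 := by
      have := Finset.card_pos.2 ⟨v, hvF⟩
      omega
    obtain ⟨w, hw⟩ := Finset.card_eq_one.1 hF1
    have hwv : w = v := by
      rw [hw, Finset.mem_singleton] at hvF
      exact hvF.symm
    rw [hw, Finset.card_singleton, Finset.sum_singleton, hwv] at hsum
    have h9 : n + 1 ≤ (Kn p q v).card + mu p q y v := by omega
    exact hasMinor_mono G h9 (triangle G p q hL x1 y v hx1y hx1v hvy.symm _
      (hlink v x1 _ le_rfl (hmin x1 hx1y hx1)))

end Pool.Agent.Lib.MP_534936_co.Net
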