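import Pool.Agent.Lib.MP_534936_co.Net.LineForm
import Pool.Agent.Lib.MP_534936_co.Net.RS

/-!
# Hadwiger for intervals on networks (40 minutes)

Strong induction on the number of vertices: if `G` is not `n`-colourable and has no `K_(n+1)` minor, then `Crit M G n` (`ih` from the induction). `line_form` gives `p q`; `reed_seymour`: `hcrit` = `Crit.sub`, `hd` = `Crit.clique_le`, `hlink` = `cut_lemma` (`Kn p q x = M.K x`).
-/

set_option autoImplicit false

namespace Pool.Agent.Lib.MP_534936_co.Net

open Pool.Agent.Lib.MP_534936_co

theorem net_hadwiger (hT : Circ) {V N E : Type} [Fintype V] (M : Netw V N E) (G : SimpleGraph V) (hG : IsNet G M)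
    (n : ℕ) (hno : ¬ Col G n) : HasMinor G (n + 1) := by
  have key : ∀ (m : ℕ) (V N E : Type) [Fintype V] (M : Netw V N E) (G : SimpleGraph V), Fintype.card V = m →
      IsNet G M → ∀ n, ¬ Col G n → HasMinor G (n + 1) := by
    intro m
    induction m using Nat.strong_induction_on with
    | _ m ih =>
      intro V N E _ M G hm hG n hno
      by_contra hnm
      have hC : Crit M G n := ⟨hG, hno, hnm, fun V' N' E' _ M' G' hG' hcard hn' => by
        by_contra hc
        exact hn' (ih (Fintype.card V') (by omega) V' N' E' M' G' rfl hG' n hc)⟩
      obtain ⟨p, q, hL, hAt⟩ := line_form hT hC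
      refine hnm (reed_seymour G p q hL n hno ?_ ?_ ?_)
      · intro e
        exact hC.sub {u | u ≠ e} ⟨e, fun h => h rfl⟩
      · intro x
        refine hC.clique_le (Kn p q x) ?_
        intro u hu v hv huv
        rw [mem_Kn] at hu hv
        exact (hL.adj u v).2 ⟨huv, x, hu, hv⟩
      · intro x y k hx hy
        have hK : ∀ z, M.K z = Kn p q z := by
          intro z
          ext v
          rw [mem_K, mem_Kn, hAt]
        have hset : ∀ z, {v | M.At v z} = {v | Inc p q v z} := by
          intro z
          ext v
          exact hAt v z
        have h := cut_lemma hC x y k (by rw [hK]; exact hx) (by rw [hK]; exact hy)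
        rw [hset, hset] at h
        exact h
  exact key (Fintype.card V) V N E M G rfl hG n hno

end Pool.Agent.Lib.MP_534936_co.Net
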