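import Pool.Agent.Lib.MP_534936_co.Net.Defs

/-!
# Menger's theorem (60 minutes)

Induction on the number of edges (Goering). Let every set meeting all `A`-`B` paths have at least `k` elements. No edge: `A ∩ B` is such a set, take `k` paths with one vertex. Otherwise let
`e = x y` be an edge. If in `G - e` every separating set has `≥ k` elements: induction. Otherwise let `S` separate `A` from `B` in `G - e`, `|S| < k`, so `|S| = k - 1`
and `S ∪ {x}`, `S ∪ {y}` separate in `G`; one of `x`, `y`, say `x`, is on the side of `A` (reachable from `A` in `G - e - S`), the other one, `y`, on the side of `B` (otherwise `S` separates in `G`).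
A set separating `A` from `S ∪ {x}` in `G - e` separates `A` from `B` in `G`, so it has `≥ k` elements; same for `S ∪ {y}` and `B`. By induction (in `G - e`) there are `k` disjoint paths from `A` to
`S ∪ {x}` and `k` from `S ∪ {y}` to `B`; the first ones meet the second ones only in `S` (otherwise an `A`-`B` walk in `G - e` avoids `S`). Join them at `S` and by `e`.
(Walks can be shortened to `IsAB` paths: last vertex in `A`, then first vertex in `B`.)
Any other proof is fine. `h` says that no set with fewer than `k` elements meets all paths.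
-/

set_option autoImplicit false

namespace Pool.Agent.Lib.MP_534936_co.Net

open Pool.Agent.Lib.MP_534936_co

/-- a step avoiding `Z` -/
private def mgR {V : Type} (G : SimpleGraph V) (Z : Set V) (u v : V) : Prop := G.Adj u v ∧ u ∉ Z ∧ v ∉ Z

/-- `Z` separates `A` from `B` -/
private def mgSep {V : Type} (G : SimpleGraph V) (A B Z : Set V) : Prop :=
  ∀ a ∈ A, a ∉ Z → ∀ b ∈ B, b ∉ Z → ¬ Relation.ReflTransGen (mgR G Z) a b

private lemma mgR_symm {V : Type} {G : SimpleGraph V} {Z : Set V} {u v : V} (h : mgR G Z u v) : mgR G Z v u :=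
  ⟨h.1.symm, h.2.2, h.2.1⟩

private lemma mg_symm {V : Type} {G : SimpleGraph V} {Z : Set V} {u v : V}
    (h : Relation.ReflTransGen (mgR G Z) u v) : Relation.ReflTransGen (mgR G Z) v u := by
  induction h with
  | refl => exact .refl
  | tail _ h2 ih => exact .head (mgR_symm h2) ih

private lemma mgSep_symm {V : Type} {G : SimpleGraph V} {A B Z : Set V} (h : mgSep G A B Z) : mgSep G B A Z :=
  fun b hb hbZ a ha haZ hr => h a ha haZ b hb hbZ (mg_symm hr)

private lemma menger_pre {V : Type} {G : SimpleGraph V} {Z : Set V} : ∀ (l : List V) (a : V),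
    (a :: l).IsChain G.Adj → (∀ u ∈ (a :: l).dropLast, u ∉ Z) → ∀ v ∈ a :: l, v ∉ Z →
    Relation.ReflTransGen (mgR G Z) a v := by
  intro l
  induction l with
  | nil =>
    intro a _ _ v hv _
    rw [List.mem_singleton] at hv
    rw [hv]
  | cons w l ih =>
    intro a hc hd v hv hvZ
    rw [List.isChain_cons_cons] at hc
    have ha : a ∉ Z := hd a (by simp)
    rw [List.mem_cons] at hv
    rcases hv with rfl | hv
    · exact .refl
    · have hw : w ∉ Z := by
        intro hw
        cases l with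
        | nil =>
          rw [List.mem_singleton] at hv
          exact hvZ (hv ▸ hw)
        | cons x l => exact hd w (by simp) hw
      refine .head ⟨hc.1, ha, hw⟩ (ih w hc.2 (fun u hu => hd u ?_) v hv hvZ)
      rw [List.dropLast_cons_cons]
      exact List.mem_cons_of_mem _ hu

/-- a list from `A` to `B` contains an `A`-`B` path -/
private lemma menger_short {V : Type} (G : SimpleGraph V) (A B : Set V) : ∀ (n : ℕ) (l : List V), l.length ≤ n →
    l.IsChain G.Adj → (∃ a ∈ A, l.head? = some a) → (∃ b ∈ B, l.getLast? = some b) →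
    ∃ l', IsAB G A B l' ∧ ∀ v ∈ l', v ∈ l := by
  intro n
  induction n with
  | zero =>
    intro l hl _ ⟨a, _, ha⟩ _
    rw [Nat.le_zero, List.length_eq_zero_iff] at hl
    rw [hl] at ha
    cases ha
  | succ n ih =>
    intro l hl hc hA hB
    by_cases h1 : ∃ v ∈ l.tail, v ∈ A
    · obtain ⟨v, hv, hvA⟩ := h1
      obtain ⟨s, t, hst⟩ := List.append_of_mem hv
      cases l with
      | nil => simp at hv
      | cons x l =>
        rw [List.tail_cons] at hst
        subst hst
        have hc' : (v :: t).IsChain G.Adj := by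
          have h2 := hc.tail
          rw [List.tail_cons] at h2
          exact h2.right_of_append
        obtain ⟨b, hb, hb2⟩ := hB
        obtain ⟨l', h3, h4⟩ := ih (v :: t) (by simp at hl ⊢; omega) hc' ⟨v, hvA, rfl⟩ ⟨b, hb, by
          rw [← hb2]
          rw [← List.cons_append, List.getLast?_append_of_ne_nil _ (by simp)]⟩
        exact ⟨l', h3, fun w hw => by
          have := h4 w hw
          exact List.mem_cons_of_mem _ (List.mem_append_right _ this)⟩
    · by_cases h2 : ∃ v ∈ l.dropLast, v ∈ B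
      · obtain ⟨v, hv, hvB⟩ := h2
        obtain ⟨s, t, hst⟩ := List.append_of_mem hv
        have hne : l ≠ [] := by
          rintro rfl
          simp at hv
        have hl2 : l = s ++ v :: (t ++ [l.getLast hne]) := by
          conv_lhs => rw [← List.dropLast_append_getLast hne, hst]
          simp
        have hl3 : l = (s ++ [v]) ++ (t ++ [l.getLast hne]) := by
          rw [List.append_assoc]
          exact hl2
        have hlen : l.length = s.length + 1 + (t.length + 1) := by
          conv_lhs => rw [hl3]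
          simp
          omega
        obtain ⟨a, ha, ha2⟩ := hA
        obtain ⟨l', h3, h4⟩ := ih (s ++ [v]) (by
            rw [List.length_append, List.length_singleton]
            omega) (by
            rw [hl3] at hc
            exact hc.left_of_append) ⟨a, ha, by
            rw [← ha2]
            conv_rhs => rw [hl3]
            cases s <;> simp⟩ ⟨v, hvB, by simp⟩
        exact ⟨l', h3, fun w hw => by
          have := h4 w hw
          rw [hl3]
          exact List.mem_append_left _ this⟩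
      · refine ⟨l, ⟨hc, hA, hB, ?_, ?_⟩, fun v hv => hv⟩
        · intro v hv hvA
          exact h1 ⟨v, hv, hvA⟩
        · intro v hv hvB
          exact h2 ⟨v, hv, hvB⟩

private lemma menger_rev {V : Type} {G : SimpleGraph V} {A B : Set V} {l : List V} (h : IsAB G A B l) :
    IsAB G B A l.reverse := by
  obtain ⟨h1, ⟨a, h2, h3⟩, ⟨b, h4, h5⟩, h6, h7⟩ := h
  refine ⟨?_, ⟨b, h4, by rw [List.head?_reverse]; exact h5⟩, ⟨a, h2, by rw [List.getLast?_reverse]; exact h3⟩, ?_, ?_⟩
  · rw [List.isChain_reverse]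
    exact h1.imp fun u v huv => huv.symm
  · intro v hv
    rw [List.tail_reverse, List.mem_reverse] at hv
    exact h7 v hv
  · intro v hv
    rw [List.dropLast_reverse, List.mem_reverse] at hv
    exact h6 v hv

private lemma menger_left {V : Type} {G : SimpleGraph V} {A B Z : Set V} {l : List V} (h : IsAB G A B l) (hZ : Z ⊆ B)
    {v : V} (hv : v ∈ l) (hvZ : v ∉ Z) : ∃ a ∈ A, a ∉ Z ∧ Relation.ReflTransGen (mgR G Z) a v := by
  obtain ⟨h1, ⟨a, h2, h3⟩, ⟨b, h4, h5⟩, h6, h7⟩ := h
  cases l with
  | nil => simp at hv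
  | cons x l =>
    rw [List.head?_cons, Option.some_inj] at h3
    subst h3
    refine ⟨x, h2, ?_, menger_pre l x h1 (fun u hu hu2 => h7 u hu (hZ hu2)) v hv hvZ⟩
    intro hx
    cases l with
    | nil =>
      rw [List.mem_singleton] at hv
      exact hvZ (hv ▸ hx)
    | cons y l => exact h7 x (by simp) (hZ hx)

private lemma menger_last {V : Type} {G : SimpleGraph V} {A B : Set V} {l : List V} (h : IsAB G A B l) {v : V}
    (hv : v ∈ l) (hvB : v ∈ B) : l.getLast? = some v := by
  obtain ⟨h1, ⟨a, h2, h3⟩, ⟨b, h4, h5⟩, h6, h7⟩ := h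
  have hne : l ≠ [] := by
    rintro rfl
    simp at hv
  have hl : l = l.dropLast ++ [l.getLast hne] := (List.dropLast_append_getLast hne).symm
  rw [hl, List.mem_append, List.mem_singleton] at hv
  rcases hv with hv | hv
  · exact absurd hvB (h7 v hv)
  · rw [List.getLast?_eq_getLast_of_ne_nil hne, hv]

private lemma mg_notin {V : Type} {G : SimpleGraph V} {Z : Set V} {u v : V}
    (h : Relation.ReflTransGen (mgR G Z) u v) (hu : u ∉ Z) : v ∉ Z := by
  cases h with
  | refl => exact hu
  | tail _ h2 => exact h2.2.2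

private lemma menger_orient {V : Type} {G H : SimpleGraph V} {Z : Set V} {x y : V}
    (hH : ∀ u v, G.Adj u v → H.Adj u v ∨ (u = x ∧ v = y) ∨ (u = y ∧ v = x)) {a b : V}
    (h : Relation.ReflTransGen (mgR G Z) a b) : Relation.ReflTransGen (mgR H Z) a b ∨
      (Relation.ReflTransGen (mgR H Z) a x ∧ Relation.ReflTransGen (mgR H Z) y b) ∨
      (Relation.ReflTransGen (mgR H Z) a y ∧ Relation.ReflTransGen (mgR H Z) x b) := by
  induction h with
  | refl => exact Or.inl .refl
  | tail _ h2 ih =>
    obtain ⟨h3, h4, h5⟩ := h2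
    rcases hH _ _ h3 with h6 | ⟨rfl, rfl⟩ | ⟨rfl, rfl⟩
    · rcases ih with ih | ⟨ih1, ih2⟩ | ⟨ih1, ih2⟩
      · exact Or.inl (ih.tail ⟨h6, h4, h5⟩)
      · exact Or.inr (Or.inl ⟨ih1, ih2.tail ⟨h6, h4, h5⟩⟩)
      · exact Or.inr (Or.inr ⟨ih1, ih2.tail ⟨h6, h4, h5⟩⟩)
    · rcases ih with ih | ⟨ih1, ih2⟩ | ⟨ih1, ih2⟩
      · exact Or.inr (Or.inl ⟨ih, .refl⟩)
      · exact Or.inr (Or.inl ⟨ih1, .refl⟩)
      · exact Or.inl ih1
    · rcases ih with ih | ⟨ih1, ih2⟩ | ⟨ih1, ih2⟩
      · exact Or.inr (Or.inr ⟨ih, .refl⟩)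
      · exact Or.inl ih1
      · exact Or.inr (Or.inr ⟨ih1, .refl⟩)

private lemma menger_sepx {V : Type} {G H : SimpleGraph V} {A B S Z : Set V} {x y : V}
    (hH : ∀ u v, G.Adj u v → H.Adj u v ∨ (u = x ∧ v = y) ∨ (u = y ∧ v = x))
    (hS : mgSep H A B S) (hy : ∃ b ∈ B, b ∉ S ∧ Relation.ReflTransGen (mgR H S) y b)
    (hZ : mgSep H A (insert x S) Z) : mgSep G A B Z := by
  intro a ha haZ b hb hbZ hr
  have haS : a ∉ insert x S := fun h => hZ a ha haZ a h haZ .refl
  have haS2 : a ∉ S := fun h => haS (Set.mem_insert_of_mem x h)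
  have key : ∀ v, Relation.ReflTransGen (mgR G Z) a v → v ∉ insert x S ∧
      Relation.ReflTransGen (mgR H Z) a v ∧ Relation.ReflTransGen (mgR H S) a v := by
    intro v hv
    induction hv with
    | refl => exact ⟨haS, .refl, .refl⟩
    | @tail v w _ hvw ih =>
      obtain ⟨ih1, ih2, ih3⟩ := ih
      obtain ⟨h1, h2, h3⟩ := hvw
      have hvx : v ≠ x := fun h => ih1 (by rw [h]; exact Set.mem_insert x S)
      have hvS : v ∉ S := fun h => ih1 (Set.mem_insert_of_mem x h)
      have hvy : v ≠ y := by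
        rintro rfl
        obtain ⟨b, hb, hbS, hr⟩ := hy
        exact hS a ha haS2 b hb hbS (ih3.trans hr)
      rcases hH _ _ h1 with h4 | ⟨h4, h5⟩ | ⟨h4, h5⟩
      · have hw : w ∉ insert x S := fun h => hZ a ha haZ w h h3 (ih2.tail ⟨h4, h2, h3⟩)
        exact ⟨hw, ih2.tail ⟨h4, h2, h3⟩, ih3.tail ⟨h4, hvS, fun h => hw (Set.mem_insert_of_mem x h)⟩⟩
      · exact absurd h4 hvx
      · exact absurd h4 hvy
  obtain ⟨h1, h2, h3⟩ := key b hr
  exact hS a ha haS2 b hb (fun h => h1 (Set.mem_insert_of_mem x h)) h3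

private lemma menger_sepins {V : Type} {G H : SimpleGraph V} {A B S : Set V} {x y : V}
    (hH : ∀ u v, G.Adj u v → H.Adj u v ∨ (u = x ∧ v = y) ∨ (u = y ∧ v = x))
    (hS : mgSep H A B S) : mgSep G A B (insert x S) := by
  intro a ha haZ b hb hbZ hr
  refine hS a ha (fun h => haZ (Set.mem_insert_of_mem x h)) b hb (fun h => hbZ (Set.mem_insert_of_mem x h)) ?_
  refine Relation.ReflTransGen.mono ?_ _ _ hr
  rintro u v ⟨h1, h2, h3⟩
  rw [Set.mem_insert_iff, not_or] at h2 h3
  rcases hH _ _ h1 with h4 | ⟨h4, h5⟩ | ⟨h4, h5⟩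
  · exact ⟨h4, h2.2, h3.2⟩
  · exact absurd h4 h2.1
  · exact absurd h5 h3.1

private lemma menger_join {V : Type} {G H : SimpleGraph V} {A B S : Set V} {x y : V} (hGH : H ≤ G) (hxy : G.Adj x y)
    {p q : List V} {u v : V} (hp : IsAB H A (insert x S) p) (hq : IsAB H (insert y S) B q)
    (hu : p.getLast? = some u) (hv : q.head? = some v) (huv : (u = x ∧ v = y) ∨ (u ∈ S ∧ v = u)) :
    ∃ l : List V, l.IsChain G.Adj ∧ (∃ a ∈ A, l.head? = some a) ∧ (∃ b ∈ B, l.getLast? = some b) ∧
      ∀ w ∈ l, w ∈ p ∨ w ∈ q := by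
  obtain ⟨p1, ⟨a, p2, p3⟩, _, _, _⟩ := hp
  obtain ⟨q1, _, ⟨b, q2, q3⟩, _, _⟩ := hq
  have p1' : p.IsChain G.Adj := p1.imp fun _ _ h => hGH h
  have q1' : q.IsChain G.Adj := q1.imp fun _ _ h => hGH h
  have hp0 : p ≠ [] := by
    rintro rfl
    cases p3
  rcases huv with ⟨rfl, rfl⟩ | ⟨_, rfl⟩
  · refine ⟨p ++ q, ?_, ⟨a, p2, ?_⟩, ⟨b, q2, ?_⟩, ?_⟩
    · refine List.IsChain.append p1' q1' ?_
      intro s hs t ht
      rw [hu, Option.mem_some_iff] at hs
      rw [hv, Option.mem_some_iff] at ht
      rw [← hs, ← ht]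
      exact hxy
    · rw [List.head?_append_of_ne_nil _ hp0]
      exact p3
    · have hq0 : q ≠ [] := by
        rintro rfl
        cases hv
      rw [List.getLast?_append_of_ne_nil _ hq0]
      exact q3
    · intro w hw
      rwa [List.mem_append] at hw
  · cases q with
    | nil => cases hv
    | cons z t =>
      rw [List.head?_cons, Option.some_inj] at hv
      subst hv
      rw [List.isChain_cons] at q1'
      refine ⟨p ++ t, ?_, ⟨a, p2, ?_⟩, ⟨b, q2, ?_⟩, ?_⟩
      · refine List.IsChain.append p1' q1'.2 ?_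
        intro s hs r hr
        rw [hu, Option.mem_some_iff] at hs
        rw [← hs]
        exact q1'.1 r hr
      · rw [List.head?_append_of_ne_nil _ hp0]
        exact p3
      · cases t with
        | nil =>
          rw [List.append_nil, hu]
          exact q3
        | cons s t =>
          rw [List.getLast?_append_of_ne_nil _ (by simp)]
          rw [List.getLast?_cons_cons] at q3
          exact q3
      · intro w hw
        rw [List.mem_append] at hw
        rcases hw with hw | hw
        · exact Or.inl hw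
        · exact Or.inr (List.mem_cons_of_mem _ hw)

private lemma menger_step {V : Type} [Fintype V] {G H : SimpleGraph V} {A B : Set V} {k : ℕ} {x y : V} (hGH : H ≤ G)
    (hxy : G.Adj x y) (hH : ∀ u v, G.Adj u v → H.Adj u v ∨ (u = x ∧ v = y) ∨ (u = y ∧ v = x))
    (ih : ∀ A B : Set V, (∀ Z : Finset V, Z.card < k → ¬ mgSep H A B (Z : Set V)) → Linked H A B k)
    (h : ∀ Z : Finset V, Z.card < k → ¬ mgSep G A B (Z : Set V)) (S : Finset V) (hSk : S.card < k)
    (hS : mgSep H A B (S : Set V))
    (hx : ∃ a ∈ A, a ∉ (S : Set V) ∧ Relation.ReflTransGen (mgR H (S : Set V)) a x)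
    (hy : ∃ b ∈ B, b ∉ (S : Set V) ∧ Relation.ReflTransGen (mgR H (S : Set V)) y b) : Linked G A B k := by
  classical
  have hxS : x ∉ S := by
    obtain ⟨a, _, h1, h2⟩ := hx
    exact fun h3 => mg_notin h2 h1 h3
  have hyS : y ∉ S := by
    obtain ⟨b, _, h1, h2⟩ := hy
    exact fun h3 => mg_notin (mg_symm h2) h1 h3
  have hH' : ∀ u v, G.Adj u v → H.Adj u v ∨ (u = y ∧ v = x) ∨ (u = x ∧ v = y) := by
    intro u v huv
    rcases hH u v huv with h1 | h1 | h1
    · exact Or.inl h1
    · exact Or.inr (Or.inr h1)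
    · exact Or.inr (Or.inl h1)
  have hcx : k ≤ (insert x S).card := by
    by_contra hc
    refine h (insert x S) (by omega) ?_
    rw [Finset.coe_insert]
    exact menger_sepins hH hS
  have hcy : (insert y S).card = k := by
    rw [Finset.card_insert_of_notMem hxS] at hcx
    rw [Finset.card_insert_of_notMem hyS]
    omega
  obtain ⟨P, hP1, hP2⟩ := ih A (insert x (S : Set V)) (fun Z hZ hs => h Z hZ (menger_sepx hH hS hy hs))
  obtain ⟨Q, hQ1, hQ2⟩ := ih (insert y (S : Set V)) B (fun Z hZ hs => h Z hZ (mgSep_symm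
    (menger_sepx hH' (mgSep_symm hS) (by
      obtain ⟨a, h1, h2, h3⟩ := hx
      exact ⟨a, h1, h2, mg_symm h3⟩) (mgSep_symm hs))))
  have hf : ∀ i, ∃ u, u ∈ insert x (S : Set V) ∧ (P i).getLast? = some u := by
    intro i
    obtain ⟨u, h1, h2⟩ := (hP1 i).2.2.1
    exact ⟨u, h1, h2⟩
  have hg : ∀ i, ∃ u, u ∈ insert y (S : Set V) ∧ (Q i).head? = some u := by
    intro i
    obtain ⟨u, h1, h2⟩ := (hQ1 i).2.1
    exact ⟨u, h1, h2⟩
  choose f hf1 hf2 using hf
  choose g hg1 hg2 using hg
  have hfm : ∀ i, f i ∈ P i := fun i => List.mem_of_getLast? (hf2 i)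
  have hgm : ∀ i, g i ∈ Q i := fun i => List.mem_of_mem_head? (by rw [hg2 i]; exact rfl)
  have hfi : ∀ i j, f i = f j → i = j := by
    intro i j hij
    by_contra hne
    exact hP2 i j hne (f i) (hfm i) (hij ▸ hfm j)
  have hgi : ∀ i j, g i = g j → i = j := by
    intro i j hij
    by_contra hne
    exact hQ2 i j hne (g i) (hgm i) (hij ▸ hgm j)
  have hgs : ∀ v ∈ insert y S, ∃ j, g j = v := by
    have h1 : Finset.univ.image g ⊆ insert y S := by
      intro v hv
      rw [Finset.mem_image] at hv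
      obtain ⟨j, _, rfl⟩ := hv
      have := hg1 j
      rw [← Finset.coe_insert, Finset.mem_coe] at this
      exact this
    have h2 : (Finset.univ.image g).card = k := by
      rw [Finset.card_image_of_injective _ (fun i j h => hgi i j h), Finset.card_univ, Fintype.card_fin]
    have h3 := Finset.eq_of_subset_of_card_le h1 (by rw [h2, hcy])
    intro v hv
    rw [← h3, Finset.mem_image] at hv
    obtain ⟨j, _, hj⟩ := hv
    exact ⟨j, hj⟩
  have hσ : ∀ i, ∃ j, (f i = x ∧ g j = y) ∨ (f i ∈ (S : Set V) ∧ g j = f i) := by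
    intro i
    rcases hf1 i with h1 | h1
    · obtain ⟨j, hj⟩ := hgs y (Finset.mem_insert_self _ _)
      exact ⟨j, Or.inl ⟨h1, hj⟩⟩
    · obtain ⟨j, hj⟩ := hgs (f i) (Finset.mem_insert_of_mem h1)
      exact ⟨j, Or.inr ⟨h1, hj⟩⟩
  choose σ hσ1 using hσ
  have hσi : ∀ i j, σ i = σ j → i = j := by
    intro i j hij
    apply hfi
    have h1 := hσ1 i
    have h2 := hσ1 j
    rw [hij] at h1
    rcases h1 with ⟨h1, h3⟩ | ⟨h1, h3⟩ <;> rcases h2 with ⟨h2, h4⟩ | ⟨h2, h4⟩
    · rw [h1, h2]
    · exfalso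
      rw [← h4, h3] at h2
      exact hyS h2
    · exfalso
      rw [← h3, h4] at h1
      exact hyS h1
    · rw [← h3, h4]
  have hcross : ∀ i j v, v ∈ P i → v ∈ Q j → v ∈ (S : Set V) := by
    intro i j v hv1 hv2
    by_contra hv
    obtain ⟨a, h1, h2, h3⟩ := menger_left (hP1 i) (Set.subset_insert x _) hv1 hv
    obtain ⟨b, h4, h5, h6⟩ := menger_left (menger_rev (hQ1 j)) (Set.subset_insert y _)
      (List.mem_reverse.2 hv2) hv
    exact hS a h1 h2 b h4 h5 (h3.trans (mg_symm h6))
  have hcross2 : ∀ i j v, v ∈ P i → v ∈ Q (σ j) → i = j := by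
    intro i j v hv1 hv2
    have hvS := hcross i (σ j) v hv1 hv2
    have h1 : f i = v := by
      have := menger_last (hP1 i) hv1 (Set.mem_insert_of_mem x hvS)
      rw [hf2 i, Option.some_inj] at this
      exact this
    have h2 : g (σ i) = v := by
      rcases hσ1 i with ⟨h2, _⟩ | ⟨_, h2⟩
      · exfalso
        rw [h2] at h1
        rw [← h1] at hvS
        exact hxS hvS
      · rw [h2, h1]
    apply hσi
    by_contra hne
    exact hQ2 (σ i) (σ j) hne v (h2 ▸ hgm (σ i)) hv2
  have hL : ∀ i, ∃ l, IsAB G A B l ∧ ∀ w ∈ l, w ∈ P i ∨ w ∈ Q (σ i) := by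
    intro i
    obtain ⟨l, h1, h2, h3, h4⟩ := menger_join hGH hxy (hP1 i) (hQ1 (σ i)) (hf2 i) (hg2 (σ i)) (hσ1 i)
    obtain ⟨l', h5, h6⟩ := menger_short G A B l.length l le_rfl h1 h2 h3
    exact ⟨l', h5, fun w hw => h4 w (h6 w hw)⟩
  choose L hL1 hL2 using hL
  refine ⟨L, hL1, ?_⟩
  intro i j hij v hv1 hv2
  rcases hL2 i v hv1 with h1 | h1 <;> rcases hL2 j v hv2 with h2 | h2
  · exact hP2 i j hij v h1 h2
  · exact hij (hcross2 i j v h1 h2)
  · exact hij (hcross2 j i v h2 h1).symm
  · exact hQ2 (σ i) (σ j) (fun h3 => hij (hσi i j h3)) v h1 h2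

private lemma menger_aux {V : Type} [Fintype V] (k : ℕ) : ∀ (n : ℕ) (G : SimpleGraph V), Nat.card G.edgeSet ≤ n →
    ∀ A B : Set V, (∀ Z : Finset V, Z.card < k → ¬ mgSep G A B (Z : Set V)) → Linked G A B k := by
  classical
  intro n
  induction n with
  | zero =>
    intro G hG A B h
    have hG0 : ∀ u v, ¬ G.Adj u v := by
      intro u v huv
      have : Nat.card G.edgeSet = 0 := by omega
      rw [Nat.card_eq_zero] at this
      rcases this with h1 | h1
      · exact h1.elim ⟨s(u, v), huv⟩
      · exact h1.not_finite inferInstance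
    have h1 : k ≤ (Finset.univ.filter (fun v => v ∈ A ∧ v ∈ B)).card := by
      by_contra hc
      refine h (Finset.univ.filter (fun v => v ∈ A ∧ v ∈ B)) (by omega) ?_
      intro a ha haZ b hb hbZ hr
      have hab : a = b := by
        rcases Relation.ReflTransGen.cases_head hr with h1 | ⟨c, h1, _⟩
        · exact h1
        · exact absurd h1.1 (hG0 _ _)
      subst hab
      apply haZ
      rw [Finset.coe_filter]
      exact ⟨Finset.mem_univ _, ha, hb⟩
    obtain ⟨T, hT1, hT2⟩ := Finset.exists_subset_card_eq h1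
    have e : Fin k ≃ T := Fintype.equivOfCardEq (by rw [Fintype.card_fin, Fintype.card_coe, hT2])
    refine ⟨fun i => [(e i : V)], ?_, ?_⟩
    · intro i
      have h2 := hT1 (e i).2
      rw [Finset.mem_filter] at h2
      refine ⟨List.isChain_singleton _, ⟨_, h2.2.1, rfl⟩, ⟨_, h2.2.2, rfl⟩, ?_, ?_⟩
      · intro v hv
        simp at hv
      · intro v hv
        simp at hv
    · intro i j hij v hv1 hv2
      rw [List.mem_singleton] at hv1 hv2
      apply hij
      apply e.injective
      apply Subtype.ext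
      rw [← hv1, ← hv2]
  | succ n ih =>
    intro G hG A B h
    by_cases hG0 : ∀ u v, ¬ G.Adj u v
    · refine ih G ?_ A B h
      have : Nat.card G.edgeSet = 0 := by
        rw [Nat.card_eq_zero]
        left
        constructor
        rintro ⟨e, he⟩
        induction e with
        | _ u v => exact hG0 u v he
      omega
    · push Not at hG0
      obtain ⟨x, y, hxy⟩ := hG0
      have hlt : Nat.card (G.deleteEdges {s(x, y)}).edgeSet ≤ n := by
        have h1 : (G.deleteEdges {s(x, y)}).edgeSet ⊂ G.edgeSet := by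
          rw [SimpleGraph.edgeSet_deleteEdges]
          refine ⟨Set.sdiff_subset, fun h2 => ?_⟩
          have h3 := h2 (show s(x, y) ∈ G.edgeSet from hxy)
          exact h3.2 rfl
        have h2 := Set.ncard_lt_ncard h1 (Set.toFinite _)
        rw [← Nat.card_coe_set_eq, ← Nat.card_coe_set_eq] at h2
        omega
      have hGH : G.deleteEdges {s(x, y)} ≤ G := SimpleGraph.deleteEdges_le _
      have hH : ∀ u v, G.Adj u v → (G.deleteEdges {s(x, y)}).Adj u v ∨ (u = x ∧ v = y) ∨ (u = y ∧ v = x) := by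
        intro u v huv
        by_cases h1 : s(u, v) = s(x, y)
        · right
          rw [Sym2.eq_iff] at h1
          exact h1
        · left
          rw [SimpleGraph.deleteEdges_adj]
          exact ⟨huv, h1⟩
      by_cases hsep : ∀ Z : Finset V, Z.card < k → ¬ mgSep (G.deleteEdges {s(x, y)}) A B (Z : Set V)
      · obtain ⟨P, hP1, hP2⟩ := ih _ hlt A B hsep
        refine ⟨P, fun i => ?_, hP2⟩
        obtain ⟨h1, h2⟩ := hP1 i
        exact ⟨h1.imp fun _ _ h => hGH h, h2⟩
      · push Not at hsep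
        obtain ⟨S, hSk, hS⟩ := hsep
        have h1 := h S hSk
        unfold mgSep at h1
        push Not at h1
        obtain ⟨a, ha, haS, b, hb, hbS, hr⟩ := h1
        have hH' : ∀ u v, G.Adj u v → (G.deleteEdges {s(x, y)}).Adj u v ∨ (u = y ∧ v = x) ∨ (u = x ∧ v = y) := by
          intro u v huv
          rcases hH u v huv with h1 | h1 | h1
          · exact Or.inl h1
          · exact Or.inr (Or.inr h1)
          · exact Or.inr (Or.inl h1)
        rcases menger_orient hH hr with h2 | ⟨h2, h3⟩ | ⟨h2, h3⟩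
        · exact absurd h2 (hS a ha haS b hb hbS)
        · exact menger_step hGH hxy hH (ih _ hlt) h S hSk hS ⟨a, ha, haS, h2⟩ ⟨b, hb, hbS, h3⟩
        · exact menger_step hGH hxy.symm hH' (ih _ hlt) h S hSk hS ⟨a, ha, haS, h2⟩ ⟨b, hb, hbS, h3⟩

theorem menger {V : Type} [Fintype V] (G : SimpleGraph V) (A B : Set V) (k : ℕ)
    (h : ∀ Z : Finset V, Z.card < k → ∃ l : List V, IsAB G A B l ∧ ∀ v ∈ l, v ∉ Z) : Linked G A B k := by
  refine menger_aux k _ G le_rfl A B ?_
  intro Z hZ hs
  obtain ⟨l, ⟨h1, ⟨a, h2, h3⟩, ⟨b, h4, h5⟩, _, _⟩, h6⟩ := h Z hZ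
  cases l with
  | nil => cases h3
  | cons z t =>
    rw [List.head?_cons, Option.some_inj] at h3
    subst h3
    have hb : b ∈ z :: t := List.mem_of_getLast? h5
    refine hs z h2 (h6 z (by simp)) b h4 (h6 b hb) ?_
    exact menger_pre t z h1 (fun u hu => h6 u (List.mem_of_mem_dropLast hu)) b hb (h6 b hb)

end Pool.Agent.Lib.MP_534936_co.Net
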