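import Pool.Agent.Lib.MP_534936_co.Net.MainNet

/-!
# Real intervals (60 minutes)

Roads `[0, 1]`, vertex `v` = the interval `[s v, t v]` of the road `rd v`. Positions: on every road let `T f` = finite set of the numbers `0, 1` and `s v`, `t v` for the `v` on `f`; the discrete position of a number `z ∈ T f` is the number of elements of `T f` smaller than `z`; `len f = |T f| - 1 ≥ 1`. (Or one set `T` for all roads.)
This is strictly monotone, `0 ↦ 0`, `1 ↦ len`.
-/

set_option autoImplicit false

namespace Pool.Agent.Lib.MP_534936_co.Net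

open Pool.Agent.Lib.MP_534936_co

/-- the interval of `v` contains the node `x` -/
def AtR {V N E : Type} (tl hd : E → N) (rd : V → E) (s t : V → ℝ) (v : V) (x : N) : Prop :=
  (s v = 0 ∧ tl (rd v) = x) ∨ (t v = 1 ∧ hd (rd v) = x)

theorem real_net {V N E : Type} [Fintype V] (tl hd : E → N) (rd : V → E) (s t : V → ℝ) (h0 : ∀ v, 0 ≤ s v)
    (hst : ∀ v, s v ≤ t v) (h1 : ∀ v, t v ≤ 1) (G : SimpleGraph V)
    (hG : ∀ u v, G.Adj u v ↔ u ≠ v ∧ ((rd u = rd v ∧ s u ≤ t v ∧ s v ≤ t u) ∨
      ∃ x, AtR tl hd rd s t u x ∧ AtR tl hd rd s t v x)) :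
    ∃ M : Netw V N E, IsNet G M := by
  classical
  obtain ⟨T, hT0, hTs, hTt⟩ : ∃ T : Finset ℝ, (0 : ℝ) ∈ T ∧ (∀ v, s v ∈ T) ∧ (∀ v, t v ∈ T) := by
    refine ⟨insert 0 (Finset.univ.image s ∪ Finset.univ.image t), Finset.mem_insert_self _ _, ?_, ?_⟩
    · intro v
      exact Finset.mem_insert_of_mem (Finset.mem_union_left _ (Finset.mem_image_of_mem s (Finset.mem_univ v)))
    · intro v
      exact Finset.mem_insert_of_mem (Finset.mem_union_right _ (Finset.mem_image_of_mem t (Finset.mem_univ v)))
  have hmono : ∀ z z' : ℝ, z ≤ z' → (T.filter (fun r => r < z)).card ≤ (T.filter (fun r => r < z')).card := by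
    intro z z' h
    refine Finset.card_le_card (fun r hr => ?_)
    rw [Finset.mem_filter] at hr ⊢
    exact ⟨hr.1, lt_of_lt_of_le hr.2 h⟩
  have hstrict : ∀ z z' : ℝ, z ∈ T → z < z' →
      (T.filter (fun r => r < z)).card < (T.filter (fun r => r < z')).card := by
    intro z z' hz h
    refine Finset.card_lt_card ((Finset.ssubset_iff_of_subset (fun r hr => ?_)).2 ⟨z, ?_, ?_⟩)
    · rw [Finset.mem_filter] at hr ⊢
      exact ⟨hr.1, lt_trans hr.2 h⟩
    · rw [Finset.mem_filter]
      exact ⟨hz, h⟩
    · rw [Finset.mem_filter]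
      exact fun h2 => lt_irrefl z h2.2
  have hle : ∀ z z' : ℝ, z ∈ T →
      ((T.filter (fun r => r < z')).card ≤ (T.filter (fun r => r < z)).card ↔ z' ≤ z) := by
    intro z z' hz
    constructor
    · intro h
      by_contra h2
      have h3 := hstrict z z' hz (not_le.1 h2)
      omega
    · exact fun h => hmono z' z h
  obtain ⟨M, hM⟩ : ∃ M : Netw V N E, M = ⟨tl, hd,
      fun _ => (T.filter (fun r => r < (1 : ℝ))).card - (T.filter (fun r => r < (0 : ℝ))).card, rd,
      fun v => (T.filter (fun r => r < s v)).card - (T.filter (fun r => r < (0 : ℝ))).card,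
      fun v => (T.filter (fun r => r < t v)).card - (T.filter (fun r => r < (0 : ℝ))).card,
      by
        intro _
        have h := hstrict 0 1 hT0 one_pos
        omega,
      by
        intro v
        exact Nat.sub_le_sub_right (hmono _ _ (hst v)) _,
      by
        intro v
        exact Nat.sub_le_sub_right (hmono _ _ (h1 v)) _⟩ := ⟨_, rfl⟩
  refine ⟨M, ?_⟩
  have hat : ∀ v x, M.At v x ↔ AtR tl hd rd s t v x := by
    intro v x
    have e1 : M.s v = (T.filter (fun r => r < s v)).card - (T.filter (fun r => r < (0 : ℝ))).card := by rw [hM]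
    have e2 : M.t v = (T.filter (fun r => r < t v)).card - (T.filter (fun r => r < (0 : ℝ))).card := by rw [hM]
    have e3 : M.len (M.rd v) = (T.filter (fun r => r < (1 : ℝ))).card - (T.filter (fun r => r < (0 : ℝ))).card := by
      rw [hM]
    have e4 : M.tl (M.rd v) = tl (rd v) := by rw [hM]
    have e5 : M.hd (M.rd v) = hd (rd v) := by rw [hM]
    have h2 := hmono 0 (s v) (h0 v)
    have h3 := hmono 0 (t v) ((h0 v).trans (hst v))
    have h4 := hmono (t v) 1 (h1 v)
    have h5 : M.s v = 0 ↔ s v = 0 := by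
      rw [e1]
      constructor
      · intro h
        exact le_antisymm ((hle 0 (s v) hT0).1 (by omega)) (h0 v)
      · intro h
        rw [h]
        omega
    have h6 : M.t v = M.len (M.rd v) ↔ t v = 1 := by
      rw [e2, e3]
      constructor
      · intro h
        exact le_antisymm (h1 v) ((hle (t v) 1 (hTt v)).1 (by omega))
      · intro h
        rw [h]
    unfold Netw.At AtR
    rw [h5, h6, e4, e5]
  intro u v
  rw [hG u v]
  refine and_congr_right fun _ => or_congr ?_ ?_
  · have e0 : M.rd = rd := by rw [hM]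
    have e1 : ∀ w, M.s w = (T.filter (fun r => r < s w)).card - (T.filter (fun r => r < (0 : ℝ))).card := by
      intro w
      rw [hM]
    have e2 : ∀ w, M.t w = (T.filter (fun r => r < t w)).card - (T.filter (fun r => r < (0 : ℝ))).card := by
      intro w
      rw [hM]
    rw [e0, e1, e1, e2, e2]
    have h2 := hmono 0 (s v) (h0 v)
    have h3 := hmono 0 (t v) ((h0 v).trans (hst v))
    have h4 := hmono 0 (s u) (h0 u)
    have h5 := hmono 0 (t u) ((h0 u).trans (hst u))
    rw [← hle (t v) (s u) (hTt v), ← hle (t u) (s v) (hTt u)]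
    refine and_congr_right fun _ => ?_
    constructor
    · rintro ⟨h6, h7⟩
      exact ⟨by omega, by omega⟩
    · rintro ⟨h6, h7⟩
      exact ⟨by omega, by omega⟩
  · constructor
    · rintro ⟨x, hx1, hx2⟩
      exact ⟨x, (hat u x).2 hx1, (hat v x).2 hx2⟩
    · rintro ⟨x, hx1, hx2⟩
      exact ⟨x, (hat u x).1 hx1, (hat v x).1 hx2⟩

end Pool.Agent.Lib.MP_534936_co.Net
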