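import Pool.Agent.Lib.MP_534936_co.Net.ClosMinor
import Pool.Agent.Lib.MP_534936_co.Net.Replace

/-!
# The largest overlap (90 minutes)

`W = {v // rd v = f}`, `s`, `t` on it, `a = |SA|`, `b = |SB|`, `A'` = vertices off `f` at `tl f`, `|K (tl f)| = a + |A'|`. For `u ≠ v` on `f`: `G.Adj u v ↔ s u ≤ t v ∧ s v ≤ t u` (as `tl f ≠ hd f`), so colourings of `stripG s t` = colourings of `G` on
`{rd = f}`. If there is none: `closG s t (len f) 0` is not `n`-colourable, `clos_circ` and `clos_minor` with `w = 0` and `hasMinor_of_minorOf` give a `K_(n+1)` minor. So there is one; take `c` with the largest overlap `j = |c(A) ∩ c(B)|`. If `j < a`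
and `|A'| + a + b > n + j`, put `w = n + j + 1 - a - b` (`a + b - j = |c(A) ∪ c(B)| ≤ n`, so `w ≥ 1`, and `w ≤ |A'|`). By `clos_nocol`, `clos_circ` the graph `closG s t (len f) w` has a `K_(n+1)` minor; `clos_minor` with `ψ i = Q u_i` for `w` different
`u_i ∈ A'`: `G` has a `K_(n+1)` minor.
-/

set_option autoImplicit false

namespace Pool.Agent.Lib.MP_534936_co.Net

open Pool.Agent.Lib.MP_534936_co

theorem stripMax_mem_SA {V N E : Type} [Fintype V] (M : Netw V N E) (f : E) (v : V) :
    v ∈ M.SA f ↔ M.rd v = f ∧ M.s v = 0 := by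
  classical
  unfold Netw.SA
  rw [Finset.mem_filter]
  exact ⟨fun h => h.2, fun h => ⟨Finset.mem_univ v, h⟩⟩

theorem stripMax_mem_SB {V N E : Type} [Fintype V] (M : Netw V N E) (f : E) (v : V) :
    v ∈ M.SB f ↔ M.rd v = f ∧ M.t v = M.len f := by
  classical
  unfold Netw.SB
  rw [Finset.mem_filter]
  exact ⟨fun h => h.2, fun h => ⟨Finset.mem_univ v, h⟩⟩

theorem stripMax_SA {V N E : Type} [Fintype V] (M : Netw V N E) (f : E) [Fintype {v // M.rd v = f}] :
    M.SA f = (Finset.univ.filter (fun v : {v // M.rd v = f} => M.s v.1 = 0)).map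
      (Function.Embedding.subtype (fun v => M.rd v = f)) := by
  ext v
  rw [stripMax_mem_SA, Finset.mem_map]
  constructor
  · rintro ⟨h1, h2⟩
    exact ⟨⟨v, h1⟩, Finset.mem_filter.2 ⟨Finset.mem_univ _, h2⟩, rfl⟩
  · rintro ⟨w, hw, rfl⟩
    exact ⟨w.2, (Finset.mem_filter.1 hw).2⟩

theorem stripMax_SB {V N E : Type} [Fintype V] (M : Netw V N E) (f : E) [Fintype {v // M.rd v = f}] :
    M.SB f = (Finset.univ.filter (fun v : {v // M.rd v = f} => M.t v.1 = M.len f)).map
      (Function.Embedding.subtype (fun v => M.rd v = f)) := by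
  ext v
  rw [stripMax_mem_SB, Finset.mem_map]
  constructor
  · rintro ⟨h1, h2⟩
    exact ⟨⟨v, h1⟩, Finset.mem_filter.2 ⟨Finset.mem_univ _, h2⟩, rfl⟩
  · rintro ⟨w, hw, rfl⟩
    exact ⟨w.2, (Finset.mem_filter.1 hw).2⟩

/-- a colouring of the strip, extended by `0` -/
theorem stripMax_ext {V N E : Type} {M : Netw V N E} {G : SimpleGraph V} (hG : IsNet G M) (n : ℕ) (f : E)
    (hne : M.tl f ≠ M.hd f) (d : {v // M.rd v = f} → ℕ)
    (hd : ColOn (stripG (fun v : {v // M.rd v = f} => M.s v.1) (fun v : {v // M.rd v = f} => M.t v.1)) n Set.univ d) :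
    ∃ c : V → ℕ, ColOn G n {v | M.rd v = f} c ∧ ∀ v : {v // M.rd v = f}, c v.1 = d v := by
  classical
  have hval : ∀ v : {v // M.rd v = f}, (fun v : V => if h : M.rd v = f then d ⟨v, h⟩ else 0) v.1 = d v := by
    intro v
    show (if h : M.rd v.1 = f then d ⟨v.1, h⟩ else 0) = d v
    rw [dif_pos v.2]
  refine ⟨fun v => if h : M.rd v = f then d ⟨v, h⟩ else 0, ⟨?_, ?_⟩, hval⟩
  · intro v hv
    have h1 := hval ⟨v, hv⟩
    have h2 := hd.1 ⟨v, hv⟩ (Set.mem_univ _)
    rw [← h1] at h2
    exact h2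
  · intro u hu v hv huv
    have h1 := hval ⟨u, hu⟩
    have h2 := hval ⟨v, hv⟩
    have hu' : M.rd u = f := hu
    have hv' : M.rd v = f := hv
    have h3 := (hG u v).1 huv
    have hkey : M.s u ≤ M.t v ∧ M.s v ≤ M.t u := by
      have e1 := M.st u
      have e2 := M.st v
      rcases h3.2 with ⟨_, h4, h5⟩ | ⟨x, hx1, hx2⟩
      · exact ⟨h4, h5⟩
      · unfold Netw.At at hx1 hx2
        rw [hu'] at hx1
        rw [hv'] at hx2
        rcases hx1 with ⟨a1, a2⟩ | ⟨a1, a2⟩
        · rcases hx2 with ⟨b1, b2⟩ | ⟨b1, b2⟩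
          · exact ⟨by omega, by omega⟩
          · exact absurd (a2.trans b2.symm) hne
        · rcases hx2 with ⟨b1, b2⟩ | ⟨b1, b2⟩
          · exact absurd (b2.trans a2.symm) hne
          · exact ⟨by omega, by omega⟩
    have h6 : (stripG (fun v : {v // M.rd v = f} => M.s v.1) (fun v : {v // M.rd v = f} => M.t v.1)).Adj
        ⟨u, hu⟩ ⟨v, hv⟩ := by
      refine ⟨?_, hkey.1, hkey.2⟩
      intro h
      exact h3.1 (congrArg Subtype.val h)
    have h7 := hd.2 ⟨u, hu⟩ (Set.mem_univ _) ⟨v, hv⟩ (Set.mem_univ _) h6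
    intro h8
    apply h7
    rw [← h1, ← h2]
    exact h8

/-- the overlap of a colouring of the strip and of its extension -/
theorem stripMax_overlap {V N E : Type} [Fintype V] (M : Netw V N E) (f : E) [Fintype {v // M.rd v = f}]
    (c : V → ℕ) (d : {v // M.rd v = f} → ℕ) (h : ∀ v : {v // M.rd v = f}, c v.1 = d v) :
    (M.SA f).image c ∩ (M.SB f).image c =
      (Finset.univ.filter (fun v : {v // M.rd v = f} => M.s v.1 = 0)).image d ∩
        (Finset.univ.filter (fun v : {v // M.rd v = f} => M.t v.1 = M.len f)).image d := by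
  have hA : (M.SA f).image c = (Finset.univ.filter (fun v : {v // M.rd v = f} => M.s v.1 = 0)).image d := by
    ext x
    rw [Finset.mem_image, Finset.mem_image]
    constructor
    · rintro ⟨v, hv, rfl⟩
      have hv' := (stripMax_mem_SA M f v).1 hv
      exact ⟨⟨v, hv'.1⟩, Finset.mem_filter.2 ⟨Finset.mem_univ _, hv'.2⟩, (h ⟨v, hv'.1⟩).symm⟩
    · rintro ⟨v, hv, rfl⟩
      exact ⟨v.1, (stripMax_mem_SA M f v.1).2 ⟨v.2, (Finset.mem_filter.1 hv).2⟩, h v⟩
  have hB : (M.SB f).image c = (Finset.univ.filter (fun v : {v // M.rd v = f} => M.t v.1 = M.len f)).image d := by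
    ext x
    rw [Finset.mem_image, Finset.mem_image]
    constructor
    · rintro ⟨v, hv, rfl⟩
      have hv' := (stripMax_mem_SB M f v).1 hv
      exact ⟨⟨v, hv'.1⟩, Finset.mem_filter.2 ⟨Finset.mem_univ _, hv'.2⟩, (h ⟨v, hv'.1⟩).symm⟩
    · rintro ⟨v, hv, rfl⟩
      exact ⟨v.1, (stripMax_mem_SB M f v.1).2 ⟨v.2, (Finset.mem_filter.1 hv).2⟩, h v⟩
  rw [hA, hB]

theorem strip_max {V N E : Type} [Fintype V] (hT : Circ) {M : Netw V N E} {G : SimpleGraph V} (hG : IsNet G M) (n : ℕ)
    (hno : ¬ HasMinor G (n + 1)) (f : E) (hne : M.tl f ≠ M.hd f) (Q : V → Set V) (hQ : StripFam M G f Q) :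
    ∃ c : V → ℕ, ColOn G n {v | M.rd v = f} c ∧
      (((M.SA f).image c ∩ (M.SB f).image c).card < (M.SA f).card →
        (M.K (M.tl f)).card + (M.SB f).card ≤ n + ((M.SA f).image c ∩ (M.SB f).image c).card) := by
  classical
  have : Fintype {v // M.rd v = f} := Fintype.ofFinite _
  have hst : ∀ v : {v // M.rd v = f}, M.s v.1 ≤ M.t v.1 := fun v => M.st v.1
  have ht : ∀ v : {v // M.rd v = f}, M.t v.1 ≤ M.len f := by
    intro v
    have h := M.tlen v.1
    rw [v.2] at h
    exact h
  -- there is a colouring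
  have hex : ∃ c : V → ℕ, ColOn G n {v | M.rd v = f} c := by
    by_contra hcon
    have hnc : ¬ Col (closG (fun v : {v // M.rd v = f} => M.s v.1) (fun v : {v // M.rd v = f} => M.t v.1)
        (M.len f) 0) n := by
      rintro ⟨e, he1, he2⟩
      apply hcon
      obtain ⟨c, hc, _⟩ := stripMax_ext hG n f hne (fun v => e (Sum.inl v))
        ⟨fun v _ => he1 _, fun u _ v _ huv => he2 (Sum.inl u) (Sum.inl v) huv⟩
      exact ⟨c, hc⟩
    have hm := clos_circ hT (fun v : {v // M.rd v = f} => M.s v.1) (fun v : {v // M.rd v = f} => M.t v.1)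
      (M.len f) 0 (M.len_pos f) hst ht n hnc
    have hmi := clos_minor hG f 0 (fun i => Fin.elim0 i) (fun i => Fin.elim0 i) (fun i => Fin.elim0 i)
      (fun i => Fin.elim0 i) (fun i => Fin.elim0 i) (fun i => Fin.elim0 i)
    exact hno (hasMinor_of_minorOf _ G hmi (n + 1) hm)
  -- a colouring with the largest overlap
  have hle : ∀ c : V → ℕ, ((M.SA f).image c ∩ (M.SB f).image c).card ≤ (M.SA f).card := by
    intro c
    exact le_trans (Finset.card_le_card Finset.inter_subset_left) Finset.card_image_le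
  obtain ⟨c, hc, hmax⟩ : ∃ c : V → ℕ, ColOn G n {v | M.rd v = f} c ∧ ∀ c' : V → ℕ, ColOn G n {v | M.rd v = f} c' →
      ((M.SA f).image c' ∩ (M.SB f).image c').card ≤ ((M.SA f).image c ∩ (M.SB f).image c).card := by
    obtain ⟨c0, hc0⟩ := hex
    set P : ℕ → Prop := fun j => ∃ c : V → ℕ, ColOn G n {v | M.rd v = f} c ∧
      ((M.SA f).image c ∩ (M.SB f).image c).card = j with hP
    have h1 : P (Nat.findGreatest P (M.SA f).card) :=
      Nat.findGreatest_spec (P := P) (hle c0) ⟨c0, hc0, rfl⟩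
    obtain ⟨c, hc, hcj⟩ := h1
    refine ⟨c, hc, ?_⟩
    intro c' hc'
    rw [hcj]
    exact Nat.le_findGreatest (hle c') ⟨c', hc', rfl⟩
  refine ⟨c, hc, ?_⟩
  intro hlt
  by_contra hbig
  set j := ((M.SA f).image c ∩ (M.SB f).image c).card with hj
  -- sizes
  have hAt : ∀ v ∈ M.SA f, M.At v (M.tl f) := by
    intro v hv
    have h := (stripMax_mem_SA M f v).1 hv
    refine Or.inl ⟨h.2, ?_⟩
    rw [h.1]
  have hBt : ∀ v ∈ M.SB f, M.At v (M.hd f) := by
    intro v hv
    have h := (stripMax_mem_SB M f v).1 hv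
    refine Or.inr ⟨?_, ?_⟩
    · rw [h.1]
      exact h.2
    · rw [h.1]
  have hcA : ((M.SA f).image c).card = (M.SA f).card := by
    apply Finset.card_image_of_injOn
    intro u hu v hv huv
    by_contra huv'
    have hu' : u ∈ M.SA f := hu
    have hv' : v ∈ M.SA f := hv
    exact hc.2 u ((stripMax_mem_SA M f u).1 hu').1 v ((stripMax_mem_SA M f v).1 hv').1
      (adj_of_at hG (hAt u hu') (hAt v hv') huv') huv
  have hcB : ((M.SB f).image c).card = (M.SB f).card := by
    apply Finset.card_image_of_injOn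
    intro u hu v hv huv
    by_contra huv'
    have hu' : u ∈ M.SB f := hu
    have hv' : v ∈ M.SB f := hv
    exact hc.2 u ((stripMax_mem_SB M f u).1 hu').1 v ((stripMax_mem_SB M f v).1 hv').1
      (adj_of_at hG (hBt u hu') (hBt v hv') huv') huv
  have hun : ((M.SA f).image c ∪ (M.SB f).image c).card ≤ n := by
    have h1 : (M.SA f).image c ∪ (M.SB f).image c ⊆ Finset.range n := by
      intro x hx
      rw [Finset.mem_range]
      rcases Finset.mem_union.1 hx with h | h
      · obtain ⟨v, hv, rfl⟩ := Finset.mem_image.1 h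
        exact hc.1 v ((stripMax_mem_SA M f v).1 hv).1
      · obtain ⟨v, hv, rfl⟩ := Finset.mem_image.1 h
        exact hc.1 v ((stripMax_mem_SB M f v).1 hv).1
    have h2 := Finset.card_le_card h1
    rw [Finset.card_range] at h2
    exact h2
  have hui := Finset.card_union_add_card_inter ((M.SA f).image c) ((M.SB f).image c)
  rw [hcA, hcB, ← hj] at hui
  obtain ⟨w, hw⟩ : ∃ w, n + j + 1 = w + (M.SA f).card + (M.SB f).card := ⟨n + j + 1 - (M.SA f).card - (M.SB f).card, by omega⟩
  -- the vertices off `f` at the tail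
  set A' : Finset V := Finset.univ.filter (fun v => M.rd v ≠ f ∧ M.At v (M.tl f)) with hA'
  have hA'm : ∀ v, v ∈ A' ↔ M.rd v ≠ f ∧ M.At v (M.tl f) := by
    intro v
    rw [hA', Finset.mem_filter]
    exact ⟨fun h => h.2, fun h => ⟨Finset.mem_univ v, h⟩⟩
  have hK : (M.K (M.tl f)).card = (M.SA f).card + A'.card := by
    have h1 : M.K (M.tl f) = M.SA f ∪ A' := by
      ext v
      rw [mem_K, Finset.mem_union, stripMax_mem_SA, hA'm]
      constructor
      · intro h
        by_cases hv : M.rd v = f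
        · left
          refine ⟨hv, ?_⟩
          unfold Netw.At at h
          rw [hv] at h
          rcases h with ⟨h1, _⟩ | ⟨_, h2⟩
          · exact h1
          · exact absurd h2.symm hne
        · exact Or.inr ⟨hv, h⟩
      · rintro (h | h)
        · refine Or.inl ⟨h.2, ?_⟩
          rw [h.1]
        · exact h.2
    have h2 : Disjoint (M.SA f) A' := by
      rw [Finset.disjoint_left]
      intro v hv hv'
      exact ((hA'm v).1 hv').1 ((stripMax_mem_SA M f v).1 hv).1
    rw [h1, Finset.card_union_of_disjoint h2]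
  have hwA : w ≤ A'.card := by omega
  obtain ⟨S, hSA, hScard⟩ := Finset.exists_subset_card_eq hwA
  -- enumerate `S`
  set u : Fin w → V := fun i => ((S.equivFin.symm (Fin.cast hScard.symm i)) : V) with hu
  have huS : ∀ i, u i ∈ S := fun i => (S.equivFin.symm (Fin.cast hScard.symm i)).2
  have huinj : Function.Injective u := by
    intro i i' h
    have h1 : S.equivFin.symm (Fin.cast hScard.symm i) = S.equivFin.symm (Fin.cast hScard.symm i') := Subtype.ext h
    have h2 := S.equivFin.symm.injective h1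
    exact Fin.ext (by
      have h3 := congrArg Fin.val h2
      exact h3)
  have huA : ∀ i, M.rd (u i) ≠ f ∧ M.At (u i) (M.tl f) := fun i => (hA'm (u i)).1 (hSA (huS i))
  -- the closure is not colourable
  have hcardA : (Finset.univ.filter (fun v : {v // M.rd v = f} => M.s v.1 = 0)).card = (M.SA f).card := by
    rw [stripMax_SA M f, Finset.card_map]
  have hcardB : (Finset.univ.filter (fun v : {v // M.rd v = f} => M.t v.1 = M.len f)).card = (M.SB f).card := by
    rw [stripMax_SB M f, Finset.card_map]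
  have hnc : ¬ Col (closG (fun v : {v // M.rd v = f} => M.s v.1) (fun v : {v // M.rd v = f} => M.t v.1)
      (M.len f) w) n := by
    apply clos_nocol (fun v : {v // M.rd v = f} => M.s v.1) (fun v : {v // M.rd v = f} => M.t v.1) (M.len f) w n j
      hst ht
    · rw [hcardA, hcardB]
      exact hw
    · intro d hd
      obtain ⟨c', hc', hcd⟩ := stripMax_ext hG n f hne d hd
      have h1 := hmax c' hc'
      rw [stripMax_overlap M f c' d hcd] at h1
      exact h1
  have hm := clos_circ hT (fun v : {v // M.rd v = f} => M.s v.1) (fun v : {v // M.rd v = f} => M.t v.1)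
    (M.len f) w (M.len_pos f) hst ht n hnc
  have hmi := clos_minor hG f w (fun i => Q (u i)) (fun i => (hQ.1 (u i) (huA i).2).2.1)
    (fun i i' hii => hQ.2 (u i) (u i') (huA i).2 (huA i').2 (fun h => hii (huinj h)))
    (fun i v hv h => (huA i).1 (((hQ.1 (u i) (huA i).2).2.2.2.1 v hv).1 h))
    (fun i => ⟨u i, (hQ.1 (u i) (huA i).2).1, (huA i).2⟩)
    (fun i => by
      obtain ⟨b, hb1, hb2, _⟩ := (hQ.1 (u i) (huA i).2).2.2.1
      exact ⟨b, hb2, hb1⟩)
  exact hno (hasMinor_of_minorOf _ G hmi (n + 1) hm)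

end Pool.Agent.Lib.MP_534936_co.Net
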