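import Pool.Agent.Lib.MP_534936_co.Net.Minor

/-!
# The paths between the ends of a road (40 minutes)

The `|K (tl f)|` disjoint paths start at different vertices of `K (tl f)`, so every `u` in `K (tl f)` is the first vertex of exactly one path; `Q u` = its vertices. A path which starts on the road `f` stays on `f`, one which starts
outside stays outside: two adjacent vertices, one on `f`, the other one not, both contain `tl f` or both contain `hd f`; but only the first vertex contains `tl f` and only the last one `hd f`.
-/

set_option autoImplicit false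

namespace Pool.Agent.Lib.MP_534936_co.Net

open Pool.Agent.Lib.MP_534936_co

/-- the family of connected sets obtained from `|K (tl f)|` disjoint paths from `K (tl f)` to `K (hd f)` -/
def StripFam {V N E : Type} (M : Netw V N E) (G : SimpleGraph V) (f : E) (Q : V → Set V) : Prop :=
  (∀ u, M.At u (M.tl f) → u ∈ Q u ∧ (G.induce (Q u)).Connected ∧
    (∃ b, M.At b (M.hd f) ∧ b ∈ Q u ∧ ∀ b', M.At b' (M.hd f) → b' ∈ Q u → b' = b) ∧
    (∀ v ∈ Q u, (M.rd v = f ↔ M.rd u = f)) ∧ ∀ v ∈ Q u, M.At v (M.tl f) → v = u) ∧
  ∀ u u', M.At u (M.tl f) → M.At u' (M.tl f) → u ≠ u' → Disjoint (Q u) (Q u')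

theorem StripPaths_step {V N E : Type} {M : Netw V N E} {G : SimpleGraph V} (hG : IsNet G M) (f : E) {v w : V}
    (hadj : G.Adj v w) (hw : ¬ M.At w (M.tl f)) (hv : ¬ M.At v (M.hd f)) : M.rd v = f ↔ M.rd w = f := by
  rcases ((hG v w).1 hadj).2 with h | ⟨x, hx1, hx2⟩
  · rw [h.1]
  · constructor
    · intro h1
      rcases hx1 with ⟨_, h3⟩ | ⟨_, h3⟩
      · rw [h1] at h3
        rw [← h3] at hx2
        exact absurd hx2 hw
      · exfalso
        apply hv
        right
        exact ⟨by assumption, by rw [h1]⟩
    · intro h1
      rcases hx2 with ⟨h2, h3⟩ | ⟨h2, h3⟩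
      · exact absurd (Or.inl ⟨h2, by rw [h1]⟩) hw
      · rw [h1] at h3
        rw [← h3] at hx1
        exact absurd hx1 hv

theorem StripPaths_chain {V N E : Type} {M : Netw V N E} {G : SimpleGraph V} (hG : IsNet G M) (f : E) :
    ∀ (l : List V) (a : V), (a :: l).IsChain G.Adj → (∀ v ∈ l, ¬ M.At v (M.tl f)) →
      (∀ v ∈ (a :: l).dropLast, ¬ M.At v (M.hd f)) → ∀ v ∈ a :: l, (M.rd v = f ↔ M.rd a = f) := by
  intro l
  induction l with
  | nil =>
    intro a _ _ _ v hv
    rw [List.mem_singleton] at hv
    rw [hv]
  | cons b l ih =>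
    intro a hch hA hB v hv
    rw [List.isChain_cons_cons] at hch
    have hab : M.rd a = f ↔ M.rd b = f := by
      apply StripPaths_step hG f hch.1 (hA b (List.mem_cons_self))
      apply hB
      rw [List.dropLast_cons_cons]
      exact List.mem_cons_self
    rcases List.mem_cons.1 hv with h | h
    · rw [h]
    · rw [hab]
      refine ih b hch.2 (fun w hw => hA w (List.mem_cons_of_mem _ hw)) ?_ v h
      intro w hw
      apply hB
      rw [List.dropLast_cons_cons]
      exact List.mem_cons_of_mem _ hw

theorem strip_paths {V N E : Type} [Fintype V] {M : Netw V N E} {G : SimpleGraph V} (hG : IsNet G M) (f : E)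
    (hL : Linked G {v | M.At v (M.tl f)} {v | M.At v (M.hd f)} (M.K (M.tl f)).card) :
    ∃ Q : V → Set V, StripFam M G f Q := by
  classical
  obtain ⟨P, hP, hdis⟩ := hL
  choose hch hhd hlast htail hdrop using hP
  choose a haA hah using hhd
  choose b hbB hbl using hlast
  have hamem : ∀ i, a i ∈ P i := fun i => List.mem_of_mem_head? (hah i)
  have hinj : Function.Injective a := by
    intro i j hij
    by_contra hne
    exact hdis i j hne (a i) (hamem i) (by rw [hij]; exact hamem j)
  have hsurj : ∀ u, M.At u (M.tl f) → ∃ i, a i = u := by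
    intro u hu
    have h1 : Finset.univ.image a = M.K (M.tl f) := by
      apply Finset.eq_of_subset_of_card_le
      · intro w hw
        obtain ⟨i, _, hi⟩ := Finset.mem_image.1 hw
        rw [← hi, mem_K]
        exact haA i
      · rw [Finset.card_image_of_injective _ hinj, Finset.card_univ, Fintype.card_fin]
    have h2 : u ∈ Finset.univ.image a := by
      rw [h1, mem_K]
      exact hu
    obtain ⟨i, _, hi⟩ := Finset.mem_image.1 h2
    exact ⟨i, hi⟩
  choose g hg using hsurj
  refine ⟨fun u => if h : M.At u (M.tl f) then {v | v ∈ P (g u h)} else ∅, ?_, ?_⟩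
  · intro u hu
    have hQ : (fun u => if h : M.At u (M.tl f) then {v | v ∈ P (g u h)} else (∅ : Set V)) u = {v | v ∈ P (g u hu)} := by
      show (if h : M.At u (M.tl f) then {v | v ∈ P (g u h)} else (∅ : Set V)) = _
      rw [dif_pos hu]
    rw [hQ]
    set i := g u hu with hi
    have hai : a i = u := hg u hu
    have hne : P i ≠ [] := List.ne_nil_of_mem (hamem i)
    obtain ⟨l, hl⟩ : ∃ l, P i = a i :: l := by
      have h1 := hah i
      cases h2 : P i with
      | nil => exact absurd h2 hne
      | cons c l =>
        rw [h2] at h1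
        simp only [List.head?_cons, Option.some.injEq] at h1
        exact ⟨l, by rw [h1]⟩
    refine ⟨?_, conn_list G (P i) hne (hch i), ⟨b i, hbB i, ?_, ?_⟩, ?_, ?_⟩
    · show u ∈ P i
      rw [← hai]
      exact hamem i
    · exact List.mem_of_mem_getLast? (hbl i)
    · intro b' hb' hb'P
      have h1 : P i = (P i).dropLast ++ [b i] := by
        rw [← List.dropLast_append_getLast hne]
        have h2 := hbl i
        rw [List.getLast?_eq_some_getLast hne] at h2
        have h3 : (P i).getLast hne = b i := Option.some.inj h2
        rw [h3]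
        simp
      have h2 : b' ∈ (P i).dropLast ++ [b i] := by
        rw [← h1]
        exact hb'P
      rcases List.mem_append.1 h2 with h3 | h3
      · exact absurd hb' (hdrop i b' h3)
      · exact List.mem_singleton.1 h3
    · intro v hv
      have h1 := StripPaths_chain hG f l (a i) (by rw [← hl]; exact hch i)
        (fun w hw => htail i w (by rw [hl]; exact hw)) (fun w hw => hdrop i w (by rw [hl]; exact hw)) v
        (by rw [← hl]; exact hv)
      rw [hai] at h1
      exact h1
    · intro v hv hvA
      have h1 : v ∈ a i :: l := by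
        rw [← hl]
        exact hv
      rcases List.mem_cons.1 h1 with h2 | h2
      · rw [h2, hai]
      · exact absurd hvA (htail i v (by rw [hl]; exact h2))
  · intro u u' hu hu' hne
    show Disjoint (if h : M.At u (M.tl f) then {v | v ∈ P (g u h)} else (∅ : Set V))
      (if h : M.At u' (M.tl f) then {v | v ∈ P (g u' h)} else (∅ : Set V))
    rw [dif_pos hu, dif_pos hu']
    rw [Set.disjoint_left]
    intro v hv hv'
    refine hdis (g u hu) (g u' hu') ?_ v hv hv'
    intro h
    apply hne
    rw [← hg u hu, ← hg u' hu', h]

end Pool.Agent.Lib.MP_534936_co.Net
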