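import Pool.Agent.Lib.MP_534936_co.Net.StripMax
import Pool.Agent.Lib.MP_534936_co.Net.Extend
import Pool.Agent.Lib.MP_534936_co.Net.CutLemma

/-!
# Every vertex of a road contains the larger end

`Q` from `cut_lemma` and `strip_paths`. If some vertex of `f` does not contain `hd f`: `φ, L, Y` from `replace_col`, `c` from `strip_max`, `j` its overlap, `a = |SA|`, `b = |SB|`, `A'` = vertices off `f` at `tl f`, `|A'| = |K (tl f)| - a`.
If `j = a`: `X = L`. If `j < a`: `U` = colours `< n` not in `φ(A')`, `|U| ≥ n - |A'| ≥ a + b - j`, so `|U \ Y| ≥ a - j`; `X` = `j` elements of `L` and `a - j` elements of `U \ Y`; `|X| = a`, `|X ∩ Y| = j` (`L ⊆ Y`). `extend_strip`.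
-/

set_option autoImplicit false

namespace Pool.Agent.Lib.MP_534936_co.Net

open Pool.Agent.Lib.MP_534936_co

theorem StripStep_finish {V N E : Type} [Fintype V] {M : Netw V N E} {G : SimpleGraph V} {n : ℕ}
    (hC : Crit M G n) (f : E) (hne : M.tl f ≠ M.hd f) (φ c : V → ℕ) (L Y : Finset ℕ)
    (hφ : ColOn G n {v | M.rd v ≠ f} φ) (hLY : L ⊆ Y) (hY : Y ⊆ Finset.range n)
    (hLa : L.card = (M.SA f).card) (hYb : Y.card = (M.SB f).card)
    (hL0 : ∀ u, M.rd u ≠ f → M.At u (M.tl f) → φ u ∉ L)
    (hY0 : ∀ u, M.rd u ≠ f → M.At u (M.hd f) → φ u ∉ Y)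
    (hc : ColOn G n {v | M.rd v = f} c)
    (hmax : ((M.SA f).image c ∩ (M.SB f).image c).card < (M.SA f).card →
        (M.K (M.tl f)).card + (M.SB f).card ≤ n + ((M.SA f).image c ∩ (M.SB f).image c).card) :
    Col G n := by
  classical
  obtain ⟨j, hj⟩ : ∃ j, ((M.SA f).image c ∩ (M.SB f).image c).card = j := ⟨_, rfl⟩
  rw [hj] at hmax
  have hja : j ≤ (M.SA f).card := by
    rw [← hj]
    exact (Finset.card_le_card Finset.inter_subset_left).trans Finset.card_image_le
  by_cases hlt : j < (M.SA f).card
  · have h1 := hmax hlt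
    -- vertices off the road at the tail
    let A' : Finset V := Finset.univ.filter fun u => M.rd u ≠ f ∧ M.At u (M.tl f)
    have hK : (M.K (M.tl f)).card = (M.SA f).card + A'.card := by
      have h2 : M.K (M.tl f) = M.SA f ∪ A' := by
        ext u
        rw [mem_K, Finset.mem_union]
        unfold Netw.SA
        rw [Finset.mem_filter, Finset.mem_filter]
        constructor
        · intro hu
          by_cases hr : M.rd u = f
          · left
            refine ⟨Finset.mem_univ u, hr, ?_⟩
            rcases hu with hu | hu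
            · exact hu.1
            · rw [hr] at hu
              exact absurd hu.2.symm hne
          · exact Or.inr ⟨Finset.mem_univ u, hr, hu⟩
        · rintro (⟨-, h3, h4⟩ | ⟨-, -, h4⟩)
          · exact Or.inl ⟨h4, by rw [h3]⟩
          · exact h4
      have h3 : Disjoint (M.SA f) A' := by
        rw [Finset.disjoint_left]
        intro u hu hu'
        unfold Netw.SA at hu
        rw [Finset.mem_filter] at hu hu'
        exact hu'.2.1 hu.2.1
      rw [h2, Finset.card_union_of_disjoint h3]
    let U : Finset ℕ := Finset.range n \ A'.image φ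
    have hU : n ≤ U.card + A'.card := by
      have h2 : n - (A'.image φ).card ≤ U.card := by
        have h3 := Finset.le_card_sdiff (A'.image φ) (Finset.range n)
        rw [Finset.card_range] at h3
        exact h3
      have h3 : (A'.image φ).card ≤ A'.card := Finset.card_image_le
      omega
    have hUY : (M.SA f).card - j ≤ (U \ Y).card := by
      have h2 := Finset.le_card_sdiff Y U
      omega
    obtain ⟨W, hW, hWc⟩ := Finset.exists_subset_card_eq hUY
    obtain ⟨L0, hL0L, hL0c⟩ := Finset.exists_subset_card_eq (show j ≤ L.card by omega)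
    have hdis : Disjoint L0 W := by
      rw [Finset.disjoint_left]
      intro i hi hi'
      exact (Finset.mem_sdiff.1 (hW hi')).2 (hLY (hL0L hi))
    refine extend_strip hC.net n f φ c hφ hc (L0 ∪ W) Y ?_ hY ?_ hYb ?_ ?_ hY0
    · intro i hi
      rcases Finset.mem_union.1 hi with hi | hi
      · exact hY (hLY (hL0L hi))
      · exact (Finset.mem_sdiff.1 (Finset.mem_sdiff.1 (hW hi)).1).1
    · rw [Finset.card_union_of_disjoint hdis, hL0c, hWc]
      omega
    · rw [hj]
      have h2 : (L0 ∪ W) ∩ Y = L0 := by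
        ext i
        rw [Finset.mem_inter, Finset.mem_union]
        constructor
        · rintro ⟨h3 | h3, h4⟩
          · exact h3
          · exact absurd h4 (Finset.mem_sdiff.1 (hW h3)).2
        · intro h3
          exact ⟨Or.inl h3, hLY (hL0L h3)⟩
      rw [h2, hL0c]
    · intro u hu hut hmem
      rcases Finset.mem_union.1 hmem with h2 | h2
      · exact hL0 u hu hut (hL0L h2)
      · refine (Finset.mem_sdiff.1 (Finset.mem_sdiff.1 (hW h2)).1).2 ?_
        refine Finset.mem_image.2 ⟨u, ?_, rfl⟩
        rw [Finset.mem_filter]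
        exact ⟨Finset.mem_univ u, hu, hut⟩
  · have hj2 : j = (M.SA f).card := by omega
    refine extend_strip hC.net n f φ c hφ hc L Y (hLY.trans hY) hY hLa hYb ?_ hL0 hY0
    rw [hj, Finset.inter_eq_left.2 hLY, hLa, hj2]

theorem strip_step {V N E : Type} [Fintype V] (hT : Circ) {M : Netw V N E} {G : SimpleGraph V} {n : ℕ}
    (hC : Crit M G n) (f : E) (hne : M.tl f ≠ M.hd f) (hK : (M.K (M.tl f)).card ≤ (M.K (M.hd f)).card) (v : V)
    (hv : M.rd v = f) : M.t v = M.len f := by
  by_contra h
  obtain ⟨Q, hQ⟩ := strip_paths hC.net f (cut_lemma hC (M.tl f) (M.hd f) _ le_rfl hK)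
  obtain ⟨φ, L, Y, hφ, hLY, hY, hLa, hYb, hL0, hY0⟩ := replace_col hC f hne Q hQ ⟨v, hv, h⟩
  obtain ⟨c, hc, hmax⟩ := strip_max hT hC.net n hC.nominor f hne Q hQ
  exact hC.nocol (StripStep_finish hC f hne φ c L Y hφ hLY hY hLa hYb hL0 hY0 hc hmax)

end Pool.Agent.Lib.MP_534936_co.Net
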