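import Pool.Agent.Lib.MP_534936_co.Net.LineDefs
import Pool.Agent.Lib.MP_534936_co.Net.Minor

/-!
# Paths and a multi-edge (90 minutes)

`P i` the `k` paths from `K z` to `K x`. If the first vertex `u` of `P i` contains `y`: it does not contain `x`, so `P i` has a second vertex, it does not contain `z` and is adjacent to `u`, so it contains `y`; two sets `{u}`, `P i \ u` (connected by `conn_list`). Otherwise one set, the whole `P i`. The vertices containing `y` and `z` on no path:
singletons. (A vertex containing `z` on a path is its first one.) Index set: `Fin k ⊕ {v // Inc v y ∧ Inc v z}`, `inl i` ↦ the set of `P i` containing the vertex of `K x`, `inr v` ↦ `{v}`. Every set contains members of two of `K x`, `K y`, `K z`, so any two of them are adjacent. Reindex by `Fin (k + mu)`.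
-/

set_option autoImplicit false

namespace Pool.Agent.Lib.MP_534936_co.Net

open Pool.Agent.Lib.MP_534936_co

/-- the part of a path used in `triangle` -/
private theorem triangle_part {V N : Type} (G : SimpleGraph V) (p q : V → N) (hL : LineG G p q) (x y z : N)
    (hxy : x ≠ y) (hxz : x ≠ z) (hyz : y ≠ z) (l : List V)
    (hl : IsAB G {v | Inc p q v z} {v | Inc p q v x} l) :
    ∃ T : List V, T ≠ [] ∧ T.IsChain G.Adj ∧ (∀ v ∈ T, v ∈ l) ∧ (∃ b ∈ T, Inc p q b x) ∧
      (∀ v, Inc p q v y → Inc p q v z → v ∉ T) ∧ ∃ a ∈ T, Inc p q a y ∨ Inc p q a z := by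
  obtain ⟨hch, ⟨u, huz, hu⟩, ⟨b, hbx, hb⟩, htail, -⟩ := hl
  have huz' : Inc p q u z := huz
  have hbx' : Inc p q b x := hbx
  cases l with
  | nil => simp at hu
  | cons u0 l' =>
    have hu0 : u0 = u := by simpa using hu
    subst hu0
    have hnz : ∀ v ∈ l', ¬ Inc p q v z := fun v hv h => htail v (by simpa using hv) h
    by_cases huy : Inc p q u0 y
    · cases l' with
      | nil =>
        exfalso
        have hb0 : u0 = b := by simpa using hb
        subst hb0
        exact hyz (inc_two hbx' huy huz' hxy hxz)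
      | cons u2 l2 =>
        have h2 := (List.isChain_cons_cons.1 hch)
        obtain ⟨hne, t, ht1, ht2⟩ := (hL.adj u0 u2).1 h2.1
        have hu2z : ¬ Inc p q u2 z := hnz u2 (by simp)
        have hty : t = y := by
          by_contra hty
          have hzt : z = t := inc_two huy huz' ht1 hyz (fun h => hty h.symm)
          exact hu2z (hzt ▸ ht2)
        have hu2y : Inc p q u2 y := hty ▸ ht2
        refine ⟨u2 :: l2, by simp, h2.2, fun v hv => List.mem_cons_of_mem _ hv, ⟨b, ?_, hbx'⟩, ?_, u2, by simp, Or.inl hu2y⟩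
        · have hb2 : (u2 :: l2).getLast? = some b := by
            rw [List.getLast?_cons_cons] at hb
            exact hb
          exact List.mem_of_getLast? hb2
        · intro v _ hvz hv
          exact hnz v hv hvz
    · refine ⟨u0 :: l', by simp, hch, fun v hv => hv, ⟨b, List.mem_of_getLast? hb, hbx'⟩, ?_, u0, by simp, Or.inr huz'⟩
      intro v hvy hvz hv
      rcases List.mem_cons.1 hv with rfl | hv
      · exact huy hvy
      · exact hnz v hv hvz

theorem triangle {V N : Type} [Fintype V] (G : SimpleGraph V) (p q : V → N) (hL : LineG G p q) (x y z : N)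
    (hxy : x ≠ y) (hxz : x ≠ z) (hyz : y ≠ z) (k : ℕ) (hl : Linked G {v | Inc p q v z} {v | Inc p q v x} k) :
    HasMinor G (k + mu p q y z) := by
  classical
  obtain ⟨P, hP, hPd⟩ := hl
  choose T hT0 hTc hTP hTx hTyz hTa using fun i => triangle_part G p q hL x y z hxy hxz hyz (P i) (hP i)
  have hTd : ∀ i j, i ≠ j → ∀ v ∈ T i, v ∉ T j := fun i j hij v hv hv' => hPd i j hij v (hTP i v hv) (hTP j v hv')
  have hcard : Fintype.card (Fin k ⊕ {v : V // Inc p q v y ∧ Inc p q v z}) = k + mu p q y z := by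
    rw [Fintype.card_sum, Fintype.card_fin, Fintype.card_subtype]
    unfold mu
    rfl
  refine hasMinor_of_equiv (ι := Fin k ⊕ {v : V // Inc p q v y ∧ Inc p q v z}) G (k + mu p q y z) hcard
    (fun s => Sum.elim (fun i => {v | v ∈ T i}) (fun v => {v.1}) s) ?_ ?_
  · rintro (i | v)
    · exact conn_list G (T i) (hT0 i) (hTc i)
    · exact conn_single G v.1
  · have key : ∀ i (v : {v : V // Inc p q v y ∧ Inc p q v z}), ∃ a ∈ T i, G.Adj a v.1 := by
      intro i v
      obtain ⟨a, haT, ha⟩ := hTa i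
      have hne : a ≠ v.1 := fun h => hTyz i v.1 v.2.1 v.2.2 (h ▸ haT)
      refine ⟨a, haT, (hL.adj a v.1).2 ⟨hne, ?_⟩⟩
      rcases ha with ha | ha
      · exact ⟨y, ha, v.2.1⟩
      · exact ⟨z, ha, v.2.2⟩
    rintro (i | v) (j | w) hij
    · have hij' : i ≠ j := fun h => hij (h ▸ rfl)
      refine ⟨Set.disjoint_left.2 fun v hv hv' => hTd i j hij' v hv hv', ?_⟩
      obtain ⟨a, haT, ha⟩ := hTx i
      obtain ⟨b, hbT, hb⟩ := hTx j
      have hne : a ≠ b := fun h => hTd i j hij' a haT (h ▸ hbT)
      exact ⟨a, haT, b, hbT, (hL.adj a b).2 ⟨hne, x, ha, hb⟩⟩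
    · refine ⟨Set.disjoint_left.2 fun v hv hv' => ?_, ?_⟩
      · have hvw : v = w.1 := hv'
        exact hTyz i w.1 w.2.1 w.2.2 (hvw ▸ hv)
      · obtain ⟨a, haT, ha⟩ := key i w
        exact ⟨a, haT, w.1, rfl, ha⟩
    · refine ⟨Set.disjoint_left.2 fun u hu hu' => ?_, ?_⟩
      · have huv : u = v.1 := hu
        exact hTyz j v.1 v.2.1 v.2.2 (huv ▸ hu')
      · obtain ⟨a, haT, ha⟩ := key j v
        exact ⟨v.1, rfl, a, haT, ha.symm⟩
    · have hne : v.1 ≠ w.1 := fun h => hij (congrArg Sum.inr (Subtype.ext h))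
      refine ⟨?_, v.1, rfl, w.1, rfl, (hL.adj _ _).2 ⟨hne, y, v.2.1, w.2.1⟩⟩
      exact Set.disjoint_singleton.2 hne

end Pool.Agent.Lib.MP_534936_co.Net
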